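import Pool.Agent.Helper259.AbsHt

/-!
The absolute logarithmic height of an algebraic number.
-/

set_option autoImplicit false
set_option linter.unusedSectionVars false

namespace Run7.h128.BD

open NumberField Height Module
open Pool.Agent.Helper259.AbsHt

/-- the absolute logarithmic height of an algebraic number -/
noncomputable def ah (a : Qbar) : ℝ := absLogHeight ![a, 1]

theorem ah_map (L : Type) [Field L] [NumberField L] (φ : L →+* Qbar) (a : L) :
    ah (φ a) = logHeight₁ a / finrank ℚ L := by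
  have h1 := absLogHeight_eq L φ ![a, 1]
  have h2 : (fun i => φ (![a, 1] i)) = ![φ a, 1] := by
    funext i
    fin_cases i
    · rfl
    · exact map_one φ
  rw [h2] at h1
  unfold ah
  rw [h1, logHeight₁_eq_logHeight]

theorem ah_nonneg (a : Qbar) : 0 ≤ ah a := absLogHeight_nonneg _

/-- members of a finite family come from a number field -/
theorem lift_fam {ι : Type} [Finite ι] (a : ι → Qbar) :
    ∃ (L : Type) (_ : Field L) (_ : NumberField L) (φ : L →+* Qbar) (b : ι → L),
      ∀ i, φ (b i) = a i := by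
  obtain ⟨L, hL, hmem⟩ := exists_nf (Set.range a) (Set.finite_range a)
  exact ⟨L, inferInstance, hL, algebraMap L Qbar, fun i => ⟨a i, hmem _ ⟨i, rfl⟩⟩, fun i => rfl⟩

theorem ah_conj (σ : Qbar →+* Qbar) (a : Qbar) : ah (σ a) = ah a := by
  obtain ⟨L, _, _, φ, b, hb⟩ := lift_fam (fun _ : Fin 1 => a)
  rw [← hb 0, ah_map L φ, ← ah_map L (σ.comp φ)]
  rfl

theorem fr_pos (L : Type) [Field L] [NumberField L] : (0 : ℝ) < finrank ℚ L := by
  have := Module.finrank_pos (R := ℚ) (M := L)
  exact_mod_cast this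

theorem ah_mul_le (a b : Qbar) : ah (a * b) ≤ ah a + ah b := by
  obtain ⟨L, _, _, φ, c, hc⟩ := lift_fam ![a, b]
  have h1 : φ (c 0) = a := hc 0
  have h2 : φ (c 1) = b := hc 1
  rw [← h1, ← h2, ← map_mul, ah_map L φ, ah_map L φ, ah_map L φ, ← add_div]
  exact div_le_div_of_nonneg_right (logHeight₁_mul_le _ _) (fr_pos L).le

theorem ah_inv (a : Qbar) : ah a⁻¹ = ah a := by
  obtain ⟨L, _, _, φ, c, hc⟩ := lift_fam (fun _ : Fin 1 => a)
  rw [← hc 0, ← map_inv₀, ah_map L φ, ah_map L φ, logHeight₁_inv]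

theorem ah_div_le (a b : Qbar) : ah (a / b) ≤ ah a + ah b := by
  rw [div_eq_mul_inv, ← ah_inv b]
  exact ah_mul_le a b⁻¹

theorem ah_one : ah 1 = 0 := by
  have := ah_map ℚ (algebraMap ℚ Qbar) 1
  rw [map_one, logHeight₁_one, zero_div] at this
  exact this

theorem ah_zero : ah 0 = 0 := by
  have := ah_map ℚ (algebraMap ℚ Qbar) 0
  rw [map_zero, logHeight₁_zero, zero_div] at this
  exact this

theorem ah_neg (a : Qbar) : ah (-a) = ah a := by
  have h1 : ∀ a : Qbar, ah (-a) ≤ ah a := by
    intro a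
    have h2 := ah_mul_le (-1) a
    have h3 : ah (-1) = 0 := by
      have := ah_map ℚ (algebraMap ℚ Qbar) (-1)
      rw [map_neg, map_one] at this
      rw [this]
      have h4 : logHeight₁ (-1 : ℚ) = 0 := by
        have h5 := logHeight₁_pow (-1 : ℚ) 2
        rw [neg_one_sq, logHeight₁_one] at h5
        push_cast at h5
        linarith
      rw [h4, zero_div]
    rw [h3, neg_one_mul] at h2
    linarith
  have h2 := h1 (-a)
  rw [neg_neg] at h2
  exact le_antisymm (h1 a) h2

theorem ah_sum_le {ι : Type} (s : Finset ι) (f : ι → Qbar) :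
    ah (∑ i ∈ s, f i) ≤ Real.log s.card + ∑ i ∈ s, ah (f i) := by
  classical
  obtain ⟨L, _, _, φ, c, hc⟩ := lift_fam (fun i : s => f i)
  have h1 : ∑ i ∈ s, f i = φ (∑ i : s, c i) := by
    rw [map_sum, ← Finset.sum_coe_sort s f]
    exact Finset.sum_congr rfl fun i _ => (hc i).symm
  have h2 : ∑ i ∈ s, ah (f i) = ∑ i : s, logHeight₁ (c i) / finrank ℚ L := by
    rw [← Finset.sum_coe_sort s fun i => ah (f i)]
    refine Finset.sum_congr rfl fun i _ => ?_
    rw [← ah_map L φ, hc]
  rw [h1, h2, ah_map L φ, ← Finset.sum_div]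
  have h3 := logHeight₁_sum_le (K := L) (Finset.univ : Finset s) c
  rw [totalWeight_eq_finrank] at h3
  rw [div_le_iff₀ (fr_pos L), add_mul, div_mul_cancel₀ _ (fr_pos L).ne']
  refine h3.trans (le_of_eq ?_)
  rw [Finset.card_univ, Fintype.card_coe]
  ring

theorem ah_prod_le {ι : Type} (s : Finset ι) (f : ι → Qbar) :
    ah (∏ i ∈ s, f i) ≤ ∑ i ∈ s, ah (f i) := by
  classical
  induction s using Finset.induction_on with
  | empty => rw [Finset.prod_empty, Finset.sum_empty, ah_one]
  | insert j s hj ih =>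
    rw [Finset.prod_insert hj, Finset.sum_insert hj]
    exact (ah_mul_le _ _).trans (by linarith)

theorem ah_pow_le (a : Qbar) (k : ℕ) : ah (a ^ k) ≤ k * ah a := by
  have h1 := ah_prod_le (Finset.range k) fun _ => a
  rw [Finset.prod_const, Finset.card_range, Finset.sum_const, Finset.card_range,
    nsmul_eq_mul] at h1
  exact h1

/-- the height of a vector is at most the sum of the heights of the coordinates -/
theorem absHeight_le_sum {ι : Type} [Fintype ι] (x : ι → Qbar) :
    absLogHeight x ≤ ∑ i, ah (x i) := by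
  refine (absLogHeight_le_sum x).trans (le_of_eq ?_)
  refine Finset.sum_congr rfl fun i _ => ?_
  unfold ah
  apply le_antisymm
  · have h1 := absLogHeight_comp_le ![(1 : Fin 2), 0] ![x i, 1]
    have h2 : ![x i, 1] ∘ ![(1 : Fin 2), 0] = ![1, x i] := by
      funext j
      fin_cases j <;> rfl
    rwa [h2] at h1
  · have h1 := absLogHeight_comp_le ![(1 : Fin 2), 0] ![1, x i]
    have h2 : ![1, x i] ∘ ![(1 : Fin 2), 0] = ![x i, 1] := by
      funext j
      fin_cases j <;> rfl
    rwa [h2] at h1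

/-- the ratio of two coordinates -/
theorem ah_ratio_le {ι : Type} [Finite ι] (x : ι → Qbar) (i j : ι) (hj : x j ≠ 0) :
    ah (x i / x j) ≤ absLogHeight x := by
  have h1 : absLogHeight ((x j)⁻¹ • x) = absLogHeight x := absLogHeight_smul x (inv_ne_zero hj)
  rw [← h1]
  have h2 := absLogHeight_comp_le ![i, j] ((x j)⁻¹ • x)
  have h3 : ((x j)⁻¹ • x) ∘ ![i, j] = ![x i / x j, 1] := by
    funext a
    fin_cases a
    · show (x j)⁻¹ * x i = x i / x j
      rw [div_eq_mul_inv, mul_comm]
    · show (x j)⁻¹ * x j = 1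
      exact inv_mul_cancel₀ hj
  rw [h3] at h2
  exact h2

end Run7.h128.BD
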