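import Pool.Agent.Run7.h128.FG.Cur

/-!
Rational curves with given exponents in a variety which meet the hypersurface `T = 0` only at `0` and
`∞`. Adapted from `Pool/Agent/Run7/h128/FG/Cur.lean`.
-/

set_option autoImplicit false
set_option linter.unusedSectionVars false

namespace Run7.h128.BD

open Finset
open Run7.h128.FG (cur cur_eval_one GU aeval_cur GU_deg pat pat_imp rep pat_rep transfer_sum
  cur_zero_transfer cur_const_transfer exists_exponent)

variable {n : ℕ} {ι : Type} [Fintype ι]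

/-- The complement of `T = 0` in the projective variety with the ideal `I` is `𝔾_m`-uniruled: over
some field `L` there is a nonconstant map `p` from `𝔾_m` to it, given by polynomials, such that `p 1`
is the generic point of the variety. -/
def LogUniruled {A : Type} [CommRing A] (I : Ideal (MvPolynomial (Fin (n + 1)) A))
    (T : MvPolynomial (Fin (n + 1)) A) : Prop :=
  ∃ (L : Type) (_ : Field L) (_ : Algebra A L) (p : Fin (n + 1) → Polynomial L),
    (∀ F ∈ I, MvPolynomial.aeval p F = 0) ∧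
    (∀ G : MvPolynomial (Fin (n + 1)) A, (∃ e, G.IsHomogeneous e) → G ∉ I →
      MvPolynomial.aeval (fun i => (p i).eval 1) G ≠ 0) ∧
    (∃ (c : L) (N : ℕ), MvPolynomial.aeval p T = Polynomial.C c * Polynomial.X ^ N) ∧
    ∃ i j, p i * Polynomial.C ((p j).eval 1) ≠ p j * Polynomial.C ((p i).eval 1)

/-- for a fixed vector of exponents, these curves lie in a hypersurface -/
theorem exists_GT {A : Type} [CommRing A] (FF : Set (MvPolynomial (Fin (n + 1)) A))
    (hprime : (Ideal.span FF).IsPrime) (T : MvPolynomial (Fin (n + 1)) A)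
    (hnu : ¬ LogUniruled (Ideal.span FF) T) (l : ι → ℕ) (i i' : Fin (n + 1)) (w N₀ : ℕ) :
    ∃ G : MvPolynomial (Fin (n + 1)) A, (∃ e, G.IsHomogeneous e) ∧ G ∉ Ideal.span FF ∧
      ∀ (L : Type) [Field L] [Algebra A L] (c : ι → Fin (n + 1) → L),
        (∀ F ∈ FF, MvPolynomial.aeval (cur c l) F = 0) →
        (∀ t, t ≠ N₀ → (MvPolynomial.aeval (cur c l) T).coeff t = 0) →
        (cur c l i * Polynomial.C (∑ j, c j i') - cur c l i' * Polynomial.C (∑ j, c j i)).coeff w
          ≠ 0 → MvPolynomial.aeval (fun i => ∑ j, c j i) G = 0 := by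
  classical
  by_contra hcon
  push Not at hcon
  let R : Type := MvPolynomial (ι × Fin (n + 1)) A
  let ct : ι → Fin (n + 1) → R := fun j i => MvPolynomial.X (j, i)
  let xt : Fin (n + 1) → R := fun i => ∑ j, ct j i
  let N : R := (cur ct l i * Polynomial.C (xt i') - cur ct l i' * Polynomial.C (xt i)).coeff w
  let J : Ideal R := Ideal.span ({a | ∃ F ∈ FF, ∃ t : ℕ,
    a = (MvPolynomial.aeval (cur ct l) F).coeff t} ∪
      {a | ∃ t : ℕ, t ≠ N₀ ∧ a = (MvPolynomial.aeval (cur ct l) T).coeff t})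
  -- specialisation
  have hcur : ∀ (L : Type) [Field L] [Algebra A L] (s : R →ₐ[A] L) (i : Fin (n + 1)),
      Polynomial.mapAlgHom s (cur ct l i) = cur (fun j i => s (ct j i)) l i := by
    intro L _ _ s i
    unfold cur
    rw [map_sum]
    refine Finset.sum_congr rfl fun j _ => ?_
    simp
  have hFs : ∀ (L : Type) [Field L] [Algebra A L] (s : R →ₐ[A] L)
      (F : MvPolynomial (Fin (n + 1)) A),
      Polynomial.mapAlgHom s (MvPolynomial.aeval (cur ct l) F) =
        MvPolynomial.aeval (cur (fun j i => s (ct j i)) l) F := by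
    intro L _ _ s F
    have h1 := congrArg (fun f => f F) (MvPolynomial.comp_aeval (R := A) (cur ct l)
      (Polynomial.mapAlgHom s))
    refine Eq.trans h1 ?_
    show MvPolynomial.aeval (fun i => Polynomial.mapAlgHom s (cur ct l i)) F = _
    congr 2
    funext i
    exact hcur L s i
  have hxs : ∀ (L : Type) [Field L] [Algebra A L] (s : R →ₐ[A] L)
      (G : MvPolynomial (Fin (n + 1)) A),
      s (MvPolynomial.aeval xt G) =
        MvPolynomial.aeval (fun i => ∑ j, (fun j i => s (ct j i)) j i) G := by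
    intro L _ _ s G
    have h1 := congrArg (fun f => f G) (MvPolynomial.comp_aeval (R := A) xt s)
    refine Eq.trans h1 ?_
    show MvPolynomial.aeval (fun i => s (xt i)) G = _
    congr 2
    funext i
    simp only [xt, map_sum]
  have hNs : ∀ (L : Type) [Field L] [Algebra A L] (s : R →ₐ[A] L),
      s N = (cur (fun j i => s (ct j i)) l i * Polynomial.C (∑ j, (fun j i => s (ct j i)) j i') -
        cur (fun j i => s (ct j i)) l i' * Polynomial.C (∑ j, (fun j i => s (ct j i)) j i)).coeff
          w := by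
    intro L _ _ s
    have h1 : s N = (Polynomial.mapAlgHom s (cur ct l i * Polynomial.C (xt i') -
        cur ct l i' * Polynomial.C (xt i))).coeff w := by
      rw [Polynomial.coe_mapAlgHom, Polynomial.coeff_map]
      rfl
    rw [h1, map_sub, map_mul, map_mul, hcur, hcur]
    congr 3
    · simp [xt, map_sum]
    · simp [xt, map_sum]
  have h1I : (1 : MvPolynomial (Fin (n + 1)) A) ∉ Ideal.span FF := by
    intro h
    exact hprime.ne_top ((Ideal.eq_top_iff_one _).2 h)
  let M : Submonoid R :=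
    { carrier := {a | ∃ (G : MvPolynomial (Fin (n + 1)) A) (t : ℕ), (∃ e, G.IsHomogeneous e) ∧
        G ∉ Ideal.span FF ∧ a = MvPolynomial.aeval xt G * N ^ t}
      one_mem' := ⟨1, 0, ⟨0, MvPolynomial.isHomogeneous_one _ _⟩, h1I, by simp⟩
      mul_mem' := by
        rintro a b ⟨G, t, ⟨e, he⟩, hG, rfl⟩ ⟨G', t', ⟨e', he'⟩, hG', rfl⟩
        refine ⟨G * G', t + t', ⟨e + e', he.mul he'⟩, ?_, ?_⟩
        · intro h
          rcases hprime.mem_or_mem h with h | h
          · exact hG h
          · exact hG' h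
        · rw [map_mul, pow_add]
          ring }
  have hdisj : Disjoint (J : Set R) M := by
    rw [Set.disjoint_left]
    rintro a haJ ⟨G, t, hGh, hGI, rfl⟩
    obtain ⟨L, iL, iA, c, hz, hzT, hN, hG⟩ := hcon G hGh hGI
    let s : R →ₐ[A] L := MvPolynomial.aeval (fun q : ι × Fin (n + 1) => c q.1 q.2)
    have hsc : (fun j i => s (ct j i)) = c := by
      funext j i
      exact MvPolynomial.aeval_X (fun q : ι × Fin (n + 1) => c q.1 q.2) (j, i)
    have hJ : J ≤ RingHom.ker s.toRingHom := by
      rw [Ideal.span_le]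
      rintro _ (⟨F, hF, t, rfl⟩ | ⟨t, ht, rfl⟩)
      · show s _ = 0
        have h1 := hFs L s F
        rw [hsc, hz F hF] at h1
        have h2 := congrArg (fun P => Polynomial.coeff P t) h1
        simp only [Polynomial.coe_mapAlgHom, Polynomial.coeff_map, Polynomial.coeff_zero] at h2
        exact h2
      · show s _ = 0
        have h1 := hFs L s T
        rw [hsc] at h1
        have h2 := congrArg (fun P => Polynomial.coeff P t) h1
        simp only [Polynomial.coe_mapAlgHom, Polynomial.coeff_map] at h2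
        rw [hzT t ht] at h2
        exact h2
    have h2 : s (MvPolynomial.aeval xt G * N ^ t) = 0 := hJ haJ
    rw [map_mul, map_pow, hxs, hNs, hsc] at h2
    exact mul_ne_zero hG (pow_ne_zero _ hN) h2
  obtain ⟨P, hP, hJP, hPM⟩ := Ideal.exists_le_prime_disjoint J M hdisj
  let L : Type := FractionRing (R ⧸ P)
  let s : R →ₐ[A] L := (IsScalarTower.toAlgHom A (R ⧸ P) (FractionRing (R ⧸ P))).comp
    (Ideal.Quotient.mkₐ A P)
  have hs0 : ∀ a : R, s a = 0 ↔ a ∈ P := by
    intro a
    show algebraMap (R ⧸ P) (FractionRing (R ⧸ P)) (Ideal.Quotient.mk P a) = 0 ↔ _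
    rw [FaithfulSMul.algebraMap_eq_zero_iff, Ideal.Quotient.eq_zero_iff_mem]
  apply hnu
  refine ⟨L, inferInstance, inferInstance, cur (fun j i => s (ct j i)) l, ?_, ?_, ?_, ?_⟩
  · have hI : Ideal.span FF ≤ RingHom.ker
        (MvPolynomial.aeval (R := A) (cur (fun j i => s (ct j i)) l)).toRingHom := by
      rw [Ideal.span_le]
      intro F hF
      show MvPolynomial.aeval (cur (fun j i => s (ct j i)) l) F = 0
      rw [← hFs L s F]
      ext t
      rw [Polynomial.coe_mapAlgHom, Polynomial.coeff_map, Polynomial.coeff_zero]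
      refine (hs0 _).2 (hJP (Ideal.subset_span (Or.inl ⟨F, hF, t, rfl⟩)))
    intro F hF
    exact hI hF
  · intro G hGh hGI h0
    have h1 : (fun i => (cur (fun j i => s (ct j i)) l i).eval 1) =
        fun i => ∑ j, (fun j i => s (ct j i)) j i := by
      funext i
      exact cur_eval_one _ _ _
    rw [h1, ← hxs L s G, hs0] at h0
    exact Set.disjoint_left.1 hPM h0 ⟨G, 0, hGh, hGI, by simp⟩
  · refine ⟨(MvPolynomial.aeval (cur (fun j i => s (ct j i)) l) T).coeff N₀, N₀, ?_⟩
    ext t
    rw [Polynomial.coeff_C_mul_X_pow]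
    by_cases ht : t = N₀
    · rw [if_pos ht, ht]
    · rw [if_neg ht, ← hFs L s T, Polynomial.coe_mapAlgHom, Polynomial.coeff_map]
      exact (hs0 _).2 (hJP (Ideal.subset_span (Or.inr ⟨t, ht, rfl⟩)))
  · refine ⟨i, i', fun h0 => ?_⟩
    rw [cur_eval_one, cur_eval_one] at h0
    have h1 := hNs L s
    rw [h0, sub_self, Polynomial.coeff_zero, hs0] at h1
    exact Set.disjoint_left.1 hPM h1 ⟨1, 1, ⟨0, MvPolynomial.isHomogeneous_one _ _⟩, h1I,
      by simp⟩

/-- the exponent of the value of `T` is a combination of the exponents of the curve, and the value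
of `T` remains a monomial if the exponents are replaced by exponents with the same pattern -/
theorem cur_monomial_transfer {A L : Type} [CommRing A] [Field L] [Algebra A L] (D : ℕ)
    (l l' : ι → ℕ) (h : pat D l = pat D l') (c : ι → Fin (n + 1) → L)
    (T : MvPolynomial (Fin (n + 1)) A) (e : ℕ) (he : e ≤ D) (hT : T.IsHomogeneous e) (c₀ : L)
    (hc₀ : c₀ ≠ 0) (N : ℕ)
    (h0 : MvPolynomial.aeval (cur c l) T = Polynomial.C c₀ * Polynomial.X ^ N) :
    ∃ α : ι → Fin (D + 1), MvPolynomial.aeval (cur c l') T =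
      Polynomial.C c₀ * Polynomial.X ^ (∑ j, (α j : ℕ) * l' j) := by
  classical
  rw [aeval_cur] at h0
  -- a monomial which contributes
  obtain ⟨α₀, hα₀, hN⟩ : ∃ α₀ ∈ (GU c T).support, ∑ j, α₀ j * l j = N := by
    by_contra hcon
    push Not at hcon
    have h1 := congrArg (fun P => Polynomial.coeff P N) h0
    simp only [Polynomial.finsetSum_coeff, Polynomial.coeff_C_mul_X_pow, if_true] at h1
    rw [Finset.sum_eq_zero (fun α hα => if_neg (fun h => hcon α hα h.symm))] at h1
    exact hc₀ h1.symm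
  have hdeg : ∀ α ∈ (GU c T).support, ∀ j, α j ≤ D := fun α hα j => (GU_deg c T e hT α hα j).trans he
  have h1 : ∑ α ∈ (GU c T).support, Polynomial.C (MvPolynomial.coeff α (GU c T) -
      if α = α₀ then c₀ else 0) * Polynomial.X ^ (∑ j, α j * l j) = 0 := by
    have h2 : ∀ α ∈ (GU c T).support, Polynomial.C (MvPolynomial.coeff α (GU c T) -
        if α = α₀ then c₀ else 0) * Polynomial.X ^ (∑ j, α j * l j) =
        Polynomial.C (MvPolynomial.coeff α (GU c T)) * Polynomial.X ^ (∑ j, α j * l j) -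
          if α = α₀ then Polynomial.C c₀ * Polynomial.X ^ (∑ j, α j * l j) else 0 := by
      intro α _
      rw [Polynomial.C_sub, sub_mul]
      congr 1
      by_cases hα : α = α₀
      · rw [if_pos hα, if_pos hα]
      · rw [if_neg hα, if_neg hα, Polynomial.C_0, zero_mul]
    rw [Finset.sum_congr rfl h2, Finset.sum_sub_distrib, h0, Finset.sum_ite_eq', if_pos hα₀, hN,
      sub_self]
  have h3 := transfer_sum _ _ (fun α : ι →₀ ℕ => ∑ j, α j * l j)
    (fun α : ι →₀ ℕ => ∑ j, α j * l' j) (fun α hα β hβ hab =>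
      pat_imp D l l' h α β (hdeg α hα) (hdeg β hβ) hab) h1
  refine ⟨fun j => ⟨α₀ j, Nat.lt_succ_of_le (hdeg α₀ hα₀ j)⟩, ?_⟩
  rw [aeval_cur]
  have h2 : ∀ α ∈ (GU c T).support, Polynomial.C (MvPolynomial.coeff α (GU c T) -
      if α = α₀ then c₀ else 0) * Polynomial.X ^ (∑ j, α j * l' j) =
      Polynomial.C (MvPolynomial.coeff α (GU c T)) * Polynomial.X ^ (∑ j, α j * l' j) -
        if α = α₀ then Polynomial.C c₀ * Polynomial.X ^ (∑ j, α j * l' j) else 0 := by
    intro α _
    rw [Polynomial.C_sub, sub_mul]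
    congr 1
    by_cases hα : α = α₀
    · rw [if_pos hα, if_pos hα]
    · rw [if_neg hα, if_neg hα, Polynomial.C_0, zero_mul]
  rw [Finset.sum_congr rfl h2, Finset.sum_sub_distrib, Finset.sum_ite_eq', if_pos hα₀,
    sub_eq_zero] at h3
  exact h3

/-- all these curves with given terms lie in one hypersurface -/
theorem exists_hyperT {A : Type} [CommRing A] (FF : Set (MvPolynomial (Fin (n + 1)) A))
    (hprime : (Ideal.span FF).IsPrime) (T : MvPolynomial (Fin (n + 1)) A)
    (hnu : ¬ LogUniruled (Ideal.span FF) T) (d : ℕ) (hd : 1 ≤ d)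
    (hFF : ∀ F ∈ FF, ∃ e, e ≤ d ∧ F.IsHomogeneous e) (e : ℕ) (he : e ≤ d)
    (hT : T.IsHomogeneous e) (ι : Type) [Fintype ι] :
    ∃ G : MvPolynomial (Fin (n + 1)) A, (∃ e, G.IsHomogeneous e) ∧ G ∉ Ideal.span FF ∧
      ∀ (L : Type) [Field L] [Algebra A L] (c : ι → Fin (n + 1) → L) (l : ι → ℕ),
        (∀ F ∈ FF, MvPolynomial.aeval (cur c l) F = 0) →
        (∃ (c₀ : L) (N : ℕ), c₀ ≠ 0 ∧
          MvPolynomial.aeval (cur c l) T = Polynomial.C c₀ * Polynomial.X ^ N) →
        (∃ i i', cur c l i * Polynomial.C (∑ j, c j i') ≠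
          cur c l i' * Polynomial.C (∑ j, c j i)) →
        MvPolynomial.aeval (fun i => ∑ j, c j i) G = 0 := by
  classical
  choose H hH1 hH2 hH3 using fun (q : Set ((ι → Fin (d + 1)) × (ι → Fin (d + 1))) ×
    Fin (n + 1) × Fin (n + 1) × ι × (ι → Fin (d + 1))) =>
    exists_GT FF hprime T hnu (rep d q.1) q.2.1 q.2.2.1 (rep d q.1 q.2.2.2.1)
      (∑ j, (q.2.2.2.2 j : ℕ) * rep d q.1 j)
  choose E hE using hH1
  refine ⟨∏ q, H q, ⟨∑ q, E q, MvPolynomial.IsHomogeneous.prod _ _ _ fun q _ => hE q⟩, ?_, ?_⟩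
  · rw [hprime.prod_mem_iff]
    push Not
    intro q _
    exact hH2 q
  · intro L _ _ c l hz ⟨c₀, N, hc₀, hTc⟩ ⟨i, i', hc⟩
    have hp := pat_rep d l
    have hz' : ∀ F ∈ FF, MvPolynomial.aeval (cur c (rep d (pat d l))) F = 0 := by
      intro F hF
      obtain ⟨e, he, hFe⟩ := hFF F hF
      exact cur_zero_transfer d l _ hp.symm c F e he hFe (hz F hF)
    obtain ⟨α, hα⟩ := cur_monomial_transfer d l _ hp.symm c T e he hT c₀ hc₀ N hTc
    have hc' : cur c (rep d (pat d l)) i * Polynomial.C (∑ j, c j i') ≠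
        cur c (rep d (pat d l)) i' * Polynomial.C (∑ j, c j i) := by
      intro h
      exact hc (cur_const_transfer d hd _ l hp c i i' _ _ h)
    obtain ⟨j, hj⟩ := exists_exponent c _ i i' _ _ hc'
    have h1 := hH3 (pat d l, i, i', j, α) L c hz' (fun t ht => by
      rw [hα, Polynomial.coeff_C_mul_X_pow, if_neg ht]) hj
    rw [map_prod]
    exact Finset.prod_eq_zero (Finset.mem_univ (pat d l, i, i', j, α)) h1

end Run7.h128.BD
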