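import Pool.Agent.Run7.h128.BD.Abs

/-!
A finite family of algebraic numbers in terms of a subfamily which is linearly independent over a
number field, with coefficients of small height; nothing depends on the degrees.
-/

set_option autoImplicit false
set_option linter.unusedSectionVars false

namespace Run7.h128.BD

open NumberField Height Module Matrix
open Pool.Agent.Helper259.AbsHt

variable {K : Type} [Field K] [NumberField K] [Algebra K Qbar]

instance isAlg : Algebra.IsAlgebraic K Qbar := by
  have : Algebra.IsAlgebraic ℚ Qbar := AlgebraicClosure.isAlgebraic ℚ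
  exact Algebra.IsAlgebraic.tower_top (K := ℚ) K

instance isGal : IsGalois K Qbar := by
  have : IsAlgClosure K Qbar := ⟨inferInstance, inferInstance⟩
  exact IsAlgClosure.isGalois K Qbar

section conj

variable {κ : Type} [Fintype κ] [DecidableEq κ]

open Classical in
/-- **Descent**: the vectors of the conjugates of linearly independent numbers span. -/
theorem span_conj (c : κ → Qbar) (hc : LinearIndependent K c) :
    Submodule.span Qbar (Set.range fun (σ : Qbar ≃ₐ[K] Qbar) (b : κ) => σ (c b)) = ⊤ := by
  by_contra hcon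
  obtain ⟨f, hf0, hf⟩ := Submodule.exists_dual_map_eq_bot_of_lt_top (lt_top_iff_ne_top.2 hcon)
    inferInstance
  -- relations between the columns
  set P : (κ → Qbar) → Prop := fun α => α ≠ 0 ∧
    ∀ σ : Qbar ≃ₐ[K] Qbar, ∑ b, α b * σ (c b) = 0 with hP
  have hex : ∃ α, P α := by
    refine ⟨fun b => f (Pi.single b 1), ?_, fun σ => ?_⟩
    · intro h
      apply hf0
      refine LinearMap.pi_ext' fun b => ?_
      ext
      simpa using congrFun h b
    · have h1 : f (fun b => σ (c b)) = 0 := by
        have h2 : f (fun b => σ (c b)) ∈ Submodule.map f (Submodule.span Qbar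
            (Set.range fun (σ : Qbar ≃ₐ[K] Qbar) (b : κ) => σ (c b))) :=
          Submodule.mem_map_of_mem (Submodule.subset_span ⟨σ, rfl⟩)
        rw [hf] at h2
        exact (Submodule.mem_bot _).1 h2
      have h3 : (fun b => σ (c b)) = ∑ b, σ (c b) • (Pi.single b 1 : κ → Qbar) := by
        funext a
        rw [Finset.sum_apply, Finset.sum_eq_single a]
        · simp
        · intro b _ hb
          rw [Pi.smul_apply, Pi.single_eq_of_ne (Ne.symm hb), smul_zero]
        · intro h
          exact absurd (Finset.mem_univ _) h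
      rw [h3, map_sum] at h1
      rw [← h1]
      refine Finset.sum_congr rfl fun b _ => ?_
      rw [map_smul, smul_eq_mul, mul_comm]
  -- a relation with the smallest support
  obtain ⟨α, hα, hmin⟩ : ∃ α, P α ∧ ∀ β, P β → (Finset.univ.filter fun b => α b ≠ 0).card ≤
      (Finset.univ.filter fun b => β b ≠ 0).card := by
    have hex' : ∃ k, ∃ α, P α ∧ (Finset.univ.filter fun b => α b ≠ 0).card = k := by
      obtain ⟨α, hα⟩ := hex
      exact ⟨_, α, hα, rfl⟩
    obtain ⟨α, hα, hk⟩ := Nat.find_spec hex'
    refine ⟨α, hα, fun β hβ => ?_⟩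
    rw [hk]
    exact Nat.find_min' hex' ⟨β, hβ, rfl⟩
  obtain ⟨b₀, hb₀⟩ := Function.ne_iff.1 hα.1
  rw [Pi.zero_apply] at hb₀
  set β : κ → Qbar := fun b => α b / α b₀ with hβ
  have hβs : ∀ σ : Qbar ≃ₐ[K] Qbar, ∑ b, β b * σ (c b) = 0 := by
    intro σ
    have h1 := hα.2 σ
    have h2 : ∑ b, β b * σ (c b) = (∑ b, α b * σ (c b)) / α b₀ := by
      rw [Finset.sum_div]
      refine Finset.sum_congr rfl fun b _ => ?_
      rw [hβ]
      ring
    rw [h2, h1, zero_div]
  have hβ0 : β b₀ = 1 := div_self hb₀
  have hfix : ∀ τ : Qbar ≃ₐ[K] Qbar, ∀ b, τ (β b) = β b := by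
    intro τ
    by_contra hc'
    push Not at hc'
    obtain ⟨b₁, hb₁⟩ := hc'
    set γ : κ → Qbar := fun b => τ (β b) - β b with hγ
    have hγP : P γ := by
      refine ⟨fun h => hb₁ (sub_eq_zero.1 (congrFun h b₁)), fun σ => ?_⟩
      have h1 := congrArg τ (hβs (τ.symm.trans σ |>.symm.trans τ.symm |>.symm))
      have h2 : ∑ b, γ b * σ (c b) = ∑ b, τ (β b) * σ (c b) - ∑ b, β b * σ (c b) := by
        rw [← Finset.sum_sub_distrib]
        exact Finset.sum_congr rfl fun b _ => sub_mul _ _ _
      rw [h2, hβs σ, sub_zero]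
      have h3 := congrArg τ (hβs (σ.trans τ.symm))
      rw [map_sum, map_zero] at h3
      rw [← h3]
      refine Finset.sum_congr rfl fun b _ => ?_
      rw [map_mul, AlgEquiv.trans_apply, AlgEquiv.apply_symm_apply]
    have h1 := hmin γ hγP
    have h2 : (Finset.univ.filter fun b => γ b ≠ 0) ⊂ (Finset.univ.filter fun b => α b ≠ 0) := by
      rw [Finset.ssubset_iff_of_subset]
      · refine ⟨b₀, Finset.mem_filter.2 ⟨Finset.mem_univ _, hb₀⟩, ?_⟩
        rw [Finset.mem_filter, not_and, not_not]
        intro _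
        show τ (β b₀) - β b₀ = 0
        rw [hβ0, map_one, sub_self]
      · intro b hb
        rw [Finset.mem_filter] at hb ⊢
        refine ⟨Finset.mem_univ _, fun h => hb.2 ?_⟩
        show τ (β b) - β b = 0
        have h3 : β b = 0 := by
          show α b / α b₀ = 0
          rw [h, zero_div]
        rw [h3, map_zero, sub_zero]
    have h3 := Finset.card_lt_card h2
    omega
  have hK : ∀ b, ∃ k : K, algebraMap K Qbar k = β b := fun b =>
    (InfiniteGalois.mem_range_algebraMap_iff_fixed (β b)).2 fun τ => hfix τ b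
  choose k hk using hK
  have h1 := Fintype.linearIndependent_iff.1 hc k (by
    have h2 := hβs AlgEquiv.refl
    rw [← h2]
    refine Finset.sum_congr rfl fun b _ => ?_
    rw [Algebra.smul_def, hk]
    rfl) b₀
  have h2 := hk b₀
  rw [h1, map_zero, hβ0] at h2
  exact zero_ne_one h2

/-- a matrix of conjugates which is invertible -/
theorem exists_minor (c : κ → Qbar) (hc : LinearIndependent K c) :
    ∃ σ : κ → (Qbar ≃ₐ[K] Qbar), (Matrix.of fun a b => σ a (c b)).det ≠ 0 := by
  obtain ⟨κ', a, ha, hsp, hli⟩ := exists_linearIndependent' Qbar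
    (fun (σ : Qbar ≃ₐ[K] Qbar) (b : κ) => σ (c b))
  rw [span_conj c hc] at hsp
  have : Finite κ' := hli.finite_of_isNoetherian
  have := Fintype.ofFinite κ'
  set B := Basis.mk hli hsp.ge with hB
  have hcard : Fintype.card κ = Fintype.card κ' := by
    rw [← Module.finrank_eq_card_basis B, Module.finrank_fintype_fun_eq_card]
  set e : κ ≃ κ' := Fintype.equivOfCardEq hcard with he
  refine ⟨fun i => a (e i), ?_⟩
  have h1 : LinearIndependent Qbar (Matrix.of fun i b => a (e i) (c b)).row := by
    have h2 := hli.comp e e.injective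
    exact h2
  rw [Matrix.linearIndependent_rows_iff_isUnit, Matrix.isUnit_iff_isUnit_det] at h1
  exact h1.ne_zero

end conj

/-- the height of a determinant -/
theorem ah_det_le {κ : Type} [Fintype κ] [DecidableEq κ] (M : Matrix κ κ Qbar) (A : ℝ)
    (hM : ∀ i j, ah (M i j) ≤ A) (N : ℕ) (hN : Fintype.card κ ≤ N) (hA : 0 ≤ A) :
    ah M.det ≤ N.factorial + N.factorial * N * A := by
  rw [Matrix.det_apply]
  refine (ah_sum_le _ _).trans ?_
  have hcard : (Finset.univ : Finset (Equiv.Perm κ)).card ≤ N.factorial := by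
    rw [Finset.card_univ, Fintype.card_perm]
    exact Nat.factorial_le hN
  have hcard' : ((Finset.univ : Finset (Equiv.Perm κ)).card : ℝ) ≤ N.factorial := by
    exact_mod_cast hcard
  have hpos : (0 : ℝ) < (Finset.univ : Finset (Equiv.Perm κ)).card := by
    exact_mod_cast Finset.card_pos.2 Finset.univ_nonempty
  refine add_le_add ?_ ?_
  · have h1 := Real.log_le_sub_one_of_pos hpos
    linarith
  · have h1 : ∀ σ : Equiv.Perm κ, ah (Equiv.Perm.sign σ • ∏ i, M (σ i) i) ≤ N * A := by
      intro σ
      have h2 : ah (Equiv.Perm.sign σ • ∏ i, M (σ i) i) = ah (∏ i, M (σ i) i) := by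
        rcases Int.units_eq_one_or (Equiv.Perm.sign σ) with h | h
        · rw [h, one_smul]
        · rw [h, Units.neg_smul, one_smul, ah_neg]
      rw [h2]
      refine (ah_prod_le _ _).trans ((Finset.sum_le_sum fun i _ => hM (σ i) i).trans ?_)
      rw [Finset.sum_const, Finset.card_univ, nsmul_eq_mul]
      refine mul_le_mul_of_nonneg_right ?_ hA
      exact_mod_cast hN
    refine (Finset.sum_le_sum fun σ _ => h1 σ).trans ?_
    rw [Finset.sum_const, nsmul_eq_mul, mul_assoc]
    exact mul_le_mul_of_nonneg_right hcard' (mul_nonneg (Nat.cast_nonneg _) hA)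

/-- heights of the coordinates with respect to a linearly independent family -/
theorem coord_le {κ : Type} [Fintype κ] [DecidableEq κ] (c : κ → Qbar)
    (hc : LinearIndependent K c) (p : κ → K) (y : Qbar) (hy : ∑ b, p b • c b = y) (A : ℝ)
    (hA : 0 ≤ A) (hcA : ∀ b, ah (c b) ≤ A) (hyA : ah y ≤ A) (N : ℕ) (hN : Fintype.card κ ≤ N)
    (b : κ) : ah (algebraMap K Qbar (p b)) ≤ 2 * (N.factorial + N.factorial * N * A) := by
  obtain ⟨σ, hσ⟩ := exists_minor c hc
  set M : Matrix κ κ Qbar := Matrix.of fun a b => σ a (c b) with hM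
  have h1 : M *ᵥ (fun b => algebraMap K Qbar (p b)) = fun a => σ a y := by
    funext a
    rw [← hy, map_sum]
    refine Finset.sum_congr rfl fun b _ => ?_
    rw [Algebra.smul_def, map_mul, AlgEquiv.commutes, mul_comm]
    rfl
  have h2 : cramer M (fun a => σ a y) = M.det • fun b => algebraMap K Qbar (p b) := by
    rw [← h1, cramer_eq_adjugate_mulVec, Matrix.mulVec_mulVec, Matrix.adjugate_mul,
      Matrix.smul_mulVec, Matrix.one_mulVec]
  have h3 := congrFun h2 b
  rw [cramer_apply, Pi.smul_apply, smul_eq_mul] at h3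
  have h4 : algebraMap K Qbar (p b) = (M.updateCol b fun a => σ a y).det / M.det := by
    rw [h3, mul_comm, mul_div_assoc, div_self hσ, mul_one]
  rw [h4]
  refine (ah_div_le _ _).trans ?_
  have hMA : ∀ i j, ah (M i j) ≤ A := fun i j => by
    show ah (σ i (c j)) ≤ A
    have h5 := ah_conj ((σ i : Qbar ≃ₐ[K] Qbar) : Qbar →+* Qbar) (c j)
    exact h5.le.trans (hcA j)
  have h5 := ah_det_le M A hMA N hN hA
  have h6 := ah_det_le (M.updateCol b fun a => σ a y) A (fun i j => by
    rw [Matrix.updateCol_apply]
    split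
    · have h5 := ah_conj ((σ i : Qbar ≃ₐ[K] Qbar) : Qbar →+* Qbar) y
      exact h5.le.trans hyA
    · exact hMA i j) N hN hA
  linarith

open Classical in
/-- **Descent of relations.** -/
theorem exists_descent (ι : Type) [Fintype ι] : ∃ C : ℝ, 0 ≤ C ∧
    ∀ (K : Type) [Field K] [NumberField K] [Algebra K Qbar] (c : ι → Qbar) (A : ℝ), 0 ≤ A →
      (∀ i j, c j ≠ 0 → ah (c i / c j) ≤ A) → ∃ q : ι → ι → K,
        (∀ i, c i = ∑ b, algebraMap K Qbar (q b i) * c b) ∧
        (∀ v : ι → K, ∑ i, algebraMap K Qbar (v i) * c i = 0 → ∀ b, ∑ i, q b i * v i = 0) ∧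
        ∀ b i, ah (algebraMap K Qbar (q b i)) ≤ C * (1 + A) := by
  set N := Fintype.card ι with hN
  have hf : (0 : ℝ) ≤ N.factorial := Nat.cast_nonneg _
  have hNN : (0 : ℝ) ≤ N := Nat.cast_nonneg _
  refine ⟨2 * (N.factorial + N.factorial * N), by positivity, fun K _ _ _ c A hA hc => ?_⟩
  have hbd : 2 * (N.factorial + N.factorial * N * A) ≤
      2 * (N.factorial + N.factorial * N) * (1 + A) := by
    have h1 := mul_nonneg hf hA
    have h2 := mul_nonneg (mul_nonneg hf hNN) hA
    nlinarith [mul_nonneg hf hNN]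
  by_cases h0 : c = 0
  · refine ⟨fun _ _ => 0, fun i => ?_, fun v _ b => ?_, fun b i => ?_⟩
    · rw [h0]
      simp
    · simp
    · rw [map_zero, ah_zero]
      positivity
  obtain ⟨j₀, hj₀⟩ := Function.ne_iff.1 h0
  rw [Pi.zero_apply] at hj₀
  set c' : ι → Qbar := fun i => c i / c j₀ with hc'
  obtain ⟨κ, a, ha, hsp, hli⟩ := exists_linearIndependent' K c'
  have : Finite κ := Finite.of_injective a ha
  have := Fintype.ofFinite κ
  have hcard : Fintype.card κ ≤ N := Fintype.card_le_of_injective a ha
  have hmem : ∀ i, ∃ p : κ → K, ∑ k, p k • (c' ∘ a) k = c' i := by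
    intro i
    have h1 : c' i ∈ Submodule.span K (Set.range (c' ∘ a)) := by
      rw [hsp]
      exact Submodule.subset_span ⟨i, rfl⟩
    exact (Submodule.mem_span_range_iff_exists_fun K).1 h1
  choose p hp using hmem
  have hpb : ∀ i k, ah (algebraMap K Qbar (p i k)) ≤
      2 * (N.factorial + N.factorial * N * A) := fun i k =>
    coord_le (c' ∘ a) hli (p i) (c' i) (hp i) A hA (fun b => hc _ _ hj₀) (hc _ _ hj₀) N hcard k
  refine ⟨fun b i => ∑ k, if a k = b then p i k else 0, fun i => ?_, fun v hv b => ?_,
    fun b i => ?_⟩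
  · have h1 : c i = c j₀ * c' i := by
      rw [hc']
      field_simp
    rw [h1, ← hp i, Finset.mul_sum]
    have h2 : ∀ b, algebraMap K Qbar (∑ k, if a k = b then p i k else 0) * c b =
        ∑ k, if a k = b then algebraMap K Qbar (p i k) * c b else 0 := by
      intro b
      rw [map_sum, Finset.sum_mul]
      refine Finset.sum_congr rfl fun k _ => ?_
      split
      · rfl
      · rw [map_zero, zero_mul]
    rw [Finset.sum_congr rfl fun b _ => h2 b, Finset.sum_comm]
    refine Finset.sum_congr rfl fun k _ => ?_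
    rw [Finset.sum_ite_eq]
    simp only [Finset.mem_univ, if_true]
    rw [Algebra.smul_def, Function.comp_apply, hc']
    field_simp
  · have h1 : ∀ k, ∑ i, p i k * v i = 0 := by
      refine Fintype.linearIndependent_iff.1 hli (fun k => ∑ i, p i k * v i) ?_
      have h2 : ∑ k, (∑ i, p i k * v i) • (c' ∘ a) k = ∑ i, algebraMap K Qbar (v i) * c' i := by
        have h3 : ∀ i, algebraMap K Qbar (v i) * c' i =
            ∑ k, algebraMap K Qbar (p i k * v i) * (c' ∘ a) k := by
          intro i
          rw [← hp i, Finset.mul_sum]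
          refine Finset.sum_congr rfl fun k _ => ?_
          rw [Algebra.smul_def, map_mul]
          ring
        rw [Finset.sum_congr rfl fun i _ => h3 i, Finset.sum_comm]
        refine Finset.sum_congr rfl fun k _ => ?_
        rw [Algebra.smul_def, map_sum, Finset.sum_mul]
      rw [h2]
      have h3 : ∑ i, algebraMap K Qbar (v i) * c' i = (∑ i, algebraMap K Qbar (v i) * c i) / c j₀ := by
        rw [Finset.sum_div]
        exact Finset.sum_congr rfl fun i _ => by rw [hc', mul_div_assoc]
      rw [h3, hv, zero_div]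
    have h2 : ∀ i, (∑ k, if a k = b then p i k else 0) * v i =
        ∑ k, if a k = b then p i k * v i else 0 := by
      intro i
      rw [Finset.sum_mul]
      refine Finset.sum_congr rfl fun k _ => ?_
      split
      · rfl
      · rw [zero_mul]
    rw [Finset.sum_congr rfl fun i _ => h2 i, Finset.sum_comm]
    refine Finset.sum_eq_zero fun k _ => ?_
    split
    · exact h1 k
    · exact Finset.sum_const_zero
  · refine le_trans ?_ hbd
    by_cases hb : ∃ k, a k = b
    · obtain ⟨k, rfl⟩ := hb
      have h1 : (∑ k', if a k' = a k then p i k' else 0) = p i k := by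
        rw [Finset.sum_eq_single k]
        · rw [if_pos rfl]
        · intro k' _ hk'
          rw [if_neg fun h => hk' (ha h)]
        · intro h
          exact absurd (Finset.mem_univ _) h
      show ah (algebraMap K Qbar (∑ k', if a k' = a k then p i k' else 0)) ≤ _
      rw [h1]
      exact hpb i k
    · push Not at hb
      have h1 : (∑ k', if a k' = b then p i k' else 0) = 0 :=
        Finset.sum_eq_zero fun k _ => if_neg (hb k)
      show ah (algebraMap K Qbar (∑ k', if a k' = b then p i k' else 0)) ≤ _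
      rw [h1, map_zero, ah_zero]
      positivity

end Run7.h128.BD
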