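import Pool.Agent.Run7.h128.BD.KeyQ

/-!
The dichotomy for combinations of almost units with algebraic coefficients of small height.
-/

set_option autoImplicit false
set_option linter.unusedSectionVars false

namespace Run7.h128.BD

open NumberField Height Module MvPolynomial Finset Filter
open Pool.Agent.Helper259.AbsHt
open Run7.h128.AU (Ex mem_Ex eval_homog coefHeight tau Rel key outside plS plS_inf outside_nonneg
  tau_le_outside)
open Run7.h128.FG (cur)
open Pool.Agent.W180.OP (Pl)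

theorem rel_const {K : Type} [Field K] [NumberField K] {ι : Type} [Fintype ι] (𝒰 : Ultrafilter ℕ)
    (A : ℕ → ℝ) (hA : ∀ s, 1 ≤ A s) (I : Finset ι) (l : ι → ℕ) (u : ι → ℕ → K)
    (hI : ∀ᶠ s in (𝒰 : Filter ℕ), ∀ i, u i s ≠ 0 ↔ i ∈ I)
    (hr : ∀ i ∈ I, ∀ j ∈ I, l i = l j → Rel 𝒰 A (u i) (u j)) :
    ∃ B : ℝ, 0 ≤ B ∧ ∀ᶠ s in (𝒰 : Filter ℕ), ∀ i j, u i s ≠ 0 → u j s ≠ 0 → l i = l j →
      logHeight₁ (u i s / u j s) ≤ B * A s := by
  classical
  have hrel : ∀ p : ι × ι, ∃ C : ℝ, p.1 ∈ I → p.2 ∈ I → l p.1 = l p.2 →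
      ∀ᶠ s in (𝒰 : Filter ℕ), logHeight₁ (u p.1 s / u p.2 s) ≤ C * A s := by
    intro p
    by_cases h : p.1 ∈ I ∧ p.2 ∈ I ∧ l p.1 = l p.2
    · obtain ⟨C, hC⟩ := hr p.1 h.1 p.2 h.2.1 h.2.2
      exact ⟨C, fun _ _ _ => hC⟩
    · exact ⟨0, fun h1 h2 h3 => absurd ⟨h1, h2, h3⟩ h⟩
  choose Cp hCp using hrel
  have hall : ∀ᶠ s in (𝒰 : Filter ℕ), ∀ p : ι × ι, p.1 ∈ I → p.2 ∈ I → l p.1 = l p.2 →
      logHeight₁ (u p.1 s / u p.2 s) ≤ Cp p * A s := by
    rw [Filter.eventually_all]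
    intro p
    by_cases h : p.1 ∈ I ∧ p.2 ∈ I ∧ l p.1 = l p.2
    · filter_upwards [hCp p h.1 h.2.1 h.2.2] with s hs _ _ _
      exact hs
    · exact Eventually.of_forall fun s h1 h2 h3 => absurd ⟨h1, h2, h3⟩ h
  refine ⟨∑ p, |Cp p|, Finset.sum_nonneg fun p _ => abs_nonneg _, ?_⟩
  filter_upwards [hI, hall] with s h1 h2 i j hi hj hij
  refine (h2 (i, j) ((h1 i).1 hi) ((h1 j).1 hj) hij).trans ?_
  refine mul_le_mul_of_nonneg_right ?_ (by linarith [hA s])
  exact (le_abs_self _).trans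
    (Finset.single_le_sum (f := fun p => |Cp p|) (fun _ _ => abs_nonneg _) (Finset.mem_univ (i, j)))

/-- **The dichotomy.** -/
theorem dichI {K : Type} [Field K] [NumberField K] [Algebra K Qbar] (S : Finset (FinitePlace K))
    (ι : Type) [Fintype ι] [DecidableEq ι] (n m : ℕ) (e : Fin m → ℕ) :
    ∃ C : ℝ, ∀ G : Fin m → MvPolynomial (Fin (n + 1)) Qbar, (∀ k, (G k).IsHomogeneous (e k)) →
      ∀ (lam : ι → Fin (n + 1) → Qbar) (u : ι → K),
      (fun a => ∑ i, trm lam u i a) ≠ 0 → (∀ k, eval (fun a => ∑ i, trm lam u i a) (G k) = 0) →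
      absLogHeight (fun a => ∑ i, trm lam u i a) ≤
        C * (1 + ∑ k, cah (G k) + ∑ i, ∑ a, ah (lam i a) + outside S u) ∨
      ∃ l : ι → ℕ, (∀ k, aeval (cur (trm lam u) l) (G k) = 0) ∧
        ∃ a b, cur (trm lam u) l a * Polynomial.C (∑ i, trm lam u i b) ≠
          cur (trm lam u) l b * Polynomial.C (∑ i, trm lam u i a) := by
  classical
  by_contra hcon
  push Not at hcon
  choose G hG lam u hx h0 hC hD using fun s : ℕ => hcon (s : ℝ)
  set 𝒰 : Ultrafilter ℕ := hyperfilter ℕ with h𝒰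
  have hlarge : ∀ N : ℕ, ∀ᶠ s in (𝒰 : Filter ℕ), N ≤ s := fun N =>
    (Nat.hyperfilter_le_atTop (Filter.eventually_ge_atTop N))
  set A : ℕ → ℝ := fun s => 1 + ∑ k, cah (G s k) + ∑ i, ∑ a, ah (lam s i a) +
    outside S (u s) with hAdef
  have hG0 : ∀ s, 0 ≤ ∑ k, cah (G s k) := fun s => Finset.sum_nonneg fun k _ => cah_nonneg _
  have hl0 : ∀ s, 0 ≤ ∑ i, ∑ a, ah (lam s i a) := fun s =>
    Finset.sum_nonneg fun i _ => Finset.sum_nonneg fun a _ => ah_nonneg _
  have ho0 : ∀ s, 0 ≤ outside S (u s) := fun s => outside_nonneg S _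
  have hA : ∀ s, 1 ≤ A s := fun s => by
    have h1 := hG0 s
    have h2 := hl0 s
    have h3 := ho0 s
    show 1 ≤ 1 + _ + _ + _
    linarith
  obtain ⟨I, l, hI, hl1, hl2⟩ := keyQ (K := K) 𝒰 (plS S) (plS_inf S) e G hG
    (fun s a i => lam s i a) (fun i s => u s i) A hA
    (fun s k => by
      have h1 := Finset.single_le_sum (f := fun k => cah (G s k))
        (fun k _ => cah_nonneg _) (Finset.mem_univ k)
      have h2 : ∑ p : Fin (n + 1) × ι, ah (lam s p.2 p.1) = ∑ i, ∑ a, ah (lam s i a) := by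
        rw [Fintype.sum_prod_type, Finset.sum_comm]
      rw [h2]
      show _ ≤ 1 + _ + _ + _
      linarith [ho0 s])
    (fun s i j hi hj => by
      refine (tau_le_outside S (u s) i j hi hj).trans ?_
      show _ ≤ 1 + _ + _ + _
      linarith [hG0 s, hl0 s])
    (fun s k => h0 s k)
  obtain ⟨B, hB0, hB⟩ := rel_const 𝒰 A hA I l (fun i s => u s i) hI hl2
  set C1 : ℝ := (n + 1) * (Real.log (Fintype.card ι) + Fintype.card ι * B) + 1 with hC1
  obtain ⟨N', hN'⟩ := exists_nat_gt C1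
  obtain ⟨s, h1, h2, h3⟩ := ((hlarge N').and (hl1.and hB)).exists
  have hA1 := hA s
  have hbound := hD s l (fun k => by
    refine poly_eq_of_K (K := K) _ _ fun t => ?_
    rw [aeval_eval, Polynomial.eval_zero, ← h2 t k]
    have h4 : (fun a => (cur (trm (lam s) (u s)) l a).eval (algebraMap K Qbar t)) =
        fun a => ∑ i, lam s i a * algebraMap K Qbar (t ^ (l i) * u s i) := by
      funext a
      rw [cur_eval]
      refine Finset.sum_congr rfl fun i _ => ?_
      unfold trm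
      rw [map_mul, map_pow]
      ring
    rw [h4])
  have h5 := height_of_constQ l (lam s) (u s) (hx s) hbound (B * A s)
    (mul_nonneg hB0 (by linarith)) h3
  have h6 : absLogHeight (fun a => ∑ i, trm (lam s) (u s) i a) ≤ C1 * A s := by
    refine h5.trans ?_
    have hlog : 0 ≤ Real.log (Fintype.card ι) := Real.log_natCast_nonneg _
    have h7 : Real.log (Fintype.card ι) + Fintype.card ι * (B * A s) ≤ (Real.log (Fintype.card ι) + Fintype.card ι * B) * A s := by
      have h8 : Real.log (Fintype.card ι) ≤ Real.log (Fintype.card ι) * A s := le_mul_of_one_le_right hlog hA1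
      linarith
    have hn : (0 : ℝ) ≤ n + 1 := by positivity
    have h8 : ∑ i, ∑ a, ah (lam s i a) ≤ A s := by
      show _ ≤ 1 + _ + _ + _
      linarith [hG0 s, ho0 s]
    calc (n + 1 : ℝ) * (Real.log (Fintype.card ι) + Fintype.card ι * (B * A s)) + ∑ i, ∑ a, ah (lam s i a)
        ≤ (n + 1) * ((Real.log (Fintype.card ι) + Fintype.card ι * B) * A s) + A s :=
          add_le_add (mul_le_mul_of_nonneg_left h7 hn) h8
      _ = C1 * A s := by rw [hC1]; ring
  have h7 := hC s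
  have h8 : (N' : ℝ) ≤ s := by exact_mod_cast h1
  have h9 : C1 * A s < s * A s := mul_lt_mul_of_pos_right (by linarith) (by linarith)
  have h10 : (s : ℝ) * A s < absLogHeight (fun a => ∑ i, trm (lam s) (u s) i a) := h7
  linarith

end Run7.h128.BD
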