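import Pool.Agent.Run7.h128.BD.DichI
import Pool.Agent.Run7.h128.BD.CurT
import Pool.Agent.Run7.h128.BL.Dist

/-!
The dichotomy for the complement of a hypersurface section `T = 0`, with the product of the values of
`T` at the conjugates of the point.
-/

set_option autoImplicit false
set_option linter.unusedSectionVars false

namespace Run7.h128.BD

open NumberField Height Module MvPolynomial Finset Filter
open Pool.Agent.Helper259.AbsHt
open Run7.h128.AU (Ex mem_Ex eval_homog coefHeight tau Rel key outside plS plS_inf outside_nonneg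
  tau_le_outside tau_mul_le tau_one tau_inv)
open Run7.h128.BL (valDist valDist_nonneg tau_le_valDist)
open Run7.h128.FG (cur)
open Pool.Agent.W180.OP (Pl)

/-- the divisors of a monomial -/
theorem monomial_of_dvd {q : Polynomial Qbar} {v : Qbar} (hv : v ≠ 0) {N : ℕ}
    (h : q ∣ Polynomial.C v * Polynomial.X ^ N) :
    ∃ i, q = Polynomial.C (q.eval 1) * Polynomial.X ^ i := by
  have hu : IsUnit (Polynomial.C v) := Polynomial.isUnit_C.2 (isUnit_iff_ne_zero.2 hv)
  have h1 : q ∣ Polynomial.X ^ N := (hu.dvd_mul_left).1 h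
  obtain ⟨i, _, hi⟩ := (dvd_prime_pow Polynomial.prime_X N).1 h1
  obtain ⟨w, hw⟩ := hi.symm
  obtain ⟨c, hc, hc'⟩ := Polynomial.isUnit_iff.1 w.isUnit
  refine ⟨i, ?_⟩
  have h2 : q = Polynomial.C c * Polynomial.X ^ i := by
    rw [← hw, ← hc', mul_comm]
  have h3 : q.eval 1 = c := by
    rw [h2]
    simp
  rw [h3]
  exact h2

section forms

variable {n d : ℕ}

/-- the variables: the coordinates of the conjugates, the value of the norm, a reference -/
abbrev Kx (n d : ℕ) := (Fin d × Fin (n + 1)) ⊕ Bool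

/-- the forms -/
noncomputable def frm {m : ℕ} (σ₀ : Fin d) (G : Fin m → MvPolynomial (Fin (n + 1)) Qbar)
    (T : MvPolynomial (Fin (n + 1)) Qbar) (Δ : ℕ) (k : Fin (m + 1)) :
    MvPolynomial (Kx n d) Qbar :=
  Fin.lastCases (motive := fun _ => MvPolynomial (Kx n d) Qbar)
    (X (Sum.inr true) * X (Sum.inr false) ^ (Δ - 1) -
      ∏ σ, rename (fun a => Sum.inl (σ, a)) T)
    (fun k => rename (fun a => Sum.inl (σ₀, a)) (G k)) k

theorem frm_last {m : ℕ} (σ₀ : Fin d) (G : Fin m → MvPolynomial (Fin (n + 1)) Qbar)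
    (T : MvPolynomial (Fin (n + 1)) Qbar) (Δ : ℕ) : frm σ₀ G T Δ (Fin.last m) =
      X (Sum.inr true) * X (Sum.inr false) ^ (Δ - 1) -
        ∏ σ, rename (fun a => Sum.inl (σ, a)) T := by
  unfold frm
  rw [Fin.lastCases_last]

theorem frm_cast {m : ℕ} (σ₀ : Fin d) (G : Fin m → MvPolynomial (Fin (n + 1)) Qbar)
    (T : MvPolynomial (Fin (n + 1)) Qbar) (Δ : ℕ) (k : Fin m) : frm σ₀ G T Δ k.castSucc =
      rename (fun a => Sum.inl (σ₀, a)) (G k) := by
  unfold frm
  rw [Fin.lastCases_castSucc]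

theorem frm_homog {m : ℕ} (e : Fin m → ℕ) (σ₀ : Fin d)
    (G : Fin m → MvPolynomial (Fin (n + 1)) Qbar) (hG : ∀ k, (G k).IsHomogeneous (e k))
    (T : MvPolynomial (Fin (n + 1)) Qbar) (δ : ℕ) (hT : T.IsHomogeneous δ)
    (hδ : 1 ≤ d * δ) (k : Fin (m + 1)) :
    (frm σ₀ G T (d * δ) k).IsHomogeneous
      (Fin.lastCases (motive := fun _ => ℕ) (d * δ) e k) := by
  refine Fin.lastCases ?_ (fun k => ?_) k
  · rw [frm_last, Fin.lastCases_last]
    refine IsHomogeneous.sub ?_ ?_
    · have h1 := (isHomogeneous_X Qbar (Sum.inr true : Kx n d)).mul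
        ((isHomogeneous_X Qbar (Sum.inr false : Kx n d)).pow (d * δ - 1))
      have h2 : 1 + 1 * (d * δ - 1) = d * δ := by omega
      rwa [h2] at h1
    · have h1 := IsHomogeneous.prod (Finset.univ : Finset (Fin d))
        (fun σ => rename (fun a => (Sum.inl (σ, a) : Kx n d)) T) (fun _ => δ)
        (fun σ _ => hT.rename_isHomogeneous)
      rw [Finset.sum_const, Finset.card_univ, Fintype.card_fin, smul_eq_mul] at h1
      exact h1
  · rw [frm_cast, Fin.lastCases_castSucc]
    exact (hG k).rename_isHomogeneous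

end forms

/-- the matrix of the coefficients -/
noncomputable def mat {ι : Type} {n d : ℕ} (lam : Fin d → ι → Fin (n + 1) → Qbar) :
    Kx n d → ι ⊕ Bool → Qbar :=
  Sum.elim (fun p => Sum.elim (fun i => lam p.1 i p.2) fun _ => 0)
    (fun b => Sum.elim (fun _ => 0) fun b' => if b = b' then 1 else 0)

theorem mat_sum {ι : Type} [Fintype ι] {n d : ℕ} (lam : Fin d → ι → Fin (n + 1) → Qbar)
    (Y : ι ⊕ Bool → Qbar) : (fun c => ∑ i, mat lam c i * Y i) =
      Sum.elim (fun p => ∑ i, lam p.1 i p.2 * Y (Sum.inl i)) (fun b => Y (Sum.inr b)) := by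
  funext c
  rcases c with p | b
  · rw [Fintype.sum_sum_type]
    simp [mat]
  · rw [Fintype.sum_sum_type]
    simp [mat]

theorem mat_height {ι : Type} [Fintype ι] {n d : ℕ} (lam : Fin d → ι → Fin (n + 1) → Qbar) :
    ∑ p : Kx n d × (ι ⊕ Bool), ah (mat lam p.1 p.2) = ∑ σ, ∑ i, ∑ a, ah (lam σ i a) := by
  rw [Fintype.sum_prod_type, Fintype.sum_sum_type]
  have h1 : ∑ b : Bool, ∑ i : ι ⊕ Bool, ah (mat lam (Sum.inr b) i) = 0 := by
    refine Finset.sum_eq_zero fun b _ => Finset.sum_eq_zero fun i _ => ?_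
    rcases i with i | b'
    · exact ah_zero
    · show ah (if b = b' then 1 else 0) = 0
      split
      · exact ah_one
      · exact ah_zero
  rw [h1, add_zero, Fintype.sum_prod_type]
  refine Finset.sum_congr rfl fun σ _ => ?_
  rw [Finset.sum_comm]
  have h2 : ∀ i : ι ⊕ Bool, ∑ a, ah (mat lam (Sum.inl (σ, a)) i) =
      Sum.elim (fun i => ∑ a, ah (lam σ i a)) (fun _ => 0) i := by
    rintro (i | b)
    · rfl
    · exact Finset.sum_eq_zero fun a _ => ah_zero
  rw [Finset.sum_congr rfl fun i _ => h2 i, Fintype.sum_sum_type]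
  simp

/-- **The dichotomy** for the complement of `T = 0`. -/
theorem dichII {K : Type} [Field K] [NumberField K] [Algebra K Qbar] (S : Finset (FinitePlace K))
    (ι : Type) [Fintype ι] [DecidableEq ι] (n m : ℕ) (e : Fin m → ℕ)
    (G : Fin m → MvPolynomial (Fin (n + 1)) Qbar) (hG : ∀ k, (G k).IsHomogeneous (e k))
    (T : MvPolynomial (Fin (n + 1)) Qbar) (δ : ℕ) (hδ : 1 ≤ δ) (hT : T.IsHomogeneous δ)
    (d : ℕ) (σ₀ : Fin d) :
    ∃ C : ℝ, ∀ (lam : Fin d → ι → Fin (n + 1) → Qbar) (u : ι → K) (v : K), v ≠ 0 →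
      algebraMap K Qbar v = ∏ σ, eval (fun a => ∑ i, trm (lam σ) u i a) T →
      (∀ k, eval (fun a => ∑ i, trm (lam σ₀) u i a) (G k) = 0) →
      absLogHeight (fun a => ∑ i, trm (lam σ₀) u i a) ≤
        C * (1 + ∑ σ, ∑ i, ∑ a, ah (lam σ i a) + outside S u + valDist S (d * δ) u v) ∨
      ∃ l : ι → ℕ, (∀ k, aeval (cur (trm (lam σ₀) u) l) (G k) = 0) ∧
        (∃ j, aeval (cur (trm (lam σ₀) u) l) T =
          Polynomial.C (eval (fun a => ∑ i, trm (lam σ₀) u i a) T) * Polynomial.X ^ j) ∧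
        ∃ a b, cur (trm (lam σ₀) u) l a * Polynomial.C (∑ i, trm (lam σ₀) u i b) ≠
          cur (trm (lam σ₀) u) l b * Polynomial.C (∑ i, trm (lam σ₀) u i a) := by
  classical
  by_contra hcon
  push Not at hcon
  choose lam u v hv hvT h0 hC hD using fun s : ℕ => hcon (s : ℝ)
  set 𝒰 : Ultrafilter ℕ := hyperfilter ℕ with h𝒰
  have hlarge : ∀ N : ℕ, ∀ᶠ s in (𝒰 : Filter ℕ), N ≤ s := fun N =>
    (Nat.hyperfilter_le_atTop (Filter.eventually_ge_atTop N))
  have hd : 1 ≤ d := by
    have := σ₀.isLt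
    omega
  set Δ : ℕ := d * δ with hΔ
  have hΔ1 : 1 ≤ Δ := Nat.one_le_iff_ne_zero.2 (Nat.mul_ne_zero (by omega) (by omega))
  -- the points are not zero
  have hTx : ∀ s, eval (fun a => ∑ i, trm (lam s σ₀) (u s) i a) T ≠ 0 := by
    intro s h
    have h1 := hvT s
    rw [Finset.prod_eq_zero (Finset.mem_univ σ₀) h] at h1
    exact hv s ((map_eq_zero _).1 h1)
  have hT0 : eval (0 : Fin (n + 1) → Qbar) T = 0 := by
    have h1 : eval (0 : Fin (n + 1) → Qbar) T = constantCoeff T := by
      rw [MvPolynomial.eval_zero]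
    rw [h1, constantCoeff_eq]
    refine hT.coeff_eq_zero ?_
    rw [map_zero]
    omega
  have hx : ∀ s, (fun a => ∑ i, trm (lam s σ₀) (u s) i a) ≠ 0 := by
    intro s h
    apply hTx s
    rw [h, hT0]
  set Q : ℕ → ℝ := fun s => 1 + ∑ σ, ∑ i, ∑ a, ah (lam s σ i a) + outside S (u s) +
    valDist S Δ (u s) (v s) with hQ
  have hl0 : ∀ s, 0 ≤ ∑ σ, ∑ i, ∑ a, ah (lam s σ i a) := fun s =>
    Finset.sum_nonneg fun σ _ => Finset.sum_nonneg fun i _ => Finset.sum_nonneg fun a _ =>
      ah_nonneg _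
  have ho0 : ∀ s, 0 ≤ outside S (u s) := fun s => outside_nonneg S _
  have hv0 : ∀ s, 0 ≤ valDist S Δ (u s) (v s) := fun s => valDist_nonneg S Δ _ _
  have hQ1 : ∀ s, 1 ≤ Q s := fun s => by
    have h1 := hl0 s
    have h2 := ho0 s
    have h3 := hv0 s
    show 1 ≤ 1 + _ + _ + _
    linarith
  set M : ℝ := 1 + Δ + ∑ k, cah (frm σ₀ G T Δ k) with hM
  have hch : 0 ≤ ∑ k, cah (frm σ₀ G T Δ k) := Finset.sum_nonneg fun k _ => cah_nonneg _
  have hΔ0 : (0 : ℝ) ≤ Δ := Nat.cast_nonneg Δ
  have hM1 : 1 ≤ M := by linarith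
  set A : ℕ → ℝ := fun s => M * Q s with hAdef
  have hAQ : ∀ s, Q s ≤ A s := fun s => le_mul_of_one_le_left (by linarith [hQ1 s]) hM1
  have hA : ∀ s, 1 ≤ A s := fun s => (hQ1 s).trans (hAQ s)
  -- the reference term
  have href : ∀ s, ∃ i : ι, u s i ≠ 0 := by
    intro s
    by_contra h
    push Not at h
    apply hx s
    funext a
    refine Finset.sum_eq_zero fun i _ => ?_
    unfold trm
    rw [h i, map_zero, mul_zero]
  choose p₀ hp₀ using href
  set w : ℕ → K := fun s => u s (p₀ s) with hw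
  set Y : ι ⊕ Bool → ℕ → K := fun i s => Sum.elim (fun i => u s i)
    (fun b => if b then v s / w s ^ (Δ - 1) else w s) i with hY
  have hYl : ∀ p s, Y (Sum.inl p) s = u s p := fun p s => rfl
  have hYt : ∀ s, Y (Sum.inr true) s = v s / w s ^ (Δ - 1) := fun s => rfl
  have hYf : ∀ s, Y (Sum.inr false) s = w s := fun s => rfl
  have hvw : ∀ s, v s / w s ^ (Δ - 1) * w s ^ (Δ - 1) = v s := fun s =>
    div_mul_cancel₀ _ (pow_ne_zero _ (hp₀ s))
  obtain ⟨I, l, hI, hl1, hl2⟩ := keyQ (K := K) 𝒰 (plS S) (plS_inf S)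
    (fun k => Fin.lastCases (motive := fun _ => ℕ) Δ e k) (fun _ => frm σ₀ G T Δ)
    (fun _ k => frm_homog e σ₀ G hG T δ hT hΔ1 k) (fun s => mat (lam s)) Y A hA
    (fun s k => by
      have h2 := Finset.single_le_sum (f := fun k => cah (frm σ₀ G T Δ k))
        (fun k _ => cah_nonneg _) (Finset.mem_univ k)
      rw [mat_height]
      have h3 : ∑ σ, ∑ i, ∑ a, ah (lam s σ i a) + 1 ≤ Q s := by
        show _ ≤ 1 + _ + _ + _
        linarith [ho0 s, hv0 s]
      have h4 : cah (frm σ₀ G T Δ k) + 1 ≤ M := by linarith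
      have h5 := cah_nonneg (frm σ₀ G T Δ k)
      have h6 : (cah (frm σ₀ G T Δ k) + 1) * (∑ σ, ∑ i, ∑ a, ah (lam s σ i a) + 1) ≤ M * Q s :=
        mul_le_mul h4 h3 (by linarith [hl0 s]) (by linarith)
      have h7 := mul_nonneg h5 (hl0 s)
      have h8 : A s = M * Q s := rfl
      rw [h8]
      linarith)
    (fun s i j hi hj => by
      have hyy : ∀ p p' : ι, u s p ≠ 0 → u s p' ≠ 0 →
          tau (plS S) (u s p / u s p') ≤ outside S (u s) := fun p p' hp hp' =>
        tau_le_outside S (u s) p p' hp hp'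
      have hoQ : outside S (u s) ≤ A s := by
        refine le_trans ?_ (hAQ s)
        show _ ≤ 1 + _ + _ + _
        linarith [hv0 s, hl0 s]
      have hzy : ∀ p : ι, u s p ≠ 0 → tau (plS S) (Y (Sum.inr true) s / u s p) ≤ A s := by
        intro p hp
        have h1 : Y (Sum.inr true) s / u s p = (v s / w s ^ Δ) * (w s / u s p) := by
          rw [hYt]
          have h2 : w s ^ Δ = w s ^ (Δ - 1) * w s := by
            rw [← pow_succ]
            congr 1
            omega
          rw [h2]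
          have h3 : w s ≠ 0 := hp₀ s
          field_simp
        have h2 := tau_le_valDist S Δ (u s) (v s) (hv s) (p₀ s) (hp₀ s)
        have h3 := hyy (p₀ s) p (hp₀ s) hp
        rw [h1]
        refine (tau_mul_le (plS S) (plS_inf S) (div_ne_zero (hv s) (pow_ne_zero _ (hp₀ s)))
          (div_ne_zero (hp₀ s) hp)).trans ?_
        have h4 : (1 + Δ) * Q s ≤ A s := mul_le_mul_of_nonneg_right (by linarith)
          (by linarith [hQ1 s])
        have h5 : Q s = 1 + ∑ σ, ∑ i, ∑ a, ah (lam s σ i a) + outside S (u s) +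
          valDist S Δ (u s) (v s) := rfl
        have h6 := ho0 s
        have h7 := hv0 s
        have h8 : (1 + Δ : ℝ) * Q s = Q s + Δ * Q s := by ring
        have h9 : (Δ : ℝ) * outside S (u s) ≤ Δ * Q s :=
          mul_le_mul_of_nonneg_left (by linarith [hl0 s]) hΔ0
        have h10 : tau (plS S) (v s / w s ^ Δ) ≤ _ := h2
        have h11 : tau (plS S) (w s / u s p) ≤ _ := h3
        linarith [hl0 s]
      have hform : ∀ i : ι ⊕ Bool, i ≠ Sum.inr true → Y i s ≠ 0 → ∃ p : ι, Y i s = u s p := by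
        rintro (p | b) h1 _
        · exact ⟨p, rfl⟩
        · cases b with
          | true => exact absurd rfl h1
          | false => exact ⟨p₀ s, rfl⟩
      by_cases hit : i = Sum.inr true
      · by_cases hjt : j = Sum.inr true
        · rw [hit, hjt, div_self (by rw [hit] at hi; exact hi), tau_one]
          linarith [hA s]
        · obtain ⟨p, hp⟩ := hform j hjt hj
          rw [hit, hp]
          exact hzy p (by rw [← hp]; exact hj)
      · obtain ⟨p, hp⟩ := hform i hit hi
        by_cases hjt : j = Sum.inr true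
        · rw [hjt, hp, ← tau_inv, inv_div]
          exact hzy p (by rw [← hp]; exact hi)
        · obtain ⟨p', hp'⟩ := hform j hjt hj
          rw [hp, hp']
          exact (hyy p p' (by rw [← hp]; exact hi) (by rw [← hp']; exact hj)).trans hoQ)
    (fun s k => by
      rw [mat_sum (lam s) (fun i => algebraMap K Qbar (Y i s))]
      refine Fin.lastCases ?_ (fun k => ?_) k
      · rw [frm_last]
        simp only [map_sub, map_mul, map_pow, eval_X, Sum.elim_inr, map_prod, eval_rename]
        rw [hYt, hYf, ← map_pow, ← map_mul, hvw, hvT, sub_eq_zero]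
        refine Finset.prod_congr rfl fun σ _ => ?_
        rfl
      · rw [frm_cast, eval_rename]
        exact h0 s k)
  obtain ⟨B, hB0, hB⟩ := rel_const 𝒰 A hA I l Y hI hl2
  set C1 : ℝ := (n + 1) * (Real.log (Fintype.card ι) + Fintype.card ι * B) + 1 with hC1
  obtain ⟨N', hN'⟩ := exists_nat_gt (C1 * M)
  obtain ⟨s, h1, h2, h3⟩ := ((hlarge N').and (hl1.and hB)).exists
  have hA1 := hA s
  have hval : ∀ (t : K) (σ : Fin d), (fun a => (cur (trm (lam s σ) (u s))
      (fun i => l (Sum.inl i)) a).eval (algebraMap K Qbar t)) = fun a => ∑ i, lam s σ i a *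
        algebraMap K Qbar (t ^ (l (Sum.inl i)) * Y (Sum.inl i) s) := by
    intro t σ
    funext a
    rw [cur_eval]
    refine Finset.sum_congr rfl fun i _ => ?_
    unfold trm
    rw [hYl, map_mul, map_pow]
    ring
  have hprod : ∏ σ, aeval (cur (trm (lam s σ) (u s)) fun i => l (Sum.inl i)) T =
      Polynomial.C (algebraMap K Qbar (v s)) *
        Polynomial.X ^ (l (Sum.inr true) + l (Sum.inr false) * (Δ - 1)) := by
    refine poly_eq_of_K (K := K) _ _ fun t => ?_
    rw [Polynomial.eval_prod, Polynomial.eval_mul, Polynomial.eval_C, Polynomial.eval_pow,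
      Polynomial.eval_X]
    have h4 := h2 t (Fin.last m)
    rw [mat_sum (lam s) (fun i => algebraMap K Qbar (t ^ (l i) * Y i s)), frm_last] at h4
    simp only [map_sub, map_mul, map_pow, eval_X, Sum.elim_inr, map_prod, eval_rename] at h4
    rw [sub_eq_zero] at h4
    have h5 : ∀ σ, (aeval (cur (trm (lam s σ) (u s)) fun i => l (Sum.inl i)) T :
        Polynomial Qbar).eval (algebraMap K Qbar t) = eval (fun a => ∑ i, lam s σ i a *
          algebraMap K Qbar (t ^ (l (Sum.inl i)) * Y (Sum.inl i) s)) T := by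
      intro σ
      rw [aeval_eval, hval t σ]
    rw [Finset.prod_congr rfl fun σ _ => h5 σ]
    have h6 : ∏ σ, eval (fun a => ∑ i, lam s σ i a *
          algebraMap K Qbar (t ^ (l (Sum.inl i)) * Y (Sum.inl i) s)) T =
        algebraMap K Qbar (t ^ (l (Sum.inr true)) * Y (Sum.inr true) s) *
          algebraMap K Qbar (t ^ (l (Sum.inr false)) * Y (Sum.inr false) s) ^ (Δ - 1) := by
      simp only [map_mul, map_pow]
      rw [h4]
      refine Finset.prod_congr rfl fun σ _ => ?_
      rfl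
    rw [h6, hYt, hYf, ← map_pow, ← map_mul, ← map_pow, ← map_mul]
    congr 1
    have h7 := hvw s
    rw [mul_pow, pow_add, pow_mul]
    linear_combination (t ^ l (Sum.inr true) * (t ^ l (Sum.inr false)) ^ (Δ - 1)) * h7
  have hvs : algebraMap K Qbar (v s) ≠ 0 := (map_ne_zero _).2 (hv s)
  have hdvd := Finset.dvd_prod_of_mem
    (fun σ => (aeval (cur (trm (lam s σ) (u s)) fun i => l (Sum.inl i)) T : Polynomial Qbar))
    (Finset.mem_univ σ₀)
  rw [hprod] at hdvd
  obtain ⟨j, hj⟩ := monomial_of_dvd hvs hdvd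
  have he1 : (aeval (cur (trm (lam s σ₀) (u s)) fun i => l (Sum.inl i)) T :
      Polynomial Qbar).eval 1 = eval (fun a => ∑ i, trm (lam s σ₀) (u s) i a) T := by
    rw [aeval_eval]
    have h4 : (fun a => (cur (trm (lam s σ₀) (u s)) (fun i => l (Sum.inl i)) a).eval 1) =
        fun a => ∑ i, trm (lam s σ₀) (u s) i a := funext fun a =>
      Run7.h128.FG.cur_eval_one _ _ _
    rw [h4]
  rw [he1] at hj
  have hbound := hD s (fun i => l (Sum.inl i)) (fun k => by
    refine poly_eq_of_K (K := K) _ _ fun t => ?_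
    rw [aeval_eval, Polynomial.eval_zero, hval t σ₀]
    have h4 := h2 t k.castSucc
    rw [mat_sum (lam s) (fun i => algebraMap K Qbar (t ^ (l i) * Y i s)), frm_cast,
      eval_rename] at h4
    exact h4) ⟨j, hj⟩
  have h5 := height_of_constQ (fun i => l (Sum.inl i)) (lam s σ₀) (u s) (hx s) hbound (B * A s)
    (mul_nonneg hB0 (by linarith)) (fun i j hi hj hij => h3 (Sum.inl i) (Sum.inl j) hi hj hij)
  have h6 : absLogHeight (fun a => ∑ i, trm (lam s σ₀) (u s) i a) ≤ C1 * A s := by
    refine h5.trans ?_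
    have hlog : 0 ≤ Real.log (Fintype.card ι) := Real.log_natCast_nonneg _
    have h7 : Real.log (Fintype.card ι) + Fintype.card ι * (B * A s) ≤
        (Real.log (Fintype.card ι) + Fintype.card ι * B) * A s := by
      have h8 : Real.log (Fintype.card ι) ≤ Real.log (Fintype.card ι) * A s :=
        le_mul_of_one_le_right hlog hA1
      linarith
    have hn : (0 : ℝ) ≤ n + 1 := by positivity
    have h8 : ∑ i, ∑ a, ah (lam s σ₀ i a) ≤ A s := by
      refine le_trans ?_ (hAQ s)
      have h9 : ∑ i, ∑ a, ah (lam s σ₀ i a) ≤ ∑ σ, ∑ i, ∑ a, ah (lam s σ i a) :=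
        Finset.single_le_sum (f := fun σ => ∑ i, ∑ a, ah (lam s σ i a))
          (fun σ _ => Finset.sum_nonneg fun i _ => Finset.sum_nonneg fun a _ => ah_nonneg _)
          (Finset.mem_univ σ₀)
      show _ ≤ 1 + _ + _ + _
      linarith [ho0 s, hv0 s]
    calc (n + 1 : ℝ) * (Real.log (Fintype.card ι) + Fintype.card ι * (B * A s)) +
          ∑ i, ∑ a, ah (lam s σ₀ i a)
        ≤ (n + 1) * ((Real.log (Fintype.card ι) + Fintype.card ι * B) * A s) + A s :=
          add_le_add (mul_le_mul_of_nonneg_left h7 hn) h8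
      _ = C1 * A s := by rw [hC1]; ring
  have h7 := hC s
  have h8 : (N' : ℝ) ≤ s := by exact_mod_cast h1
  have h9 : C1 * A s < s * Q s := by
    have h10 : C1 * A s = C1 * M * Q s := by
      show C1 * (M * Q s) = _
      ring
    rw [h10]
    exact mul_lt_mul_of_pos_right (by linarith) (by linarith [hQ1 s])
  have h10 : (s : ℝ) * Q s < absLogHeight (fun a => ∑ i, trm (lam s σ₀) (u s) i a) := h7
  linarith

end Run7.h128.BD
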