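import Pool.Agent.Run7.h128.BD.DichI
import Pool.Agent.Run7.h128.FG.Fam

/-!
Algebraic points of families of projective varieties with a generic fibre which is not uniruled.
-/

set_option autoImplicit false
set_option linter.unusedSectionVars false

namespace Run7.h128.BD

open NumberField Height Module MvPolynomial Finset
open Pool.Agent.Helper259.AbsHt
open Run7.h128.AU (outside outside_nonneg)
open Run7.h128.FG (cur fib FibreUniruled exists_hyper fibreUniruled_of cur_eval_one)

variable {k : Type} [Field k] {q n : ℕ}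

/-- heights of the coefficients of `F(t; ·)` -/
theorem cah_fib [Algebra k Qbar] (F : MvPolynomial (Fin (n + 1)) (MvPolynomial (Fin q) k)) :
    ∃ C : ℝ, 0 ≤ C ∧ ∀ t : Fin q → Qbar, cah (fib t F) ≤ C * (1 + ∑ i, ah (t i)) := by
  classical
  choose C hC h using fun β : Fin (n + 1) →₀ ℕ => ah_value (coeff β F)
  refine ⟨∑ β ∈ F.support, C β, Finset.sum_nonneg fun β _ => hC β, fun t => ?_⟩
  unfold cah
  refine (absHeight_le_sum _).trans ?_
  have h1 : ∑ β : (fib t F).support, ah (coeff β.1 (fib t F)) =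
      ∑ β ∈ (fib t F).support, ah (coeff β (fib t F)) :=
    Finset.sum_coe_sort (fib t F).support fun β => ah (coeff β (fib t F))
  rw [h1, Finset.sum_mul]
  have hsub : (fib t F).support ⊆ F.support := by
    intro β hβ
    rw [MvPolynomial.mem_support_iff] at hβ ⊢
    intro h0
    apply hβ
    unfold fib
    rw [coeff_map, h0, map_zero]
  refine (Finset.sum_le_sum_of_subset_of_nonneg hsub fun β _ _ => ah_nonneg _).trans ?_
  refine Finset.sum_le_sum fun β _ => ?_
  have h2 : coeff β (fib t F) = aeval t (coeff β F) := by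
    unfold fib
    rw [coeff_map]
    rfl
  rw [h2]
  exact h β t

/-- **One exceptional set for all fibres, all number fields and all finite sets of places.** -/
theorem coreI {m : ℕ} (e : Fin m → ℕ)
    (F : Fin m → MvPolynomial (Fin (n + 1)) (MvPolynomial (Fin q) k))
    (hF : ∀ i, (F i).IsHomogeneous (e i)) (hprime : (Ideal.span (Set.range F)).IsPrime)
    (hnu : ¬ FibreUniruled (Ideal.span (Set.range F))) (ι : Type) [Fintype ι] [DecidableEq ι] :
    ∃ H : MvPolynomial (Fin (n + 1)) (MvPolynomial (Fin q) k), (∃ d, H.IsHomogeneous d) ∧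
      H ∉ Ideal.span (Set.range F) ∧
      ∀ (K : Type) [Field K] [NumberField K] [Algebra K Qbar] [Algebra k Qbar]
        (S : Finset (FinitePlace K)), ∃ C : ℝ, 0 ≤ C ∧ ∀ (t : Fin q → Qbar)
          (lam : ι → Fin (n + 1) → Qbar) (u : ι → K), (fun a => ∑ i, trm lam u i a) ≠ 0 →
          (∀ i, eval (fun a => ∑ i, trm lam u i a) (fib t (F i)) = 0) →
          eval (fun a => ∑ i, trm lam u i a) (fib t H) ≠ 0 →
          absLogHeight (fun a => ∑ i, trm lam u i a) ≤
            C * (1 + ∑ i, ah (t i) + ∑ i, ∑ a, ah (lam i a) + outside S u) := by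
  classical
  obtain ⟨H, hH1, hH2, hH3⟩ := exists_hyper (Set.range F) hprime
    (fun h => hnu (fibreUniruled_of h)) (∑ i, e i + 1) (by omega) (by
      rintro _ ⟨i, rfl⟩
      refine ⟨e i, ?_, hF i⟩
      have := Finset.single_le_sum (f := e) (fun _ _ => Nat.zero_le _) (Finset.mem_univ i)
      omega) ι
  refine ⟨H, hH1, hH2, ?_⟩
  intro K _ _ _ _ S
  obtain ⟨C, hD⟩ := dichI (K := K) S ι n m e
  choose c hc0 hc using fun i => cah_fib (F i)
  have hcs : 0 ≤ ∑ i, c i := Finset.sum_nonneg fun i _ => hc0 i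
  refine ⟨|C| * (1 + ∑ i, c i), by positivity, fun t lam u hx h0 hHx => ?_⟩
  have hs : 0 ≤ ∑ i, ah (t i) := Finset.sum_nonneg fun i _ => ah_nonneg _
  have hl : 0 ≤ ∑ i, ∑ a, ah (lam i a) :=
    Finset.sum_nonneg fun i _ => Finset.sum_nonneg fun a _ => ah_nonneg _
  have hout := outside_nonneg S u
  rcases hD (fun i => fib t (F i)) (fun i => (hF i).map _) lam u hx h0 with h1 | ⟨l, h2, a, b, h3⟩
  · refine h1.trans ?_
    have h4 : ∑ i, cah (fib t (F i)) ≤ (∑ i, c i) * (1 + ∑ i, ah (t i)) := by
      rw [Finset.sum_mul]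
      exact Finset.sum_le_sum fun i _ => hc i t
    have h5 : (0 : ℝ) ≤ ∑ i, cah (fib t (F i)) := Finset.sum_nonneg fun i _ => cah_nonneg _
    calc C * (1 + ∑ i, cah (fib t (F i)) + ∑ i, ∑ a, ah (lam i a) + outside S u)
        ≤ |C| * (1 + ∑ i, cah (fib t (F i)) + ∑ i, ∑ a, ah (lam i a) + outside S u) :=
          mul_le_mul_of_nonneg_right (le_abs_self C) (by linarith)
      _ ≤ |C| * ((1 + ∑ i, c i) *
          (1 + ∑ i, ah (t i) + ∑ i, ∑ a, ah (lam i a) + outside S u)) := by
          refine mul_le_mul_of_nonneg_left ?_ (abs_nonneg C)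
          nlinarith [mul_nonneg hcs hout, mul_nonneg hcs hl]
      _ = _ := by ring
  · exfalso
    apply hHx
    let _ : Algebra (MvPolynomial (Fin q) k) Qbar :=
      (aeval t : MvPolynomial (Fin q) k →ₐ[k] Qbar).toRingHom.toAlgebra
    have key := hH3 Qbar (trm lam u) l ?_ ⟨a, b, h3⟩
    · unfold fib
      rw [eval_map]
      exact key
    · rintro _ ⟨i, rfl⟩
      have h7 := h2 i
      unfold fib at h7
      have h8 : (aeval t : MvPolynomial (Fin q) k →ₐ[k] Qbar).toRingHom =
          algebraMap (MvPolynomial (Fin q) k) Qbar := rfl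
      rw [h8, aeval_map_algebraMap] at h7
      exact h7

end Run7.h128.BD
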