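import Mathlib

/-!
A primitive element of a number field whose height is bounded in terms of the discriminant.
-/

set_option autoImplicit false
set_option linter.unusedSectionVars false

namespace Run7.h128.BD

open NumberField Height Module NumberField.mixedEmbedding NumberField.InfinitePlace
open scoped NNReal ENNReal IntermediateField

variable (L : Type) [Field L] [NumberField L]

theorem minkowski_lt : minkowskiBound L ↑1 <
    ((NNReal.sqrt ‖discr L‖₊ * (2 : ℝ≥0) ^ finrank ℚ L + 1 : ℝ≥0) : ℝ≥0∞) := by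
  have h0 : (NNReal.sqrt ‖discr L‖₊ * (2 : ℝ≥0) ^ finrank ℚ L : ℝ≥0) <
      NNReal.sqrt ‖discr L‖₊ * (2 : ℝ≥0) ^ finrank ℚ L + 1 := by
    simp
  refine lt_of_le_of_lt ?_ (ENNReal.coe_lt_coe.mpr h0)
  rw [minkowskiBound, volume_fundamentalDomain_fractionalIdealLatticeBasis,
    Units.val_one, FractionalIdeal.absNorm_one, Rat.cast_one,
    ENNReal.ofReal_one, one_mul, mixedEmbedding.finrank, volume_fundamentalDomain_latticeBasis,
    ENNReal.coe_mul, ENNReal.coe_pow, ENNReal.coe_ofNat,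
    show (NNReal.sqrt ‖discr L‖₊ : ℝ≥0∞) = (1 : ℝ≥0∞) * NNReal.sqrt ‖discr L‖₊ by rw [one_mul]]
  gcongr
  · exact pow_le_one₀ (by positivity) (by simp)
  · rw [one_mul]

theorem one_le_disc : (1 : ℝ) ≤ |(discr L : ℝ)| := by
  have h1 : (1 : ℤ) ≤ |discr L| := Int.one_le_abs (discr_ne_zero L)
  exact_mod_cast h1

/-- a primitive element which is integral with small conjugates -/
theorem exists_small : ∃ θ : 𝓞 L, ℚ⟮(θ : L)⟯ = ⊤ ∧ ∀ w : InfinitePlace L,
    w (θ : L) ≤ 2 ^ (finrank ℚ L + 2) * |(discr L : ℝ)| := by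
  classical
  set B : ℝ≥0 := NNReal.sqrt ‖discr L‖₊ * (2 : ℝ≥0) ^ finrank ℚ L + 1 with hB
  have hd := one_le_disc L
  have hs : ((NNReal.sqrt ‖discr L‖₊ : ℝ≥0) : ℝ) ≤ |(discr L : ℝ)| := by
    rw [Real.coe_sqrt, coe_nnnorm, Int.norm_eq_abs]
    rw [Real.sqrt_le_left (by linarith)]
    nlinarith
  have hp : (1 : ℝ) ≤ 2 ^ finrank ℚ L := one_le_pow₀ one_le_two
  have hB1 : (B : ℝ) + 1 ≤ 2 ^ (finrank ℚ L + 2) * |(discr L : ℝ)| := by
    rw [hB, NNReal.coe_add, NNReal.coe_mul, NNReal.coe_pow, NNReal.coe_one, NNReal.coe_ofNat]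
    have h1 : ((NNReal.sqrt ‖discr L‖₊ : ℝ≥0) : ℝ) * 2 ^ finrank ℚ L ≤
        |(discr L : ℝ)| * 2 ^ finrank ℚ L := mul_le_mul_of_nonneg_right hs (by positivity)
    have h2 : (1 : ℝ) ≤ |(discr L : ℝ)| * 2 ^ finrank ℚ L := one_le_mul_of_one_le_of_one_le hd hp
    have h3 : (2 : ℝ) ^ (finrank ℚ L + 2) * |(discr L : ℝ)| =
        4 * (|(discr L : ℝ)| * 2 ^ finrank ℚ L) := by
      rw [pow_add]
      ring
    rw [h3]
    linarith
  have hBB : minkowskiBound L ↑1 < (B : ℝ≥0∞) := minkowski_lt L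
  obtain ⟨w₀⟩ := (inferInstance : Nonempty (InfinitePlace L))
  by_cases hw : IsReal w₀
  · have h1 : minkowskiBound L ↑1 < convexBodyLTFactor L * B := by
      refine hBB.trans_le ?_
      calc (B : ℝ≥0∞) = 1 * B := by rw [one_mul]
        _ ≤ convexBodyLTFactor L * B := by
          gcongr
          exact mod_cast one_le_convexBodyLTFactor L
    obtain ⟨a, ha1, ha2⟩ := exists_primitive_element_lt_of_isReal L hw h1
    refine ⟨a, ha1, fun w => (ha2 w).le.trans (le_trans ?_ hB1)⟩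
    rw [NNReal.coe_max, NNReal.coe_one]
    exact max_le (by linarith) (by linarith [B.coe_nonneg])
  · rw [not_isReal_iff_isComplex] at hw
    have h1 : minkowskiBound L ↑1 < convexBodyLT'Factor L * B := by
      refine hBB.trans_le ?_
      calc (B : ℝ≥0∞) = 1 * B := by rw [one_mul]
        _ ≤ convexBodyLT'Factor L * B := by
          gcongr
          exact mod_cast one_le_convexBodyLT'Factor L
    obtain ⟨a, ha1, ha2⟩ := exists_primitive_element_lt_of_isComplex L hw h1
    refine ⟨a, ha1, fun w => (ha2 w).le.trans (le_trans ?_ hB1)⟩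
    rw [Real.sqrt_le_left (by positivity)]
    nlinarith [B.coe_nonneg]

/-- the height of such an element -/
theorem height_int (θ : 𝓞 L) (B : ℝ) (hB : 1 ≤ B) (h : ∀ w : InfinitePlace L, w (θ : L) ≤ B) :
    logHeight₁ (θ : L) ≤ finrank ℚ L * Real.log B := by
  rw [NumberField.logHeight₁_eq]
  have hfin : ∀ v : FinitePlace L, v (θ : L) ≤ 1 := by
    intro v
    exact FinitePlace.norm_embedding_eq v (θ : L) ▸ FinitePlace.norm_le_one L v.maximalIdeal θ
  have h1 : ∑ᶠ v : FinitePlace L, Real.posLog (v (θ : L)) = 0 := by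
    rw [← finsum_zero (α := FinitePlace L) (M := ℝ)]
    refine finsum_congr fun v => ?_
    rw [Real.posLog_eq_zero_iff, abs_of_nonneg (apply_nonneg v _)]
    exact hfin v
  rw [h1, add_zero]
  have h2 : ∀ w : InfinitePlace L, (w.mult : ℝ) * Real.posLog (w (θ : L)) ≤
      w.mult * Real.log B := by
    intro w
    refine mul_le_mul_of_nonneg_left ?_ (Nat.cast_nonneg _)
    rw [← Real.posLog_eq_log (by rwa [abs_of_nonneg (by linarith)])]
    exact Real.posLog_le_posLog (apply_nonneg w _) (h w)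
  refine (Finset.sum_le_sum fun w _ => h2 w).trans (le_of_eq ?_)
  rw [← Finset.sum_mul, ← Nat.cast_sum, InfinitePlace.sum_mult_eq]

/-- **A small generator.** -/
theorem exists_gen : ∃ θ : L, IsIntegral ℤ θ ∧ ℚ⟮θ⟯ = ⊤ ∧
    logHeight₁ θ ≤ finrank ℚ L * ((finrank ℚ L + 2) * Real.log 2 + Real.log |(discr L : ℝ)|) := by
  obtain ⟨θ, h1, h2⟩ := exists_small L
  have hd := one_le_disc L
  refine ⟨θ, θ.isIntegral_coe, h1, (height_int L θ _ ?_ h2).trans (le_of_eq ?_)⟩
  · exact one_le_mul_of_one_le_of_one_le (one_le_pow₀ one_le_two) hd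
  · rw [Real.log_mul (by positivity) (by linarith [hd]), Real.log_pow]
    push_cast
    ring

end Run7.h128.BD
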