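import Pool.Agent.Run7.h128.BD.FamQ
import Pool.Agent.Run7.h128.BD.Gen

/-!
The passage from the algebraic closure to number fields; the discriminant.
-/

set_option autoImplicit false
set_option linter.unusedSectionVars false

namespace Run7.h128.BD

open NumberField Height Module MvPolynomial Finset
open Pool.Agent.Helper259.AbsHt
open scoped IntermediateField
open Run7.h128.AU (outside outside_nonneg)
open Run7.h128.FG (fib FibreUniruled)

/-- The height, relative to `k`, of the point with homogeneous coordinates `x` in `L`. -/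
noncomputable def ht (k : Type) {L : Type} [Field k] [Field L] [NumberField L] [Algebra k L]
    {ι : Type} (x : ι → L) : ℝ := Height.logHeight x / finrank k L

/-- The height of `a ∈ L` relative to `k`. -/
noncomputable def ht₁ (k : Type) {L : Type} [Field k] [Field L] [NumberField L] [Algebra k L]
    (a : L) : ℝ := Height.logHeight₁ a / finrank k L

/-- The logarithmic discriminant `d_k(L) = log |disc L| / [L : k] - log |disc k|`. -/
noncomputable def logDisc (k L : Type) [Field k] [NumberField k] [Field L] [NumberField L]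
    [Algebra k L] : ℝ := Real.log |(discr L : ℝ)| / finrank k L - Real.log |(discr k : ℝ)|

section basic

variable (k L : Type) [Field k] [NumberField k] [Field L] [NumberField L] [Algebra k L]

theorem finrank_pos'' : (0 : ℝ) < finrank k L := by
  have := Module.finrank_pos (R := k) (M := L)
  exact_mod_cast this

theorem finrank_mul : (finrank ℚ k : ℝ) * finrank k L = finrank ℚ L := by
  have := Module.finrank_mul_finrank ℚ k L
  exact_mod_cast this

theorem logDisc_nonneg : 0 ≤ logDisc k L := by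
  have h1 := natAbs_discr_eq_absNorm_differentIdeal_mul_natAbs_discr_pow k (𝓞 k) L (𝓞 L)
  have hL : (discr L).natAbs ≠ 0 := Int.natAbs_ne_zero.2 (discr_ne_zero L)
  have hN : 1 ≤ Ideal.absNorm (differentIdeal (𝓞 k) (𝓞 L)) := by
    rw [Nat.one_le_iff_ne_zero]
    intro h0
    rw [h0, zero_mul] at h1
    exact hL h1
  have h2 : (discr k).natAbs ^ finrank k L ≤ (discr L).natAbs := by
    rw [h1]
    exact Nat.le_mul_of_pos_left _ hN
  have h3 : |(discr k : ℝ)| ^ finrank k L ≤ |(discr L : ℝ)| := by
    have h4 : (((discr k).natAbs ^ finrank k L : ℕ) : ℝ) ≤ ((discr L).natAbs : ℝ) := by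
      exact_mod_cast h2
    rw [Nat.cast_pow, Nat.cast_natAbs, Nat.cast_natAbs, Int.cast_abs, Int.cast_abs] at h4
    exact h4
  have hk : 0 < |(discr k : ℝ)| := by
    have := one_le_disc k
    linarith
  have h4 := Real.log_le_log (pow_pos hk _) h3
  rw [Real.log_pow] at h4
  unfold logDisc
  rw [sub_nonneg, le_div_iff₀ (finrank_pos'' k L)]
  linarith

theorem log_disc_eq : Real.log |(discr L : ℝ)| =
    finrank k L * (logDisc k L + Real.log |(discr k : ℝ)|) := by
  unfold logDisc
  have := (finrank_pos'' k L).ne'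
  field_simp
  ring

variable {L}

theorem ht_eq {ι : Type} [Finite ι] (φ : L →+* Qbar) (x : ι → L) :
    ht k x = finrank ℚ k * absLogHeight (fun i => φ (x i)) := by
  unfold ht
  rw [absLogHeight_eq L φ, ← finrank_mul k L]
  have h1 := (finrank_pos'' k L).ne'
  have h2 := (fr_pos k).ne'
  field_simp

theorem ht₁_eq (φ : L →+* Qbar) (a : L) : ht₁ k a = finrank ℚ k * ah (φ a) := by
  unfold ht₁
  rw [ah_map L φ, ← finrank_mul k L]
  have h1 := (finrank_pos'' k L).ne'
  have h2 := (fr_pos k).ne'
  field_simp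

theorem ht₁_nonneg (a : L) : 0 ≤ ht₁ k a :=
  div_nonneg (zero_le_logHeight₁ _) (finrank_pos'' k L).le

end basic

/-- a small generator, relative to `k` -/
theorem exists_genK (k : Type) [Field k] [NumberField k] (d : ℕ) : ∃ C : ℝ, 0 ≤ C ∧
    ∀ (L : Type) [Field L] [NumberField L] [Algebra k L], finrank k L ≤ d →
      ∃ θ : L, IsIntegral ℤ θ ∧ ℚ⟮θ⟯ = ⊤ ∧ ht₁ k θ ≤ C * (1 + logDisc k L) := by
  set D : ℝ := finrank ℚ k * d with hD
  have hk := one_le_disc k
  have hlk : 0 ≤ Real.log |(discr k : ℝ)| := Real.log_nonneg hk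
  have hl2 : 0 ≤ Real.log 2 := Real.log_nonneg one_le_two
  have hD0 : 0 ≤ D := by positivity
  refine ⟨finrank ℚ k * ((D + 2) * Real.log 2 + d * (1 + Real.log |(discr k : ℝ)|)),
    by positivity, fun L _ _ _ hL => ?_⟩
  obtain ⟨θ, h1, h2, h3⟩ := exists_gen L
  refine ⟨θ, h1, h2, ?_⟩
  have hd : (finrank k L : ℝ) ≤ d := by exact_mod_cast hL
  have hp := finrank_pos'' k L
  have hDL : (finrank ℚ L : ℝ) ≤ D := by
    rw [← finrank_mul k L]
    exact mul_le_mul_of_nonneg_left hd (Nat.cast_nonneg _)
  have hld := logDisc_nonneg k L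
  have hldL : 0 ≤ Real.log |(discr L : ℝ)| := Real.log_nonneg (one_le_disc L)
  unfold ht₁
  rw [div_le_iff₀ hp]
  refine h3.trans ?_
  rw [← finrank_mul k L]
  have h4 : ((finrank ℚ k : ℝ) * finrank k L + 2) * Real.log 2 + Real.log |(discr L : ℝ)| ≤
      ((D + 2) * Real.log 2 + d * (1 + Real.log |(discr k : ℝ)|)) * (1 + logDisc k L) := by
    have h5 : ((finrank ℚ k : ℝ) * finrank k L + 2) * Real.log 2 ≤ (D + 2) * Real.log 2 := by
      refine mul_le_mul_of_nonneg_right ?_ hl2
      rw [finrank_mul k L]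
      linarith
    have h6 : Real.log |(discr L : ℝ)| ≤ d * (logDisc k L + Real.log |(discr k : ℝ)|) := by
      rw [log_disc_eq k L]
      exact mul_le_mul_of_nonneg_right hd (by linarith)
    have h7 : 0 ≤ (D + 2) * Real.log 2 := by positivity
    have h8 : 0 ≤ (d : ℝ) * Real.log |(discr k : ℝ)| := by positivity
    have h9 : (0 : ℝ) ≤ d := Nat.cast_nonneg d
    nlinarith [mul_nonneg h7 hld, mul_nonneg h8 hld, mul_nonneg h9 hld]
  calc (finrank ℚ k : ℝ) * finrank k L * ((((finrank ℚ k : ℝ) * finrank k L + 2) * Real.log 2 +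
      Real.log |(discr L : ℝ)|)) = finrank ℚ k * ((((finrank ℚ k : ℝ) * finrank k L + 2) *
        Real.log 2 + Real.log |(discr L : ℝ)|)) * finrank k L := by ring
    _ ≤ finrank ℚ k * (((D + 2) * Real.log 2 + d * (1 + Real.log |(discr k : ℝ)|)) *
        (1 + logDisc k L)) * finrank k L := by
        refine mul_le_mul_of_nonneg_right ?_ hp.le
        exact mul_le_mul_of_nonneg_left h4 (Nat.cast_nonneg _)
    _ = _ := by ring

/-- **Arbitrary algebraic coefficients**, for number fields. -/
theorem finI {k : Type} [Field k] [NumberField k] {q n m : ℕ} (e : Fin m → ℕ)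
    (F : Fin m → MvPolynomial (Fin (n + 1)) (MvPolynomial (Fin q) k))
    (hF : ∀ i, (F i).IsHomogeneous (e i)) (hprime : (Ideal.span (Set.range F)).IsPrime)
    (hnu : ¬ FibreUniruled (Ideal.span (Set.range F))) (s : ℕ) :
    ∃ H : MvPolynomial (Fin (n + 1)) (MvPolynomial (Fin q) k), (∃ d, H.IsHomogeneous d) ∧
      H ∉ Ideal.span (Set.range F) ∧
      ∀ (K : Type) [Field K] [NumberField K] [Algebra k K] (S : Finset (FinitePlace K)),
        ∃ C : ℝ, 0 ≤ C ∧ ∀ (L : Type) [Field L] [NumberField L] [Algebra k L] [Algebra K L]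
          [IsScalarTower k K L] (t : Fin q → L) (lam : Fin s → Fin (n + 1) → L)
          (u : Fin s → Fin (n + 1) → K) (x : Fin (n + 1) → L),
          (∀ a, x a = ∑ j, lam j a * algebraMap K L (u j a)) → x ≠ 0 →
          (∀ i, eval x (fib t (F i)) = 0) → eval x (fib t H) ≠ 0 →
          ht k x ≤ C * (1 + ∑ i, ht₁ k (t i) + ∑ j, ∑ a, ht₁ k (lam j a) +
            outside S fun p : Fin s × Fin (n + 1) => u p.1 p.2) := by
  classical
  obtain ⟨H, hH1, hH2, hH3⟩ := coreI e F hF hprime hnu (Fin s × Fin (n + 1))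
  refine ⟨H, hH1, hH2, ?_⟩
  intro K _ _ _ S
  have : Algebra.IsAlgebraic ℚ Qbar := AlgebraicClosure.isAlgebraic ℚ
  let ψ : K →ₐ[ℚ] Qbar := IsAlgClosed.lift
  let _ : Algebra K Qbar := ψ.toRingHom.toAlgebra
  let _ : Algebra k Qbar := (ψ.toRingHom.comp (algebraMap k K)).toAlgebra
  obtain ⟨C, hC0, hC⟩ := hH3 K S
  have hk := fr_pos k
  have hk1 : (1 : ℝ) ≤ finrank ℚ k := by
    exact_mod_cast Nat.succ_le_of_lt (Module.finrank_pos (R := ℚ) (M := k))
  refine ⟨finrank ℚ k * C, by positivity, ?_⟩
  intro L _ _ _ _ _ t lam u x hxu hx h0 hHx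
  let φ : L →ₐ[K] Qbar := IsAlgClosed.lift
  have hφk : ∀ a : k, φ (algebraMap k L a) = algebraMap k Qbar a := by
    intro a
    rw [IsScalarTower.algebraMap_apply k K L, φ.commutes]
    rfl
  set lam' : Fin s × Fin (n + 1) → Fin (n + 1) → Qbar :=
    fun p a => if a = p.2 then φ (lam p.1 p.2) else 0 with hlam'
  set u' : Fin s × Fin (n + 1) → K := fun p => u p.1 p.2 with hu'
  have hxe : (fun a => ∑ i, trm lam' u' i a) = fun a => φ (x a) := by
    funext a
    rw [hxu a, map_sum, Fintype.sum_prod_type]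
    refine Finset.sum_congr rfl fun j _ => ?_
    rw [Finset.sum_eq_single a]
    · unfold trm
      rw [hlam', hu', map_mul, φ.commutes]
      simp only [if_true]
    · intro b _ hb
      unfold trm
      rw [hlam']
      simp only [if_neg (Ne.symm hb), zero_mul]
    · intro h
      exact absurd (Finset.mem_univ a) h
  have hfib : ∀ G : MvPolynomial (Fin (n + 1)) (MvPolynomial (Fin q) k),
      fib (fun i => φ (t i)) G = MvPolynomial.map φ.toRingHom (fib t G) := by
    intro G
    unfold fib
    rw [MvPolynomial.map_map]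
    have h1 : (aeval (fun i => φ (t i)) : MvPolynomial (Fin q) k →ₐ[k] Qbar).toRingHom =
        φ.toRingHom.comp (aeval t : MvPolynomial (Fin q) k →ₐ[k] L).toRingHom := by
      apply MvPolynomial.ringHom_ext
      · intro a
        show aeval (fun i => φ (t i)) (MvPolynomial.C a) = φ (aeval t (MvPolynomial.C a))
        rw [aeval_C, aeval_C, hφk]
      · intro i
        show aeval (fun i => φ (t i)) (X i) = φ (aeval t (X i))
        rw [aeval_X, aeval_X]
    rw [h1]
  have hev : ∀ G : MvPolynomial (Fin (n + 1)) L,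
      eval (fun a => φ (x a)) (MvPolynomial.map φ.toRingHom G) = φ (eval x G) := by
    intro G
    rw [eval_map]
    have h1 := MvPolynomial.hom_eval₂ G (RingHom.id L) φ.toRingHom x
    rw [RingHom.comp_id] at h1
    have h2 : eval₂ (RingHom.id L) x G = eval x G := rfl
    rw [h2] at h1
    exact h1.symm
  have key := hC (fun i => φ (t i)) lam' u' (by
      rw [hxe]
      intro h
      apply hx
      funext a
      have h1 := congrFun h a
      simp only [Pi.zero_apply] at h1
      exact (map_eq_zero φ).1 h1) (fun i => by rw [hxe, hfib, hev, h0 i, map_zero]) (by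
      rw [hxe, hfib, hev]
      exact (map_ne_zero φ).2 hHx)
  rw [hxe] at key
  have e1 : ht k x = finrank ℚ k * absLogHeight (fun a => φ (x a)) := ht_eq k φ.toRingHom x
  have e2 : ∀ a : L, ht₁ k a = finrank ℚ k * ah (φ a) := fun a => ht₁_eq k φ.toRingHom a
  have e3 : ∑ p, ∑ a, ah (lam' p a) = ∑ j, ∑ a, ah (φ (lam j a)) := by
    rw [Fintype.sum_prod_type]
    refine Finset.sum_congr rfl fun j _ => Finset.sum_congr rfl fun b _ => ?_
    rw [Finset.sum_eq_single b]
    · rw [hlam']
      simp only [if_true]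
    · intro a _ ha
      rw [hlam']
      simp only [if_neg ha, ah_zero]
    · intro h
      exact absurd (Finset.mem_univ b) h
  rw [e3] at key
  rw [e1]
  have h1 : ∑ i, ah (φ (t i)) ≤ ∑ i, ht₁ k (t i) := Finset.sum_le_sum fun i _ => by
    rw [e2]
    exact le_mul_of_one_le_left (ah_nonneg _) hk1
  have h2 : ∑ j, ∑ a, ah (φ (lam j a)) ≤ ∑ j, ∑ a, ht₁ k (lam j a) :=
    Finset.sum_le_sum fun j _ => Finset.sum_le_sum fun a _ => by
      rw [e2]
      exact le_mul_of_one_le_left (ah_nonneg _) hk1
  rw [mul_assoc]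
  refine mul_le_mul_of_nonneg_left (key.trans ?_) hk.le
  exact mul_le_mul_of_nonneg_left (by
    have h3 : outside S u' = outside S fun p : Fin s × Fin (n + 1) => u p.1 p.2 := rfl
    rw [h3]
    linarith) hC0

end Run7.h128.BD
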