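import Pool.Agent.Run7.h128.BL.Dist

/-!
Finite places of a number field `L` above the places of a subfield `K`, norms, heights as sums of
local terms. The lemmas up to `log_norm` are copied from the starting file
`Pool/Agent/NH29/GH/Nrm.lean`, whose imports are not needed here.
-/

set_option autoImplicit false
set_option linter.unusedSectionVars false

namespace Run7.h128.BD

open NumberField IsDedekindDomain Module Height

section nrm

variable {κ E : Type} [Field κ] [NumberField κ] [Field E] [NumberField E] [Algebra κ E]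

/-- the part of an ideal at a prime -/
noncomputable def G {K : Type} [Field K] [NumberField K] (v : HeightOneSpectrum (𝓞 K))
    (J : Ideal (𝓞 K)) : ℝ :=
  (multiplicity v.asIdeal J : ℝ) * Real.log (Ideal.absNorm v.asIdeal)

theorem G_mul {K : Type} [Field K] [NumberField K] (v : HeightOneSpectrum (𝓞 K))
    {I J : Ideal (𝓞 K)} (hI : I ≠ ⊥) (hJ : J ≠ ⊥) : G v (I * J) = G v I + G v J := by
  have h : FiniteMultiplicity v.asIdeal (I * J) :=
    FiniteMultiplicity.of_prime_left v.prime (mul_ne_zero hI hJ)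
  unfold G
  rw [multiplicity_mul v.prime h]
  push_cast
  ring

theorem G_one {K : Type} [Field K] [NumberField K] (v : HeightOneSpectrum (𝓞 K)) :
    G v (1 : Ideal (𝓞 K)) = 0 := by
  unfold G
  rw [multiplicity_eq_zero.2 fun h => v.prime.not_isUnit (isUnit_of_dvd_one h)]
  simp

theorem G_pow {K : Type} [Field K] [NumberField K] (v : HeightOneSpectrum (𝓞 K))
    {I : Ideal (𝓞 K)} (hI : I ≠ ⊥) (n : ℕ) : G v (I ^ n) = n * G v I := by
  induction n with
  | zero =>
    rw [pow_zero, G_one]
    simp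
  | succ n ih =>
    rw [pow_succ, G_mul v (pow_ne_zero n hI) hI, ih]
    push_cast
    ring

theorem G_prod {K : Type} [Field K] [NumberField K] (v : HeightOneSpectrum (𝓞 K)) {ι : Type}
    (s : Finset ι) (f : ι → Ideal (𝓞 K)) (hf : ∀ i ∈ s, f i ≠ ⊥) :
    G v (∏ i ∈ s, f i) = ∑ i ∈ s, G v (f i) := by
  classical
  induction s using Finset.induction_on with
  | empty => simpa using G_one v
  | insert a s ha ih =>
    rw [Finset.prod_insert ha, Finset.sum_insert ha,
      G_mul v (hf a (Finset.mem_insert_self _ _)), ih]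
    · exact fun i hi => hf i (Finset.mem_insert_of_mem hi)
    · exact Finset.prod_ne_zero_iff.2 fun i hi => hf i (Finset.mem_insert_of_mem hi)

/-- the place below -/
noncomputable def below (κ : Type) {E : Type} [Field κ] [NumberField κ] [Field E] [NumberField E]
    [Algebra κ E] (w : FinitePlace E) : FinitePlace κ :=
  FinitePlace.mk ⟨w.maximalIdeal.asIdeal.comap (algebraMap (𝓞 κ) (𝓞 E)),
    Ideal.IsPrime.comap _, fun h => w.maximalIdeal.ne_bot (Ideal.eq_bot_of_comap_eq_bot h)⟩

theorem below_ideal (w : FinitePlace E) : (below κ w).maximalIdeal.asIdeal =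
    w.maximalIdeal.asIdeal.comap (algebraMap (𝓞 κ) (𝓞 E)) := by
  unfold below
  rw [FinitePlace.maximalIdeal_mk]

theorem G_self {K : Type} [Field K] [NumberField K] (v : HeightOneSpectrum (𝓞 K)) :
    G v v.asIdeal = Real.log (Ideal.absNorm v.asIdeal) := by
  unfold G
  rw [multiplicity_self]
  simp

theorem G_ne {K : Type} [Field K] [NumberField K] (v v' : HeightOneSpectrum (𝓞 K)) (h : v ≠ v') :
    G v v'.asIdeal = 0 := by
  unfold G
  have : ¬ v.asIdeal ∣ v'.asIdeal := fun h1 => by
    have h6 := (v.prime.dvd_prime_iff_associated v'.prime).1 h1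
    rw [associated_iff_eq] at h6
    exact h (HeightOneSpectrum.ext h6)
  rw [multiplicity_eq_zero.2 this]
  simp

theorem relNorm_ne {I : Ideal (𝓞 E)} (hI : I ≠ ⊥) : Ideal.relNorm (𝓞 κ) I ≠ ⊥ := fun h =>
  hI (Ideal.relNorm_eq_bot_iff.1 h)

open scoped Classical in
theorem G_relNorm_prime (v : FinitePlace κ) (w : FinitePlace E) :
    G v.maximalIdeal (Ideal.relNorm (𝓞 κ) w.maximalIdeal.asIdeal) =
      if below κ w = v then Real.log (Ideal.absNorm w.maximalIdeal.asIdeal) else 0 := by
  have hlo : w.maximalIdeal.asIdeal.LiesOver (below κ w).maximalIdeal.asIdeal :=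
    ⟨below_ideal w⟩
  obtain ⟨s, hs⟩ := Ideal.exists_relNorm_eq_pow_of_isPrime w.maximalIdeal.asIdeal
    (below κ w).maximalIdeal.asIdeal
  have hpf : PerfectField (FractionRing (𝓞 κ)) := by
    have : CharZero (FractionRing (𝓞 κ)) :=
      charZero_of_injective_algebraMap (IsFractionRing.injective (𝓞 κ) (FractionRing (𝓞 κ)))
    exact PerfectField.ofCharZero
  have hn := Ideal.absNorm_relNorm (𝓞 κ) (𝓞 E) w.maximalIdeal.asIdeal
  rw [hs, map_pow] at hn
  rw [hs, G_pow _ (below κ w).maximalIdeal.ne_bot]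
  split_ifs with h
  · rw [← h, G_self, ← hn]
    push_cast
    rw [Real.log_pow]
  · rw [G_ne, mul_zero]
    intro h'
    exact h ((FinitePlace.maximalIdeal_inj _ _).1 h'.symm)

theorem log_apply {K : Type} [Field K] [NumberField K] (v : FinitePlace K) {x : 𝓞 K}
    (hx : x ≠ 0) : Real.log (v (x : K)) = - G v.maximalIdeal (Ideal.span {x}) := by
  have h := FinitePlace.apply_mul_absNorm_pow_eq_one v hx
  have h1 : v (x : K) ≠ 0 := fun h0 => by
    rw [h0, zero_mul] at h
    exact zero_ne_one h
  have h2 : (v.maximalIdeal.asIdeal.absNorm : ℝ) ≠ 0 := by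
    exact_mod_cast Ideal.absNorm_eq_zero_iff.not.mpr v.maximalIdeal.ne_bot
  have h3 := congrArg Real.log h
  rw [Real.log_mul h1 (pow_ne_zero _ h2), Real.log_pow, Real.log_one] at h3
  unfold G
  linarith

open scoped Classical in
theorem G_relNorm (v : FinitePlace κ) {I : Ideal (𝓞 E)} (hI : I ≠ ⊥) (S : Finset (FinitePlace E))
    (hS : ∀ w ∉ S, G w.maximalIdeal I = 0) :
    G v.maximalIdeal (Ideal.relNorm (𝓞 κ) I) =
      ∑ w ∈ S, if below κ w = v then G w.maximalIdeal I else 0 := by
  have hprod := FinitePlace.finprod_finitePlace_pow_multiplicity hI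
  have hsub : (Function.mulSupport fun w : FinitePlace E =>
      w.maximalIdeal.asIdeal ^ multiplicity w.maximalIdeal.asIdeal I) ⊆ ↑S := by
    intro w hw
    by_contra hn
    apply hw
    have h1 := hS w hn
    unfold G at h1
    have h2 : Real.log (Ideal.absNorm w.maximalIdeal.asIdeal) ≠ 0 := by
      have := HeightOneSpectrum.one_lt_absNorm w.maximalIdeal
      have h3 : (1 : ℝ) < Ideal.absNorm w.maximalIdeal.asIdeal := by exact_mod_cast this
      exact (Real.log_pos h3).ne'
    have h4 : multiplicity w.maximalIdeal.asIdeal I = 0 := by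
      have := (mul_eq_zero.1 h1).resolve_right h2
      exact_mod_cast this
    show _ ^ _ = _
    rw [h4, pow_zero]
  rw [finprod_eq_prod_of_mulSupport_subset _ hsub] at hprod
  conv_lhs => rw [← hprod]
  rw [map_prod, G_prod]
  · refine Finset.sum_congr rfl fun w _ => ?_
    rw [map_pow, G_pow _ (relNorm_ne w.maximalIdeal.ne_bot), G_relNorm_prime]
    split_ifs
    · rfl
    · rw [mul_zero]
  · intro w _
    rw [map_pow]
    exact pow_ne_zero _ (relNorm_ne w.maximalIdeal.ne_bot)

open scoped Classical in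
theorem log_norm_int (v : FinitePlace κ) {b : 𝓞 E} (hb : b ≠ 0) (S : Finset (FinitePlace E))
    (hS : ∀ w ∉ S, w (b : E) = 1) :
    Real.log (v (Algebra.norm κ (b : E))) =
      ∑ w ∈ S, if below κ w = v then Real.log (w (b : E)) else 0 := by
  have hI : Ideal.span {b} ≠ (⊥ : Ideal (𝓞 E)) := mt Submodule.span_singleton_eq_bot.mp hb
  have h0 : Algebra.intNorm (𝓞 κ) (𝓞 E) b ≠ 0 := by
    intro h
    apply relNorm_ne (κ := κ) hI
    rw [Ideal.relNorm_singleton, h]
    simp
  have h1 : (Algebra.norm κ (b : E)) = ((Algebra.intNorm (𝓞 κ) (𝓞 E) b : 𝓞 κ) : κ) :=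
    (Algebra.algebraMap_intNorm (A := 𝓞 κ) (K := κ) (L := E) (B := 𝓞 E) b).symm
  rw [h1, log_apply v h0, ← Ideal.relNorm_singleton, G_relNorm v hI S, ← Finset.sum_neg_distrib]
  · refine Finset.sum_congr rfl fun w _ => ?_
    rw [log_apply w hb]
    split_ifs
    · rfl
    · rw [neg_zero]
  · intro w hw
    have := log_apply w hb
    rw [hS w hw, Real.log_one] at this
    linarith

open scoped Classical in
theorem log_norm (v : FinitePlace κ) {a : E} (ha : a ≠ 0) : ∀ S : Finset (FinitePlace E),
    (∀ w ∉ S, w a = 1) →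
    Real.log (v (Algebra.norm κ a)) =
      ∑ w ∈ S, if below κ w = v then Real.log (w a) else 0 := by
  obtain ⟨b, c, hc, rfl⟩ := IsFractionRing.div_surjective (𝓞 E) a
  have hc0 : c ≠ 0 := nonZeroDivisors.ne_zero hc
  have hb0 : b ≠ 0 := by
    rintro rfl
    apply ha
    simp
  intro S hS
  have fb : (Function.mulSupport fun w : FinitePlace E => w (b : E)).Finite :=
    FinitePlace.hasFiniteMulSupport_int hb0
  have fc : (Function.mulSupport fun w : FinitePlace E => w (c : E)).Finite :=
    FinitePlace.hasFiniteMulSupport_int hc0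
  set T : Finset (FinitePlace E) := S ∪ (fb.toFinset ∪ fc.toFinset) with hT
  have hTb : ∀ w ∉ T, w (b : E) = 1 := by
    intro w hw
    by_contra h
    apply hw
    rw [hT, Finset.mem_union, Finset.mem_union]
    refine Or.inr (Or.inl ?_)
    rw [Set.Finite.mem_toFinset, Function.mem_mulSupport]
    exact h
  have hTc : ∀ w ∉ T, w (c : E) = 1 := by
    intro w hw
    by_contra h
    apply hw
    rw [hT, Finset.mem_union, Finset.mem_union]
    refine Or.inr (Or.inr ?_)
    rw [Set.Finite.mem_toFinset, Function.mem_mulSupport]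
    exact h
  have hbE : (b : E) ≠ 0 := RingOfIntegers.coe_ne_zero_iff.2 hb0
  have hcE : (c : E) ≠ 0 := RingOfIntegers.coe_ne_zero_iff.2 hc0
  have hnb : v (Algebra.norm κ (b : E)) ≠ 0 :=
    (FinitePlace.pos_iff.2 (Algebra.norm_ne_zero_iff.2 hbE)).ne'
  have hnc : v (Algebra.norm κ (c : E)) ≠ 0 :=
    (FinitePlace.pos_iff.2 (Algebra.norm_ne_zero_iff.2 hcE)).ne'
  have e1 : Real.log (v (Algebra.norm κ ((b : E) / (c : E)))) =
      ∑ w ∈ T, if below κ w = v then Real.log (w ((b : E) / (c : E))) else 0 := by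
    have hdiv : Algebra.norm κ ((b : E) / (c : E)) =
        Algebra.norm κ (b : E) / Algebra.norm κ (c : E) := by
      rw [eq_div_iff (Algebra.norm_ne_zero_iff.2 hcE), ← map_mul, div_mul_cancel₀ _ hcE]
    rw [hdiv, map_div₀, Real.log_div hnb hnc, log_norm_int v hb0 T hTb,
      log_norm_int v hc0 T hTc, ← Finset.sum_sub_distrib]
    refine Finset.sum_congr rfl fun w _ => ?_
    split_ifs
    · rw [map_div₀, Real.log_div (FinitePlace.pos_iff.2 hbE).ne' (FinitePlace.pos_iff.2 hcE).ne']
    · rw [sub_zero]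
  rw [e1]
  symm
  refine Finset.sum_subset Finset.subset_union_left fun w _ hw => ?_
  split_ifs
  · rw [hS w hw, Real.log_one]
  · rfl


end nrm

section places

variable {K L : Type} [Field K] [NumberField K] [Field L] [NumberField L] [Algebra K L]

theorem mk_le_iff (v : HeightOneSpectrum (𝓞 K)) (a b : K) :
    FinitePlace.mk v a ≤ FinitePlace.mk v b ↔ v.valuation K a ≤ v.valuation K b := by
  rw [FinitePlace.mk_apply, FinitePlace.mk_apply, FinitePlace.norm_embedding,
    FinitePlace.norm_embedding]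
  have h := WithZeroMulInt.toNNReal_strictMono (HeightOneSpectrum.one_lt_absNorm_nnreal v)
  exact NNReal.coe_le_coe.trans (h.le_iff_le (a := v.valuation K a) (b := v.valuation K b))

theorem below_mono (w : FinitePlace L) (a b : K) (h : below K w a ≤ below K w b) :
    w (algebraMap K L a) ≤ w (algebraMap K L b) := by
  have h1 : below K w = FinitePlace.mk (below K w).maximalIdeal :=
    (FinitePlace.mk_maximalIdeal _).symm
  rw [h1, mk_le_iff] at h
  have h2 : w = FinitePlace.mk w.maximalIdeal := (FinitePlace.mk_maximalIdeal _).symm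
  rw [h2, mk_le_iff]
  have : w.maximalIdeal.asIdeal.LiesOver (below K w).maximalIdeal.asIdeal := ⟨below_ideal w⟩
  rw [← HeightOneSpectrum.valuation_liesOver L (below K w).maximalIdeal w.maximalIdeal,
    ← HeightOneSpectrum.valuation_liesOver L (below K w).maximalIdeal w.maximalIdeal]
  exact pow_le_pow_left₀ zero_le h _

end places

section sums

variable {L : Type} [Field L] [NumberField L]

theorem sup_pos {ι : Type} [Finite ι] (f : L → ℝ) (hf : ∀ a, a ≠ 0 → 0 < f a)
    (x : ι → L) (hx : x ≠ 0) : 0 < ⨆ i, f (x i) := by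
  obtain ⟨i, hi⟩ := Function.ne_iff.1 hx
  exact (hf _ hi).trans_le (le_ciSup (f := fun i => f (x i)) (Set.finite_range _).bddAbove i)

/-- the height as a sum of finitely many local terms -/
theorem logHeight_fin {ι : Type} [Fintype ι] (x : ι → L) (hx : x ≠ 0)
    (T : Finset (FinitePlace L)) (hT : ∀ w, w ∉ T → ∀ i, x i ≠ 0 → w (x i) = 1) :
    logHeight x = ∑ w : InfinitePlace L, (w.mult : ℝ) * Real.log (⨆ i, w (x i)) +
      ∑ w ∈ T, Real.log (⨆ i, w (x i)) := by
  classical
  obtain ⟨i₀, hi₀⟩ := Function.ne_iff.1 hx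
  have hsub : (Function.mulSupport fun w : FinitePlace L => ⨆ i, w (x i)) ⊆ ↑T := by
    intro w hw
    by_contra h
    exact hw (Run7.h128.AU.sup_one w x (hT w h) i₀ hi₀)
  have hi : ∀ w : InfinitePlace L, (⨆ i, w (x i)) ≠ 0 := fun w =>
    (sup_pos (fun a => w a)
      (fun a ha => InfinitePlace.pos_iff.2 ha) x hx).ne'
  have hf : ∀ w : FinitePlace L, (⨆ i, w (x i)) ≠ 0 := fun w =>
    (sup_pos (fun a => w a)
      (fun a ha => FinitePlace.pos_iff.2 ha) x hx).ne'
  rw [logHeight_eq_log_mulHeight, NumberField.mulHeight_eq hx,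
    finprod_eq_prod_of_mulSupport_subset _ hsub, Real.log_mul
      (Finset.prod_ne_zero_iff.2 fun w _ => pow_ne_zero _ (hi w))
      (Finset.prod_ne_zero_iff.2 fun w _ => hf w),
    Real.log_prod fun w _ => pow_ne_zero _ (hi w), Real.log_prod fun w _ => hf w]
  congr 1
  exact Finset.sum_congr rfl fun w _ => Real.log_pow _ _

/-- the product formula -/
theorem log_product (y : L) (hy : y ≠ 0) (T : Finset (FinitePlace L))
    (hT : ∀ w, w ∉ T → w y = 1) :
    ∑ w : InfinitePlace L, (w.mult : ℝ) * Real.log (w y) + ∑ w ∈ T, Real.log (w y) = 0 := by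
  classical
  have h1 := prod_abs_eq_one (K := L) hy
  have hsub : (Function.mulSupport fun w : FinitePlace L => w y) ⊆ ↑T := by
    intro w hw
    by_contra h
    exact hw (hT w h)
  have hi : ∀ w : InfinitePlace L, w y ≠ 0 := fun w => (InfinitePlace.pos_iff.2 hy).ne'
  have hf : ∀ w : FinitePlace L, w y ≠ 0 := fun w => (FinitePlace.pos_iff.2 hy).ne'
  rw [finprod_eq_prod_of_mulSupport_subset _ hsub] at h1
  have h2 := congrArg Real.log h1
  rw [Real.log_one, Real.log_mul
      (Finset.prod_ne_zero_iff.2 fun w _ => pow_ne_zero _ (hi w))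
      (Finset.prod_ne_zero_iff.2 fun w _ => hf w),
    Real.log_prod fun w _ => pow_ne_zero _ (hi w), Real.log_prod fun w _ => hf w] at h2
  rw [← h2]
  congr 1
  exact Finset.sum_congr rfl fun w _ => (Real.log_pow _ _).symm

end sums

section dist

variable {K L : Type} [Field K] [NumberField K] [Field L] [NumberField L] [Algebra K L]
variable {ι : Type} [Fintype ι]

open Classical in
/-- the distance of the norm from the units -/
theorem valDist_le (S : Finset (FinitePlace K)) (δ : ℕ) (u : ι → K) (hu : ∃ i, u i ≠ 0) (y : L)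
    (hy : y ≠ 0) (T : Finset (FinitePlace L))
    (hTu : ∀ w, w ∉ T → ∀ i, u i ≠ 0 → w (algebraMap K L (u i)) = 1)
    (hTy : ∀ w, w ∉ T → w y = 1) :
    Run7.h128.BL.valDist S (finrank K L * δ) u (Algebra.norm K y) ≤
      ∑ w ∈ T, if below K w ∈ S then 0 else
        |Real.log (w y) - δ * Real.log (⨆ i, w (algebraMap K L (u i)))| := by
  have hn : Algebra.norm K y ≠ 0 := Algebra.norm_ne_zero_iff.2 hy
  obtain ⟨TK, hTK⟩ := Run7.h128.AU.exists_fin (fun o : Option ι => o.elim (Algebra.norm K y) u)
  have hTK1 : ∀ w, w ∉ TK → ∀ i, u i ≠ 0 → w (u i) = 1 := fun w hw i hi => hTK w hw (some i) hi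
  have hTK2 : ∀ w, w ∉ TK → w (Algebra.norm K y) = 1 := fun w hw => hTK w hw none hn
  rw [Run7.h128.BL.valDist_eq S TK _ u _ hTK1 hTK2 hu]
  obtain ⟨i₀, hi₀⟩ := hu
  have key : ∀ v : FinitePlace K, Real.log (v (Algebra.norm K y)) -
      ((finrank K L * δ : ℕ) : ℝ) * Real.log (⨆ i, v (u i)) =
      ∑ w ∈ T, if below K w = v then
        (Real.log (w y) - δ * Real.log (⨆ i, w (algebraMap K L (u i)))) else 0 := by
    intro v
    have : Nonempty ι := ⟨i₀⟩
    obtain ⟨j, hj'⟩ := exists_eq_ciSup_of_finite (f := fun i => v (u i))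
    have hj : v (u j) = ⨆ i, v (u i) := hj'
    have hj0 : u j ≠ 0 := by
      intro h
      have h1 : v (u i₀) ≤ ⨆ i, v (u i) := Run7.h128.AU.le_sup v u i₀
      rw [← hj, h, map_zero] at h1
      exact absurd h1 (not_le.2 (FinitePlace.pos_iff.2 hi₀))
    have hju : algebraMap K L (u j) ≠ 0 := (map_ne_zero _).2 hj0
    have h1 := log_norm (κ := K) v hy T hTy
    have h2 := log_norm (κ := K) v hju T (fun w hw => hTu w hw j hj0)
    rw [Algebra.norm_algebraMap, map_pow, Real.log_pow, hj] at h2
    have h3 : ∀ w : FinitePlace L, below K w = v →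
        w (algebraMap K L (u j)) = ⨆ i, w (algebraMap K L (u i)) := by
      intro w hw
      refine le_antisymm (Run7.h128.AU.le_sup w (fun i => algebraMap K L (u i)) j)
        (ciSup_le fun i => below_mono w _ _ ?_)
      rw [hw, hj]
      exact Run7.h128.AU.le_sup v u i
    rw [h1]
    push_cast
    have h4 : (finrank K L : ℝ) * δ * Real.log (⨆ i, v (u i)) =
        δ * ((finrank K L : ℝ) * Real.log (⨆ i, v (u i))) := by ring
    rw [h4, h2, Finset.mul_sum, ← Finset.sum_sub_distrib]
    refine Finset.sum_congr rfl fun w _ => ?_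
    by_cases hw : below K w = v
    · rw [if_pos hw, if_pos hw, if_pos hw, h3 w hw]
    · rw [if_neg hw, if_neg hw, if_neg hw, mul_zero, sub_zero]
  have h1 : ∀ v ∈ TK \ S, |Real.log (v (Algebra.norm K y)) -
      ((finrank K L * δ : ℕ) : ℝ) * Real.log (⨆ i, v (u i))| ≤
      ∑ w ∈ T, if below K w = v then
        |Real.log (w y) - δ * Real.log (⨆ i, w (algebraMap K L (u i)))| else 0 := by
    intro v _
    rw [key v]
    refine (Finset.abs_sum_le_sum_abs _ _).trans (le_of_eq ?_)
    refine Finset.sum_congr rfl fun w _ => ?_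
    split
    · rfl
    · exact abs_zero
  refine (Finset.sum_le_sum h1).trans ?_
  rw [Finset.sum_comm]
  refine Finset.sum_le_sum fun w _ => ?_
  rw [Finset.sum_ite_eq]
  by_cases hw : below K w ∈ S
  · rw [if_pos hw, if_neg]
    rw [Finset.mem_sdiff]
    exact fun h => h.2 hw
  · rw [if_neg hw]
    split
    · exact le_rfl
    · exact abs_nonneg _

end dist

end Run7.h128.BD
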