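import Pool.Agent.Run7.h128.BD.DichII
import Pool.Agent.Run7.h128.BD.FinI
import Pool.Agent.Run7.h128.BD.Plc

/-!
Algebraic points of bounded degree of the complement of `T = 0` in a projective variety.
-/

set_option autoImplicit false
set_option linter.unusedSectionVars false

namespace Run7.h128.BD

open NumberField Height Module MvPolynomial Finset
open Pool.Agent.Helper259.AbsHt
open Run7.h128.AU (outside outside_nonneg)
open Run7.h128.BL (valDist valDist_nonneg)
open Run7.h128.FG (cur cur_eval_one)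

/-- **One exceptional set.** -/
theorem coreII {k : Type} [Field k] {n m : ℕ} (e : Fin m → ℕ)
    (F : Fin m → MvPolynomial (Fin (n + 1)) k) (hF : ∀ i, (F i).IsHomogeneous (e i))
    (hprime : (Ideal.span (Set.range F)).IsPrime) (T : MvPolynomial (Fin (n + 1)) k) (δ : ℕ)
    (hδ : 1 ≤ δ) (hT : T.IsHomogeneous δ) (hnu : ¬ LogUniruled (Ideal.span (Set.range F)) T)
    (ι : Type) [Fintype ι] [DecidableEq ι] :
    ∃ H : MvPolynomial (Fin (n + 1)) k, (∃ d, H.IsHomogeneous d) ∧
      H ∉ Ideal.span (Set.range F) ∧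
      ∀ (K : Type) [Field K] [NumberField K] [Algebra K Qbar] [Algebra k Qbar]
        (S : Finset (FinitePlace K)) (d : ℕ) (σ₀ : Fin d), ∃ C : ℝ, 0 ≤ C ∧
          ∀ (lam : Fin d → ι → Fin (n + 1) → Qbar) (u : ι → K) (v : K), v ≠ 0 →
          algebraMap K Qbar v = ∏ σ, aeval (fun a => ∑ i, trm (lam σ) u i a) T →
          (∀ i, aeval (fun a => ∑ i, trm (lam σ₀) u i a) (F i) = 0) →
          aeval (fun a => ∑ i, trm (lam σ₀) u i a) H ≠ 0 →
          absLogHeight (fun a => ∑ i, trm (lam σ₀) u i a) ≤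
            C * (1 + ∑ σ, ∑ i, ∑ a, ah (lam σ i a) + outside S u + valDist S (d * δ) u v) := by
  classical
  obtain ⟨H, hH1, hH2, hH3⟩ := exists_hyperT (Set.range F) hprime T hnu (∑ i, e i + δ)
    (by omega) (by
      rintro _ ⟨i, rfl⟩
      refine ⟨e i, ?_, hF i⟩
      have := Finset.single_le_sum (f := e) (fun _ _ => Nat.zero_le _) (Finset.mem_univ i)
      omega) δ (by omega) hT ι
  refine ⟨H, hH1, hH2, ?_⟩
  intro K _ _ _ _ S d σ₀
  have hmap : ∀ (P : MvPolynomial (Fin (n + 1)) k) (x : Fin (n + 1) → Qbar),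
      eval x (MvPolynomial.map (algebraMap k Qbar) P) = aeval x P := fun P x => by
    rw [eval_map, aeval_def]
  obtain ⟨C, hD⟩ := dichII (K := K) S ι n m e (fun i => MvPolynomial.map (algebraMap k Qbar) (F i))
    (fun i => (hF i).map _) (MvPolynomial.map (algebraMap k Qbar) T) δ hδ (hT.map _) d σ₀
  refine ⟨|C|, abs_nonneg C, fun lam u v hv hvT h0 hHx => ?_⟩
  have hl : 0 ≤ ∑ σ, ∑ i, ∑ a, ah (lam σ i a) :=
    Finset.sum_nonneg fun σ _ => Finset.sum_nonneg fun i _ => Finset.sum_nonneg fun a _ =>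
      ah_nonneg _
  have hout := outside_nonneg S u
  have hvd := valDist_nonneg S (d * δ) u v
  have hTx : aeval (fun a => ∑ i, trm (lam σ₀) u i a) T ≠ 0 := by
    intro h
    rw [Finset.prod_eq_zero (Finset.mem_univ σ₀) h] at hvT
    exact hv ((map_eq_zero _).1 hvT)
  rcases hD lam u v hv (by
      rw [hvT]
      exact Finset.prod_congr rfl fun σ _ => (hmap T _).symm)
    (fun i => by rw [hmap]; exact h0 i) with h1 | ⟨l, h2, ⟨j, hj⟩, a, b, h3⟩
  · exact h1.trans (mul_le_mul_of_nonneg_right (le_abs_self C) (by linarith))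
  · exfalso
    apply hHx
    refine hH3 Qbar (trm (lam σ₀) u) l ?_ ⟨aeval (fun a => ∑ i, trm (lam σ₀) u i a) T, j, hTx, ?_⟩
      ⟨a, b, h3⟩
    · rintro _ ⟨i, rfl⟩
      have h7 := h2 i
      rw [aeval_map_algebraMap] at h7
      exact h7
    · rw [aeval_map_algebraMap, hmap] at hj
      exact hj

/-- the version for number fields, with the norm -/
theorem finII {k : Type} [Field k] [NumberField k] {n m : ℕ} (e : Fin m → ℕ)
    (F : Fin m → MvPolynomial (Fin (n + 1)) k) (hF : ∀ i, (F i).IsHomogeneous (e i))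
    (hprime : (Ideal.span (Set.range F)).IsPrime) (T : MvPolynomial (Fin (n + 1)) k) (δ : ℕ)
    (hδ : 1 ≤ δ) (hT : T.IsHomogeneous δ) (hnu : ¬ LogUniruled (Ideal.span (Set.range F)) T)
    (s : ℕ) :
    ∃ H : MvPolynomial (Fin (n + 1)) k, (∃ d, H.IsHomogeneous d) ∧
      H ∉ Ideal.span (Set.range F) ∧
      ∀ (K : Type) [Field K] [NumberField K] [Algebra k K] (S : Finset (FinitePlace K)) (D : ℕ),
        ∃ C : ℝ, 0 ≤ C ∧ ∀ (L : Type) [Field L] [NumberField L] [Algebra k L] [Algebra K L]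
          [IsScalarTower k K L], finrank K L ≤ D → ∀ (lam : Fin s → Fin (n + 1) → L)
          (u : Fin s → Fin (n + 1) → K) (x : Fin (n + 1) → L),
          (∀ a, x a = ∑ j, lam j a * algebraMap K L (u j a)) →
          (∀ i, aeval x (F i) = 0) → aeval x T ≠ 0 → aeval x H ≠ 0 →
          ht k x ≤ C * (1 + ∑ j, ∑ a, ht₁ k (lam j a) +
            (outside S fun p : Fin s × Fin (n + 1) => u p.1 p.2) +
            valDist S (finrank K L * δ) (fun p : Fin s × Fin (n + 1) => u p.1 p.2)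
              (Algebra.norm K (aeval x T))) := by
  classical
  obtain ⟨H, hH1, hH2, hH3⟩ := coreII e F hF hprime T δ hδ hT hnu (Fin s × Fin (n + 1))
  refine ⟨H, hH1, hH2, ?_⟩
  intro K _ _ _ S D
  have : Algebra.IsAlgebraic ℚ Qbar := AlgebraicClosure.isAlgebraic ℚ
  let ψ : K →ₐ[ℚ] Qbar := IsAlgClosed.lift
  let _ : Algebra K Qbar := ψ.toRingHom.toAlgebra
  let _ : Algebra k Qbar := (ψ.toRingHom.comp (algebraMap k K)).toAlgebra
  choose C hC0 hC using fun d : ℕ => hH3 K S (d + 1) 0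
  have hk := fr_pos k
  have hk1 : (1 : ℝ) ≤ finrank ℚ k := by
    exact_mod_cast Nat.succ_le_of_lt (Module.finrank_pos (R := ℚ) (M := k))
  set C' : ℝ := ∑ d ∈ Finset.range D, C d with hC'
  have hC'0 : 0 ≤ C' := Finset.sum_nonneg fun d _ => hC0 d
  refine ⟨finrank ℚ k * (C' * (D + 1)), by positivity, ?_⟩
  intro L _ _ _ _ _ hL lam u x hxu h0 hTx hHx
  obtain ⟨d, hd⟩ : ∃ d, finrank K L = d + 1 :=
    ⟨finrank K L - 1, by have := Module.finrank_pos (R := K) (M := L); omega⟩
  have hcard : Fintype.card (L →ₐ[K] Qbar) = d + 1 := by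
    rw [AlgHom.card, hd]
  set eqv : Fin (d + 1) ≃ (L →ₐ[K] Qbar) := (Fintype.equivFinOfCardEq hcard).symm with heqv
  have hφk : ∀ (σ : Fin (d + 1)) (a : k), eqv σ (algebraMap k L a) = algebraMap k Qbar a := by
    intro σ a
    rw [IsScalarTower.algebraMap_apply k K L, (eqv σ).commutes]
    rfl
  set lam' : Fin (d + 1) → Fin s × Fin (n + 1) → Fin (n + 1) → Qbar :=
    fun σ p a => if a = p.2 then eqv σ (lam p.1 p.2) else 0 with hlam'
  set u' : Fin s × Fin (n + 1) → K := fun p => u p.1 p.2 with hu'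
  have hxe : ∀ σ, (fun a => ∑ i, trm (lam' σ) u' i a) = fun a => eqv σ (x a) := by
    intro σ
    funext a
    rw [hxu a, map_sum, Fintype.sum_prod_type]
    refine Finset.sum_congr rfl fun j _ => ?_
    rw [Finset.sum_eq_single a]
    · unfold trm
      rw [hlam', hu', map_mul, (eqv σ).commutes]
      simp only [if_true]
    · intro b _ hb
      unfold trm
      rw [hlam']
      simp only [if_neg (Ne.symm hb), zero_mul]
    · intro h
      exact absurd (Finset.mem_univ a) h
  have hev : ∀ (σ : Fin (d + 1)) (P : MvPolynomial (Fin (n + 1)) k),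
      aeval (fun a => eqv σ (x a)) P = eqv σ (aeval x P) := by
    intro σ P
    rw [aeval_def, aeval_def]
    have h1 := MvPolynomial.hom_eval₂ P (algebraMap k L) (eqv σ).toRingHom x
    have h2 : (eqv σ).toRingHom.comp (algebraMap k L) = algebraMap k Qbar := RingHom.ext (hφk σ)
    rw [h2] at h1
    exact h1.symm
  have hnorm : algebraMap K Qbar (Algebra.norm K (aeval x T)) =
      ∏ σ, aeval (fun a => ∑ i, trm (lam' σ) u' i a) T := by
    rw [Algebra.norm_eq_prod_embeddings, ← Equiv.prod_comp eqv]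
    refine Finset.prod_congr rfl fun σ _ => ?_
    rw [hxe, hev]
  have hn0 : Algebra.norm K (aeval x T) ≠ 0 := Algebra.norm_ne_zero_iff.2 hTx
  have key := hC d lam' u' (Algebra.norm K (aeval x T)) hn0 hnorm
    (fun i => by rw [hxe, hev, h0 i, map_zero]) (by
      rw [hxe, hev]
      exact (map_ne_zero (eqv 0)).2 hHx)
  rw [hxe] at key
  have e1 : ht k x = finrank ℚ k * absLogHeight (fun a => eqv 0 (x a)) :=
    ht_eq k (eqv 0).toRingHom x
  have e2 : ∀ (σ : Fin (d + 1)) (a : L), ah (eqv σ a) ≤ ht₁ k a := fun σ a => by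
    have h1 : ht₁ k a = finrank ℚ k * ah (eqv σ a) := ht₁_eq k (eqv σ).toRingHom a
    rw [h1]
    exact le_mul_of_one_le_left (ah_nonneg _) hk1
  have e3 : ∀ σ, ∑ p, ∑ a, ah (lam' σ p a) ≤ ∑ j, ∑ a, ht₁ k (lam j a) := by
    intro σ
    rw [Fintype.sum_prod_type]
    refine Finset.sum_le_sum fun j _ => Finset.sum_le_sum fun b _ => ?_
    rw [Finset.sum_eq_single b]
    · rw [hlam']
      simp only [if_true]
      exact e2 σ _
    · intro a _ ha
      rw [hlam']
      simp only [if_neg ha, ah_zero]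
    · intro h
      exact absurd (Finset.mem_univ b) h
  have hh0 : 0 ≤ ∑ j, ∑ a, ht₁ k (lam j a) :=
    Finset.sum_nonneg fun j _ => Finset.sum_nonneg fun a _ => ht₁_nonneg k _
  have hdD : (d : ℝ) + 1 ≤ D := by
    have : d + 1 ≤ D := by omega
    exact_mod_cast this
  have e4 : ∑ σ, ∑ p, ∑ a, ah (lam' σ p a) ≤ D * ∑ j, ∑ a, ht₁ k (lam j a) := by
    refine (Finset.sum_le_sum fun σ _ => e3 σ).trans ?_
    rw [Finset.sum_const, Finset.card_univ, Fintype.card_fin, nsmul_eq_mul]
    push_cast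
    exact mul_le_mul_of_nonneg_right hdD hh0
  have hCd : C d ≤ C' := Finset.single_le_sum (f := C) (fun d _ => hC0 d)
    (Finset.mem_range.2 (by omega))
  have ho := outside_nonneg S u'
  have hvd := valDist_nonneg S ((d + 1) * δ) u' (Algebra.norm K (aeval x T))
  have hl0 : 0 ≤ ∑ σ, ∑ p, ∑ a, ah (lam' σ p a) :=
    Finset.sum_nonneg fun σ _ => Finset.sum_nonneg fun i _ => Finset.sum_nonneg fun a _ =>
      ah_nonneg _
  have hD0 : (0 : ℝ) ≤ D := Nat.cast_nonneg D
  rw [e1, hd, mul_assoc]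
  refine mul_le_mul_of_nonneg_left (key.trans ?_) hk.le
  calc C d * (1 + ∑ σ, ∑ p, ∑ a, ah (lam' σ p a) + outside S u' +
        valDist S ((d + 1) * δ) u' (Algebra.norm K (aeval x T)))
      ≤ C' * (1 + ∑ σ, ∑ p, ∑ a, ah (lam' σ p a) + outside S u' +
        valDist S ((d + 1) * δ) u' (Algebra.norm K (aeval x T))) :=
        mul_le_mul_of_nonneg_right hCd (by linarith)
    _ ≤ C' * ((D + 1) * (1 + ∑ j, ∑ a, ht₁ k (lam j a) + outside S u' +
        valDist S ((d + 1) * δ) u' (Algebra.norm K (aeval x T)))) := by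
        refine mul_le_mul_of_nonneg_left ?_ hC'0
        nlinarith [mul_nonneg hD0 ho, mul_nonneg hD0 hvd]
    _ = _ := by
        rw [mul_assoc]

end Run7.h128.BD
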