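import Pool.Agent.Run7.h128.BD.Desc
import Pool.Agent.Run7.h128.AU.Outside

/-!
Linear substitutions in forms with algebraic coefficients: heights and descent.
-/

set_option autoImplicit false
set_option linter.unusedSectionVars false

namespace Run7.h128.BD

open NumberField Height Module MvPolynomial Finset
open Pool.Agent.Helper259.AbsHt
open Run7.h128.AU (Ex mem_Ex eval_homog coefHeight)

theorem ah_add_le (a b : Qbar) : ah (a + b) ≤ Real.log 2 + ah a + ah b := by
  have h1 := ah_sum_le (Finset.univ : Finset (Fin 2)) ![a, b]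
  rw [Fin.sum_univ_two, Fin.sum_univ_two, Finset.card_univ, Fintype.card_fin] at h1
  have h2 : ((2 : ℕ) : ℝ) = 2 := by norm_num
  rw [h2] at h1
  exact h1.trans (by
    show Real.log 2 + (ah a + ah b) ≤ _
    linarith)

/-- heights of values of a polynomial -/
theorem ah_value {R₀ : Type} [CommRing R₀] [Algebra R₀ Qbar] {σ : Type} [Fintype σ]
    (a : MvPolynomial σ R₀) : ∃ C : ℝ, 0 ≤ C ∧ ∀ t : σ → Qbar,
      ah (aeval t a) ≤ C * (1 + ∑ i, ah (t i)) := by
  have hs : ∀ t : σ → Qbar, 0 ≤ ∑ i, ah (t i) := fun t =>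
    Finset.sum_nonneg fun i _ => ah_nonneg _
  induction a using MvPolynomial.induction_on with
  | C c =>
    refine ⟨ah (algebraMap R₀ Qbar c), ah_nonneg _, fun t => ?_⟩
    rw [aeval_C]
    exact le_mul_of_one_le_right (ah_nonneg _) (by linarith [hs t])
  | add p p' hp hp' =>
    obtain ⟨C, hC, h⟩ := hp
    obtain ⟨C', hC', h'⟩ := hp'
    have hW : (0 : ℝ) ≤ Real.log 2 := Real.log_nonneg one_le_two
    refine ⟨Real.log 2 + C + C', by linarith, fun t => ?_⟩
    rw [map_add]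
    have h1 := ah_add_le (aeval t p) (aeval t p')
    have h2 := h t
    have h3 := h' t
    have h4 : Real.log 2 ≤ Real.log 2 * (1 + ∑ i, ah (t i)) :=
      le_mul_of_one_le_right hW (by linarith [hs t])
    nlinarith [hs t]
  | mul_X p i hp =>
    obtain ⟨C, hC, h⟩ := hp
    refine ⟨C + 1, by linarith, fun t => ?_⟩
    rw [map_mul, aeval_X]
    have h1 := ah_mul_le (aeval t p) (t i)
    have h2 := h t
    have h3 : ah (t i) ≤ ∑ i, ah (t i) :=
      Finset.single_le_sum (f := fun i => ah (t i)) (fun i _ => ah_nonneg _) (Finset.mem_univ i)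
    nlinarith [hs t]

/-- the height of a polynomial -/
noncomputable def cah {σ : Type} (G : MvPolynomial σ Qbar) : ℝ :=
  absLogHeight fun β : G.support => coeff β.1 G

theorem cah_nonneg {σ : Type} (G : MvPolynomial σ Qbar) : 0 ≤ cah G := absLogHeight_nonneg _

theorem cah_ratio {σ : Type} (G : MvPolynomial σ Qbar) (β β₀ : σ →₀ ℕ) (h : coeff β₀ G ≠ 0) :
    ah (coeff β G / coeff β₀ G) ≤ cah G := by
  by_cases h0 : coeff β G = 0
  · rw [h0, zero_div, ah_zero]
    exact cah_nonneg G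
  · exact ah_ratio_le (fun β : G.support => coeff β.1 G) ⟨β, mem_support_iff.2 h0⟩
      ⟨β₀, mem_support_iff.2 h⟩ h

variable {ι κ : Type} [Fintype ι] [DecidableEq ι] [Fintype κ] [DecidableEq κ]

/-- `G (Λ U)` -/
noncomputable def subst {R : Type} [CommRing R] (Λ : κ → ι → R) :
    MvPolynomial κ R →ₐ[R] MvPolynomial ι R :=
  aeval fun c => ∑ i, C (Λ c i) * X i

theorem eval_subst {R : Type} [CommRing R] (Λ : κ → ι → R) (u : ι → R) (G : MvPolynomial κ R) :
    eval u (subst Λ G) = eval (fun c => ∑ i, Λ c i * u i) G := by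
  unfold subst
  induction G using MvPolynomial.induction_on with
  | C a => simp
  | add p q hp hq => rw [map_add, map_add, map_add, hp, hq]
  | mul_X p i hp => rw [map_mul, map_mul, map_mul, hp, aeval_X, eval_X, map_sum]; simp

theorem subst_homog {R : Type} [CommRing R] (Λ : κ → ι → R) {G : MvPolynomial κ R} {e : ℕ}
    (h : G.IsHomogeneous e) : (subst Λ G).IsHomogeneous e := by
  have := h.aeval (n := 1) (fun c => ∑ i, C (Λ c i) * (X i : MvPolynomial ι R))
    (fun c => IsHomogeneous.sum _ _ _ fun i _ => by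
      simpa using (isHomogeneous_C ι (Λ c i)).mul (isHomogeneous_X R i))
  rwa [one_mul] at this

/-- the coefficients of the products of generic linear forms -/
noncomputable def genc (β : κ →₀ ℕ) (E : ι →₀ ℕ) : MvPolynomial (κ × ι) ℤ :=
  coeff E (subst (fun c i => (X (c, i) : MvPolynomial (κ × ι) ℤ)) (monomial β 1))

theorem subst_monomial {R : Type} [CommRing R] (Λ : κ → ι → R) (β : κ →₀ ℕ) :
    subst Λ (monomial β 1) = ∏ c, (∑ i, C (Λ c i) * X i) ^ (β c) := by
  unfold subst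
  rw [aeval_monomial, map_one, one_mul, Finsupp.prod_fintype _ _ (fun c => pow_zero _)]

theorem coeff_monomial_subst (Λ : κ → ι → Qbar) (β : κ →₀ ℕ) (E : ι →₀ ℕ) :
    coeff E (subst Λ (monomial β 1)) = aeval (fun p : κ × ι => Λ p.1 p.2) (genc β E) := by
  set f : MvPolynomial (κ × ι) ℤ →+* Qbar :=
    (aeval (fun p : κ × ι => Λ p.1 p.2) : MvPolynomial (κ × ι) ℤ →ₐ[ℤ] Qbar).toRingHom with hf
  have h1 : MvPolynomial.map f (subst (fun c i => (X (c, i) : MvPolynomial (κ × ι) ℤ))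
      (monomial β 1)) = subst Λ (monomial β 1) := by
    rw [subst_monomial, subst_monomial, map_prod]
    refine Finset.prod_congr rfl fun c _ => ?_
    rw [map_pow, map_sum]
    congr 1
    refine Finset.sum_congr rfl fun i _ => ?_
    rw [map_mul, MvPolynomial.map_C, MvPolynomial.map_X]
    congr 2
    show aeval (fun p : κ × ι => Λ p.1 p.2) (X (c, i)) = _
    rw [aeval_X]
  rw [← h1, coeff_map]
  rfl

theorem coeff_subst (Λ : κ → ι → Qbar) {G : MvPolynomial κ Qbar} {e : ℕ}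
    (h : G.IsHomogeneous e) (E : ι →₀ ℕ) :
    coeff E (subst Λ G) = ∑ β ∈ Ex κ e, coeff β G *
      aeval (fun p : κ × ι => Λ p.1 p.2) (genc β E) := by
  have h1 : G = ∑ β ∈ Ex κ e, C (coeff β G) * monomial β (1 : Qbar) := by
    have h2 : G = ∑ β ∈ G.support, monomial β (coeff β G) := G.as_sum
    rw [Finset.sum_subset (s₂ := Ex κ e)] at h2
    · conv_lhs => rw [h2]
      refine Finset.sum_congr rfl fun β _ => ?_
      rw [C_mul_monomial, mul_one]
    · intro β hβ
      rw [mem_Ex]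
      have h1 : coeff β G ≠ 0 := mem_support_iff.1 hβ
      have h2 : β.degree = e := by
        by_contra hc
        exact h1 (h.coeff_eq_zero hc)
      rw [← h2, Finsupp.degree_eq_sum]
    · intro β _ hβ
      rw [notMem_support_iff.1 hβ, map_zero]
  conv_lhs => rw [h1]
  rw [map_sum, coeff_sum]
  refine Finset.sum_congr rfl fun β _ => ?_
  have : subst Λ (C (coeff β G)) = C (coeff β G) := (subst Λ).commutes _
  rw [map_mul, this, coeff_C_mul, coeff_monomial_subst]

/-- the ratios of the coefficients of `G (Λ U)` -/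
theorem subst_height (ι κ : Type) [Fintype ι] [DecidableEq ι] [Fintype κ] [DecidableEq κ] (e : ℕ) :
    ∃ C : ℝ, 0 ≤ C ∧ ∀ (G : MvPolynomial κ Qbar), G.IsHomogeneous e →
      ∀ (Λ : κ → ι → Qbar) (E E' : ι →₀ ℕ), E ∈ Ex ι e → E' ∈ Ex ι e →
        coeff E' (subst Λ G) ≠ 0 → ah (coeff E (subst Λ G) / coeff E' (subst Λ G)) ≤
          C * (1 + cah G + ∑ p : κ × ι, ah (Λ p.1 p.2)) := by
  choose M hM0 hM using fun q : (κ →₀ ℕ) × (ι →₀ ℕ) => ah_value (genc (κ := κ) (ι := ι) q.1 q.2)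
  set M' : ℝ := Real.log (Ex κ e).card + (Ex κ e).card +
    ∑ β ∈ Ex κ e, ∑ E ∈ Ex ι e, M (β, E) with hM'
  have hl0 : 0 ≤ Real.log (Ex κ e).card := Real.log_natCast_nonneg _
  have hM0' : 0 ≤ ∑ β ∈ Ex κ e, ∑ E ∈ Ex ι e, M (β, E) :=
    Finset.sum_nonneg fun β _ => Finset.sum_nonneg fun E _ => hM0 _
  have hc0 : (0 : ℝ) ≤ (Ex κ e).card := Nat.cast_nonneg _
  refine ⟨2 * M', by linarith, fun G hG Λ E E' hE hE' h0 => ?_⟩
  set T : ℝ := ∑ p : κ × ι, ah (Λ p.1 p.2) with hT
  have hT0 : 0 ≤ T := Finset.sum_nonneg fun p _ => ah_nonneg _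
  have hG0 := cah_nonneg G
  obtain ⟨β₀, hβ₀⟩ : ∃ β₀ : κ →₀ ℕ, coeff β₀ G ≠ 0 := by
    by_contra hc
    push Not at hc
    have h1 : G = 0 := by
      ext β
      rw [hc β, coeff_zero]
    rw [h1, map_zero, coeff_zero] at h0
    exact h0 rfl
  have key : ∀ E ∈ Ex ι e, ah (coeff E (subst Λ G) / coeff β₀ G) ≤ M' * (1 + cah G + T) := by
    intro E hE
    rw [coeff_subst Λ hG, Finset.sum_div]
    refine (ah_sum_le _ _).trans ?_
    have h1 : ∀ β ∈ Ex κ e, ah (coeff β G * aeval (fun p : κ × ι => Λ p.1 p.2) (genc β E) /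
        coeff β₀ G) ≤ (1 + ∑ E ∈ Ex ι e, M (β, E)) * (1 + cah G + T) := by
      intro β _
      rw [mul_div_right_comm]
      refine (ah_mul_le _ _).trans ?_
      have h2 := cah_ratio G β β₀ hβ₀
      have h3 := hM (β, E) (fun p : κ × ι => Λ p.1 p.2)
      have h4 : M (β, E) ≤ ∑ E ∈ Ex ι e, M (β, E) :=
        Finset.single_le_sum (f := fun E => M (β, E)) (fun E _ => hM0 _) hE
      have h5 : M (β, E) * (1 + T) ≤ (∑ E ∈ Ex ι e, M (β, E)) * (1 + cah G + T) :=
        mul_le_mul h4 (by linarith) (by linarith) ((hM0 _).trans h4)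
      have h6 : ah (aeval (fun p : κ × ι => Λ p.1 p.2) (genc β E)) ≤ M (β, E) * (1 + T) := h3
      linarith
    have h2 := Finset.sum_le_sum h1
    have h3 : ∑ β ∈ Ex κ e, (1 + ∑ E ∈ Ex ι e, M (β, E)) * (1 + cah G + T) =
        ((Ex κ e).card + ∑ β ∈ Ex κ e, ∑ E ∈ Ex ι e, M (β, E)) * (1 + cah G + T) := by
      rw [← Finset.sum_mul, Finset.sum_add_distrib, Finset.sum_const, nsmul_eq_mul, mul_one]
    rw [h3] at h2
    have h4 : Real.log (Ex κ e).card ≤ Real.log (Ex κ e).card * (1 + cah G + T) :=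
      le_mul_of_one_le_right hl0 (by linarith)
    have h5 : M' * (1 + cah G + T) = Real.log (Ex κ e).card * (1 + cah G + T) +
        ((Ex κ e).card + ∑ β ∈ Ex κ e, ∑ E ∈ Ex ι e, M (β, E)) * (1 + cah G + T) := by
      rw [hM']
      ring
    rw [h5]
    exact add_le_add h4 h2
  have h1 : coeff E (subst Λ G) / coeff E' (subst Λ G) =
      (coeff E (subst Λ G) / coeff β₀ G) / (coeff E' (subst Λ G) / coeff β₀ G) :=
    (div_div_div_cancel_right₀ hβ₀ _ _).symm
  rw [h1]
  refine (ah_div_le _ _).trans ?_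
  have h2 := key E hE
  have h3 := key E' hE'
  linarith

section mk

variable {K : Type} [Field K]

/-- the form with given coefficients -/
noncomputable def mkF {e : ℕ} (q : Ex ι e → K) : MvPolynomial ι K := ∑ E, monomial E.1 (q E)

theorem mkF_homog {e : ℕ} (q : Ex ι e → K) : (mkF q).IsHomogeneous e := by
  refine IsHomogeneous.sum _ _ _ fun E _ => isHomogeneous_monomial _ ?_
  rw [Finsupp.degree_eq_sum]
  exact mem_Ex.1 E.2

theorem mkF_eval {e : ℕ} (q : Ex ι e → K) (u : ι → K) :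
    eval u (mkF q) = ∑ E, q E * ∏ i, u i ^ (E.1 i) := by
  unfold mkF
  rw [map_sum]
  refine Finset.sum_congr rfl fun E _ => ?_
  rw [eval_monomial, Finsupp.prod_fintype _ _ (fun i => pow_zero _)]

theorem mkF_coeff {e : ℕ} (q : Ex ι e → K) (E : Ex ι e) : coeff E.1 (mkF q) = q E := by
  unfold mkF
  rw [coeff_sum, Finset.sum_eq_single E]
  · rw [coeff_monomial, if_pos rfl]
  · intro E' _ hE'
    rw [coeff_monomial, if_neg fun h => hE' (Subtype.ext h)]
  · intro h
    exact absurd (Finset.mem_univ E) h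

theorem mkF_support {e : ℕ} (q : Ex ι e → K) (E : ι →₀ ℕ) (hE : E ∈ (mkF q).support) :
    E ∈ Ex ι e := by
  rw [mem_Ex]
  have h1 : coeff E (mkF q) ≠ 0 := mem_support_iff.1 hE
  have h2 : E.degree = e := by
    by_contra hc
    exact h1 ((mkF_homog q).coeff_eq_zero hc)
  rw [← h2, Finsupp.degree_eq_sum]

theorem mkF_height [NumberField K] {e : ℕ} (q : Ex ι e → K) :
    coefHeight (mkF q) ≤ ∑ E, logHeight₁ (q E) := by
  unfold coefHeight
  have h1 : (fun β : (mkF q).support => coeff β.1 (mkF q)) =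
      q ∘ fun β : (mkF q).support => ⟨β.1, mkF_support q β.1 β.2⟩ := by
    funext β
    exact mkF_coeff q ⟨β.1, mkF_support q β.1 β.2⟩
  rw [h1]
  exact (logHeight_comp_le _ q).trans (Run7.h128.AU.logHeight_le_sum q)

end mk

/-- **Descent of the relation `G (Λ u) = 0`, `u` over `K`, to relations over `K`.** -/
theorem descend (ι κ : Type) [Fintype ι] [DecidableEq ι] [Fintype κ] [DecidableEq κ] (e : ℕ)
    (K : Type) [Field K] [NumberField K] [Algebra K Qbar] :
    ∃ C : ℝ, 0 ≤ C ∧ ∀ (G : MvPolynomial κ Qbar), G.IsHomogeneous e → ∀ (Λ : κ → ι → Qbar),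
      ∃ F : Ex ι e → MvPolynomial ι K, (∀ b, (F b).IsHomogeneous e) ∧
        (∀ b, coefHeight (F b) ≤ C * (1 + cah G + ∑ p : κ × ι, ah (Λ p.1 p.2))) ∧
        ∀ u : ι → K, eval (fun c => ∑ i, Λ c i * algebraMap K Qbar (u i)) G = 0 ↔
          ∀ b, eval u (F b) = 0 := by
  obtain ⟨C₁, hC₁, h1⟩ := subst_height ι κ e
  obtain ⟨C₂, hC₂, h2⟩ := exists_descent (Ex ι e)
  have hK := fr_pos K
  refine ⟨finrank ℚ K * ((Fintype.card (Ex ι e)) * (C₂ * (1 + C₁))), by positivity,
    fun G hG Λ => ?_⟩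
  set T : ℝ := 1 + cah G + ∑ p : κ × ι, ah (Λ p.1 p.2) with hT
  have hT1 : 1 ≤ T := by
    have h3 := cah_nonneg G
    have h4 : 0 ≤ ∑ p : κ × ι, ah (Λ p.1 p.2) := Finset.sum_nonneg fun p _ => ah_nonneg _
    linarith
  obtain ⟨q, hq1, hq2, hq3⟩ := h2 K (fun E : Ex ι e => coeff E.1 (subst Λ G)) (C₁ * T)
    (by positivity) (fun E E' h0 => h1 G hG Λ E.1 E'.1 E.2 E'.2 h0)
  have hev : ∀ u : ι → K, eval (fun c => ∑ i, Λ c i * algebraMap K Qbar (u i)) G =
      ∑ E : Ex ι e, algebraMap K Qbar (∏ i, u i ^ (E.1 i)) * coeff E.1 (subst Λ G) := by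
    intro u
    rw [← eval_subst Λ, eval_homog (subst_homog Λ hG),
      ← Finset.sum_coe_sort (Ex ι e) (fun E => coeff E (subst Λ G) *
        ∏ i, algebraMap K Qbar (u i) ^ (E i))]
    refine Finset.sum_congr rfl fun E _ => ?_
    rw [map_prod, mul_comm]
    congr 1
    exact Finset.prod_congr rfl fun i _ => by rw [map_pow]
  refine ⟨fun b => mkF (q b), fun b => mkF_homog _, fun b => ?_, fun u => ⟨fun h b => ?_,
    fun h => ?_⟩⟩
  · refine (mkF_height _).trans ?_
    have h3 : ∀ E : Ex ι e, logHeight₁ (q b E) ≤ finrank ℚ K * (C₂ * (1 + C₁) * T) := by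
      intro E
      have h4 := hq3 b E
      rw [ah_map K (algebraMap K Qbar), div_le_iff₀ hK] at h4
      refine h4.trans ?_
      rw [mul_comm (finrank ℚ K : ℝ)]
      refine mul_le_mul_of_nonneg_right ?_ hK.le
      have h5 : 1 + C₁ * T ≤ (1 + C₁) * T := by linarith
      calc C₂ * (1 + C₁ * T) ≤ C₂ * ((1 + C₁) * T) := mul_le_mul_of_nonneg_left h5 hC₂
        _ = C₂ * (1 + C₁) * T := by ring
    refine (Finset.sum_le_sum fun E _ => h3 E).trans (le_of_eq ?_)
    rw [Finset.sum_const, Finset.card_univ, nsmul_eq_mul]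
    ring
  · rw [hev] at h
    show eval u (mkF (q b)) = 0
    rw [mkF_eval]
    exact hq2 (fun E => ∏ i, u i ^ (E.1 i)) h b
  · rw [hev]
    have h3 : ∀ E : Ex ι e, algebraMap K Qbar (∏ i, u i ^ (E.1 i)) * coeff E.1 (subst Λ G) =
        ∑ b : Ex ι e, algebraMap K Qbar (q b E * ∏ i, u i ^ (E.1 i)) *
          coeff b.1 (subst Λ G) := by
      intro E
      conv_lhs => rw [hq1 E]
      rw [Finset.mul_sum]
      refine Finset.sum_congr rfl fun b _ => ?_
      rw [map_mul]
      ring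
    rw [Finset.sum_congr rfl fun E _ => h3 E, Finset.sum_comm]
    refine Finset.sum_eq_zero fun b _ => ?_
    rw [← Finset.sum_mul, ← map_sum]
    have h4 : ∑ E : Ex ι e, q b E * ∏ i, u i ^ (E.1 i) = 0 := by
      rw [← mkF_eval]
      exact h b
    rw [h4, map_zero, zero_mul]

end Run7.h128.BD
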