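import Pool.Agent.Run7.h128.BD.Forms
import Pool.Agent.Run7.h128.AU.Main
import Pool.Agent.Run7.h128.FG.Cur

/-!
The one-parameter family of points through a combination of almost units with algebraic
coefficients of small height.
-/

set_option autoImplicit false
set_option linter.unusedSectionVars false

namespace Run7.h128.BD

open NumberField Height Module MvPolynomial Finset Filter
open Pool.Agent.Helper259.AbsHt
open Run7.h128.AU (Ex mem_Ex eval_homog coefHeight tau Rel key)
open Run7.h128.FG (cur)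
open Pool.Agent.W180.OP (Pl)

theorem keyQ {K : Type} [Field K] [NumberField K] [Algebra K Qbar] {ι κ : Type} [Fintype ι]
    [DecidableEq ι] [Fintype κ] [DecidableEq κ] (𝒰 : Ultrafilter ℕ) (S : Finset (Pl K))
    (hinf : ∀ w, Sum.inl w ∈ S) {m : ℕ} (e : Fin m → ℕ) (G : ℕ → Fin m → MvPolynomial κ Qbar)
    (hG : ∀ s k, (G s k).IsHomogeneous (e k)) (Λ : ℕ → κ → ι → Qbar) (u : ι → ℕ → K)
    (A : ℕ → ℝ) (hA : ∀ s, 1 ≤ A s)
    (hh : ∀ s k, 1 + cah (G s k) + ∑ p : κ × ι, ah (Λ s p.1 p.2) ≤ A s)
    (ht : ∀ s i j, u i s ≠ 0 → u j s ≠ 0 → tau S (u i s / u j s) ≤ A s)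
    (h0 : ∀ s k, eval (fun c => ∑ i, Λ s c i * algebraMap K Qbar (u i s)) (G s k) = 0) :
    ∃ (I : Finset ι) (l : ι → ℕ), (∀ᶠ s in (𝒰 : Filter ℕ), ∀ i, u i s ≠ 0 ↔ i ∈ I) ∧
      (∀ᶠ s in (𝒰 : Filter ℕ), ∀ (t : K) (k : Fin m),
        eval (fun c => ∑ i, Λ s c i * algebraMap K Qbar (t ^ (l i) * u i s)) (G s k) = 0) ∧
      ∀ i ∈ I, ∀ j ∈ I, l i = l j → Rel 𝒰 A (u i) (u j) := by
  classical
  choose C hC0 hC using fun k : Fin m => descend ι κ (e k) K
  choose F hF1 hF2 hF3 using fun (s : ℕ) (k : Fin m) => hC k (G s k) (hG s k) (Λ s)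
  set P : Type := Σ k : Fin m, Ex ι (e k) with hP
  set eq : P ≃ Fin (Fintype.card P) := Fintype.equivFin P with heq
  set M : ℝ := 1 + ∑ k, C k with hM
  have hCs : 0 ≤ ∑ k, C k := Finset.sum_nonneg fun k _ => hC0 k
  have hM1 : 1 ≤ M := by linarith
  have hAM : ∀ s, A s ≤ M * A s := fun s => le_mul_of_one_le_left (by linarith [hA s]) hM1
  have hid : ∀ (y : ι → K), (fun a => ∑ i ∈ univ.filter (fun i => id i = a), y i) = y := by
    intro y
    funext a
    rw [Finset.sum_filter]
    simp
  obtain ⟨I, l, h1, h2, h3⟩ := key 𝒰 S hinf (fun j => e (eq.symm j).1)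
    (fun s j => F s (eq.symm j).1 (eq.symm j).2) (fun s j => hF1 s _ _) (id : ι → ι) u
    (fun s => M * A s) (fun s => (hA s).trans (hAM s))
    (Eventually.of_forall fun s j => by
      refine (hF2 s _ _).trans ?_
      have h4 : C (eq.symm j).1 ≤ M := by
        have := Finset.single_le_sum (f := C) (fun k _ => hC0 k) (Finset.mem_univ (eq.symm j).1)
        linarith
      exact mul_le_mul h4 (hh s _) (by
        have h5 := cah_nonneg (G s (eq.symm j).1)
        have h6 : 0 ≤ ∑ p : κ × ι, ah (Λ s p.1 p.2) := Finset.sum_nonneg fun p _ => ah_nonneg _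
        linarith) (by linarith))
    (Eventually.of_forall fun s i j hi hj => (ht s i j hi hj).trans (hAM s))
    (Eventually.of_forall fun s j => by
      rw [hid]
      exact (hF3 s _ _).1 (h0 s _) _)
  refine ⟨I, l, h1, ?_, fun i hi j hj hij => ?_⟩
  · filter_upwards [h2] with s hs t k
    refine (hF3 s k (fun i => t ^ (l i) * u i s)).2 fun b => ?_
    have h4 := hs t (eq ⟨k, b⟩)
    rw [hid] at h4
    have h5 : ∀ p : P, p = ⟨k, b⟩ → eval (fun i => t ^ (l i) * u i s) (F s p.1 p.2) = 0 →
        eval (fun i => t ^ (l i) * u i s) (F s k b) = 0 := by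
      rintro p rfl h
      exact h
    exact h5 (eq.symm (eq ⟨k, b⟩)) (Equiv.symm_apply_apply _ _) h4
  · obtain ⟨C', hC'⟩ := h3 i hi j hj hij
    refine ⟨C' * M, ?_⟩
    filter_upwards [hC'] with s hs
    rw [mul_assoc]
    exact hs

section const

variable {K : Type} [Field K] [NumberField K] [Algebra K Qbar] {ι : Type} [Fintype ι] {n : ℕ}

/-- the terms -/
noncomputable def trm (lam : ι → Fin (n + 1) → Qbar) (u : ι → K) (i : ι) (a : Fin (n + 1)) :
    Qbar := lam i a * algebraMap K Qbar (u i)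

theorem cur_coeff {R : Type} [CommRing R] (c : ι → Fin (n + 1) → R) (l : ι → ℕ)
    (a : Fin (n + 1)) (w : ℕ) : (cur c l a).coeff w = ∑ i ∈ univ.filter (fun i => l i = w), c i a := by
  classical
  unfold cur
  rw [Polynomial.finsetSum_coeff, Finset.sum_filter]
  refine Finset.sum_congr rfl fun j _ => ?_
  rw [Polynomial.coeff_C_mul, Polynomial.coeff_X_pow]
  by_cases h : l j = w
  · rw [if_pos h, if_pos h.symm, mul_one]
  · rw [if_neg h, if_neg (Ne.symm h), mul_zero]

theorem cur_eval {R : Type} [CommRing R] (c : ι → Fin (n + 1) → R) (l : ι → ℕ)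
    (a : Fin (n + 1)) (t : R) : (cur c l a).eval t = ∑ i, t ^ (l i) * c i a := by
  unfold cur
  rw [Polynomial.eval_finsetSum]
  refine Finset.sum_congr rfl fun j _ => ?_
  rw [Polynomial.eval_mul, Polynomial.eval_C, Polynomial.eval_pow, Polynomial.eval_X, mul_comm]

/-- the bound for the height if the curve is constant -/
theorem height_of_constQ (l : ι → ℕ) (lam : ι → Fin (n + 1) → Qbar) (u : ι → K)
    (hx : (fun a => ∑ i, trm lam u i a) ≠ 0)
    (hc : ∀ a b, cur (trm lam u) l a * Polynomial.C (∑ i, trm lam u i b) =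
      cur (trm lam u) l b * Polynomial.C (∑ i, trm lam u i a)) (B : ℝ) (hB0 : 0 ≤ B)
    (hB : ∀ i j, u i ≠ 0 → u j ≠ 0 → l i = l j → logHeight₁ (u i / u j) ≤ B) :
    absLogHeight (fun a => ∑ i, trm lam u i a) ≤
      (n + 1) * (Real.log (Fintype.card ι) + Fintype.card ι * B) + ∑ i, ∑ a, ah (lam i a) := by
  classical
  obtain ⟨b₀, hb₀⟩ := Function.ne_iff.1 hx
  simp only [Pi.zero_apply] at hb₀
  obtain ⟨w, hw⟩ : ∃ w, (cur (trm lam u) l b₀).coeff w ≠ 0 := by
    by_contra h
    push Not at h
    have h0 : cur (trm lam u) l b₀ = 0 := Polynomial.ext fun k => by rw [h k, Polynomial.coeff_zero]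
    apply hb₀
    have h1 := cur_eval (trm lam u) l b₀ 1
    rw [h0, Polynomial.eval_zero] at h1
    simp only [one_pow, one_mul] at h1
    exact h1.symm
  obtain ⟨i₀, hi₀, hi₀'⟩ : ∃ i₀, l i₀ = w ∧ u i₀ ≠ 0 := by
    by_contra h
    push Not at h
    apply hw
    rw [cur_coeff]
    refine Finset.sum_eq_zero fun j hj => ?_
    unfold trm
    rw [h j (Finset.mem_filter.1 hj).2, map_zero, mul_zero]
  have hui : algebraMap K Qbar (u i₀) ≠ 0 := (map_ne_zero _).2 hi₀'
  set c : Qbar := (∑ i, trm lam u i b₀) / (cur (trm lam u) l b₀).coeff w with hcdef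
  have hc0 : c ≠ 0 := div_ne_zero hb₀ hw
  have hxc : (fun a => ∑ i, trm lam u i a) = (c * algebraMap K Qbar (u i₀)) •
      fun a => (cur (trm lam u) l a).coeff w / algebraMap K Qbar (u i₀) := by
    funext a
    have h1 := congrArg (fun p => Polynomial.coeff p w) (hc a b₀)
    simp only [Polynomial.coeff_mul_C] at h1
    rw [Pi.smul_apply, smul_eq_mul, hcdef]
    field_simp
    linear_combination -h1
  rw [hxc, absLogHeight_smul _ (mul_ne_zero hc0 hui)]
  refine (absHeight_le_sum _).trans ?_
  have hterm : ∀ a, ah ((cur (trm lam u) l a).coeff w / algebraMap K Qbar (u i₀)) ≤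
      (Real.log (Fintype.card ι) + Fintype.card ι * B) + ∑ i, ah (lam i a) := by
    intro a
    rw [cur_coeff, Finset.sum_div]
    refine (ah_sum_le _ _).trans ?_
    have hcard := Finset.card_le_univ (univ.filter fun i => l i = w)
    have h1 : Real.log (univ.filter fun i => l i = w).card ≤ Real.log (Fintype.card ι) := by
      refine Real.log_le_log ?_ (by exact_mod_cast hcard)
      have : 0 < (univ.filter fun i => l i = w).card :=
        Finset.card_pos.2 ⟨i₀, Finset.mem_filter.2 ⟨Finset.mem_univ _, hi₀⟩⟩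
      exact_mod_cast this
    have h2 : ∀ i ∈ univ.filter (fun i => l i = w),
        ah (trm lam u i a / algebraMap K Qbar (u i₀)) ≤ B + ah (lam i a) := by
      intro i hi
      by_cases h0 : u i = 0
      · unfold trm
        rw [h0, map_zero, mul_zero, zero_div, ah_zero]
        linarith [ah_nonneg (lam i a)]
      · have h3 := hB i i₀ h0 hi₀' (by rw [(Finset.mem_filter.1 hi).2, hi₀])
        have h4 : trm lam u i a / algebraMap K Qbar (u i₀) =
            algebraMap K Qbar (u i / u i₀) * lam i a := by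
          unfold trm
          rw [map_div₀]
          ring
        rw [h4]
        refine (ah_mul_le _ _).trans (add_le_add ?_ le_rfl)
        rw [ah_map K (algebraMap K Qbar), div_le_iff₀ (fr_pos K)]
        have h5 : (1 : ℝ) ≤ finrank ℚ K := by
          exact_mod_cast Nat.succ_le_of_lt (Module.finrank_pos (R := ℚ) (M := K))
        exact h3.trans (le_mul_of_one_le_right hB0 h5)
    have h3 := Finset.sum_le_sum h2
    rw [Finset.sum_add_distrib, Finset.sum_const, nsmul_eq_mul] at h3
    have h4 : ((univ.filter fun i => l i = w).card : ℝ) * B ≤ Fintype.card ι * B :=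
      mul_le_mul_of_nonneg_right (by exact_mod_cast hcard) hB0
    have h5 : ∑ i ∈ univ.filter (fun i => l i = w), ah (lam i a) ≤ ∑ i, ah (lam i a) :=
      Finset.sum_le_sum_of_subset_of_nonneg (Finset.subset_univ _) fun i _ _ => ah_nonneg _
    linarith
  refine (Finset.sum_le_sum fun a _ => hterm a).trans (le_of_eq ?_)
  rw [Finset.sum_add_distrib, Finset.sum_const, Finset.card_univ, Fintype.card_fin, nsmul_eq_mul,
    Finset.sum_comm]
  push_cast
  ring

end const

/-- an identity for all parameters in an infinite field -/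
theorem poly_eq_of_K {K : Type} [Field K] [NumberField K] [Algebra K Qbar]
    (p q : Polynomial Qbar) (h : ∀ t : K, p.eval (algebraMap K Qbar t) =
      q.eval (algebraMap K Qbar t)) : p = q := by
  refine Polynomial.eq_of_infinite_eval_eq p q ?_
  have h1 : (Set.range (algebraMap K Qbar)).Infinite :=
    Set.infinite_range_of_injective (algebraMap K Qbar).injective
  exact h1.mono (by rintro _ ⟨t, rfl⟩; exact h t)

theorem aeval_eval {n : ℕ} (p : Fin (n + 1) → Polynomial Qbar)
    (G : MvPolynomial (Fin (n + 1)) Qbar) (t : Qbar) :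
    (aeval p G : Polynomial Qbar).eval t = eval (fun a => (p a).eval t) G := by
  have := MvPolynomial.comp_aeval_apply (R := Qbar) p
    (Polynomial.aeval t : Polynomial Qbar →ₐ[Qbar] Qbar) G
  rw [Polynomial.coe_aeval_eq_eval] at this
  rw [this, MvPolynomial.aeval_def, MvPolynomial.eval, MvPolynomial.coe_eval₂Hom]
  rfl

end Run7.h128.BD
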