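import Pool.Agent.Run7.h128.BD.FinII

/-!
Proximity functions; the inequality in the form of Vojta.
-/

set_option autoImplicit false
set_option linter.unusedSectionVars false

namespace Run7.h128.BD

open NumberField Height Module MvPolynomial Finset
open Run7.h128.AU (outside outside_nonneg exists_fin le_sup)
open Run7.h128.BL (valDist valDist_nonneg)

open Classical in
/-- The proximity function `m_S(D, x)` of the divisor `T = 0`, relative to `k`: the sum of the local
heights `δ log max_a |x_a|_w - log |T(x)|_w` over the infinite places `w` of `L` and the finite places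
above the places in `S`. -/
noncomputable def prox (k : Type) {K L : Type} [Field k] [Field K] [NumberField K] [Field L]
    [NumberField L] [Algebra k L] [Algebra K L] {n : ℕ} (S : Finset (FinitePlace K)) (δ : ℕ)
    (T : MvPolynomial (Fin (n + 1)) k) (x : Fin (n + 1) → L) : ℝ :=
  (∑ w : InfinitePlace L, (w.mult : ℝ) * (δ * Real.log (⨆ a, w (x a)) - Real.log (w (aeval x T))) +
    ∑ᶠ w : FinitePlace L, if below K w ∈ S then
      δ * Real.log (⨆ a, w (x a)) - Real.log (w (aeval x T)) else 0) / finrank k L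

open Classical in
/-- The sum over the finite places `w` of `L` which are not above `S` of
`log (max_p |u_p|_w / max_a |x_a|_w)`, relative to `k`: the common factor of the coordinates `x_a` in
comparison with the numbers `u_p`. -/
noncomputable def cont (k : Type) {K L ι : Type} [Field k] [Field K] [NumberField K] [Field L]
    [NumberField L] [Algebra k L] [Algebra K L] {n : ℕ} (S : Finset (FinitePlace K))
    (u : ι → K) (x : Fin (n + 1) → L) : ℝ :=
  (∑ᶠ w : FinitePlace L, if below K w ∈ S then 0 else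
    Real.log (⨆ p, w (algebraMap K L (u p))) - Real.log (⨆ a, w (x a))) / finrank k L

section ultra

variable {L : Type} [Field L] [NumberField L]

theorem fin_sum_le {ι : Type} (w : FinitePlace L) (s : Finset ι) (f : ι → L) (B : ℝ) (hB : 0 ≤ B)
    (h : ∀ i ∈ s, w (f i) ≤ B) : w (∑ i ∈ s, f i) ≤ B := by
  classical
  induction s using Finset.induction_on with
  | empty =>
    rw [Finset.sum_empty, map_zero]
    exact hB
  | insert j s hj ih =>
    rw [Finset.sum_insert hj]
    refine (FinitePlace.add_le w _ _).trans (max_le (h j (Finset.mem_insert_self j s)) ?_)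
    exact ih fun i hi => h i (Finset.mem_insert_of_mem hi)

theorem fin_int_le (w : FinitePlace L) {a : L} (ha : IsIntegral ℤ a) : w a ≤ 1 := by
  have h1 : w ((⟨a, ha⟩ : 𝓞 L) : L) ≤ 1 :=
    FinitePlace.norm_embedding_eq w ((⟨a, ha⟩ : 𝓞 L) : L) ▸
      FinitePlace.norm_le_one L w.maximalIdeal ⟨a, ha⟩
  exact h1

/-- the value of a form with integral coefficients -/
theorem fin_form_le {k : Type} [Field k] [Algebra k L] {n δ : ℕ} (w : FinitePlace L)
    (T : MvPolynomial (Fin (n + 1)) k) (hT : T.IsHomogeneous δ)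
    (hint : ∀ β, IsIntegral ℤ (coeff β T)) (x : Fin (n + 1) → L) :
    w (aeval x T) ≤ (⨆ a, w (x a)) ^ δ := by
  have hX0 : 0 ≤ ⨆ a, w (x a) := (apply_nonneg w (x 0)).trans (le_sup w x 0)
  rw [aeval_def, eval₂_eq']
  refine fin_sum_le w _ _ _ (pow_nonneg hX0 _) fun β hβ => ?_
  have h1 : w (algebraMap k L (coeff β T)) ≤ 1 := by
    refine fin_int_le w ?_
    exact (hint β).map ((algebraMap k L).toIntAlgHom)
  have h2 : ∑ i, β i = δ := by
    have h3 : β.degree = δ := by
      by_contra hc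
      exact (MvPolynomial.mem_support_iff.1 hβ) (hT.coeff_eq_zero hc)
    rw [← h3, Finsupp.degree_eq_sum]
  rw [map_mul, map_prod, ← h2, ← Finset.prod_pow_eq_pow_sum]
  have h3 : ∏ i, w (x i ^ β i) ≤ ∏ i, (⨆ a, w (x a)) ^ β i := by
    refine Finset.prod_le_prod (fun i _ => apply_nonneg w _) fun i _ => ?_
    rw [map_pow]
    exact pow_le_pow_left₀ (apply_nonneg w _) (le_sup w x i) _
  calc w (algebraMap k L (coeff β T)) * ∏ i, w (x i ^ β i)
      ≤ 1 * ∏ i, (⨆ a, w (x a)) ^ β i :=
        mul_le_mul h1 h3 (Finset.prod_nonneg fun i _ => apply_nonneg w _) zero_le_one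
    _ = ∏ i, (⨆ a, w (x a)) ^ β i := one_mul _

end ultra

/-- the distance of the norm of `T(x)` from the units in terms of the proximity function -/
theorem valDist_le_prox {k K L : Type} [Field k] [NumberField k] [Field K] [NumberField K] [Field L]
    [NumberField L] [Algebra k L] [Algebra K L] {n s δ : ℕ} (S : Finset (FinitePlace K))
    (T : MvPolynomial (Fin (n + 1)) k) (hT : T.IsHomogeneous δ)
    (hint : ∀ β, IsIntegral ℤ (coeff β T)) (lam : Fin s → Fin (n + 1) → L)
    (hlam : ∀ j a, IsIntegral ℤ (lam j a)) (u : Fin s → Fin (n + 1) → K) (x : Fin (n + 1) → L)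
    (hxu : ∀ a, x a = ∑ j, lam j a * algebraMap K L (u j a)) (hx : x ≠ 0) (hTx : aeval x T ≠ 0) :
    valDist S (finrank K L * δ) (fun p : Fin s × Fin (n + 1) => u p.1 p.2)
        (Algebra.norm K (aeval x T)) ≤
      finrank k L * (δ * ht k x - prox k S δ T x +
        δ * cont k S (fun p : Fin s × Fin (n + 1) => u p.1 p.2) x) := by
  classical
  set u' : Fin s × Fin (n + 1) → K := fun p => u p.1 p.2 with hu'
  set τ : L := aeval x T with hτ
  obtain ⟨T₀, hT₀⟩ := exists_fin (K := L) (fun o : Option (Fin (n + 1) ⊕ (Fin s × Fin (n + 1))) =>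
    o.elim τ (Sum.elim x fun p => algebraMap K L (u' p)))
  have h1 : ∀ w, w ∉ T₀ → w τ = 1 := fun w hw => hT₀ w hw none hTx
  have h2 : ∀ w, w ∉ T₀ → ∀ a, x a ≠ 0 → w (x a) = 1 := fun w hw a ha =>
    hT₀ w hw (some (Sum.inl a)) ha
  have h3 : ∀ w, w ∉ T₀ → ∀ p, u' p ≠ 0 → w (algebraMap K L (u' p)) = 1 := fun w hw p hp =>
    hT₀ w hw (some (Sum.inr p)) ((map_ne_zero _).2 hp)
  obtain ⟨a₀, ha₀⟩ := Function.ne_iff.1 hx
  have hu0 : ∃ p, u' p ≠ 0 := by
    by_contra h
    push Not at h
    apply ha₀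
    rw [hxu a₀]
    refine Finset.sum_eq_zero fun j _ => ?_
    have h4 : u j a₀ = 0 := h (j, a₀)
    rw [h4, map_zero, mul_zero]
  obtain ⟨p₀, hp₀⟩ := hu0
  have hXpos : ∀ w : FinitePlace L, 0 < ⨆ a, w (x a) := fun w =>
    sup_pos (fun a => w a) (fun a ha => FinitePlace.pos_iff.2 ha) x hx
  have hXU : ∀ w : FinitePlace L, (⨆ a, w (x a)) ≤ ⨆ p, w (algebraMap K L (u' p)) := by
    intro w
    have hU0 : 0 ≤ ⨆ p, w (algebraMap K L (u' p)) :=
      (apply_nonneg w _).trans (le_sup w (fun p => algebraMap K L (u' p)) p₀)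
    refine ciSup_le fun a => ?_
    rw [hxu a]
    refine fin_sum_le w _ _ _ hU0 fun j _ => ?_
    rw [map_mul]
    calc w (lam j a) * w (algebraMap K L (u j a)) ≤ 1 * w (algebraMap K L (u j a)) :=
          mul_le_mul_of_nonneg_right (fin_int_le w (hlam j a)) (apply_nonneg w _)
      _ = w (algebraMap K L (u' (j, a))) := one_mul _
      _ ≤ _ := le_sup w (fun p => algebraMap K L (u' p)) (j, a)
  have hkL := finrank_pos'' k L
  -- the local terms
  have hloc : ∀ w : FinitePlace L, |Real.log (w τ) -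
      δ * Real.log (⨆ p, w (algebraMap K L (u' p)))| =
      (δ * Real.log (⨆ a, w (x a)) - Real.log (w τ)) +
        δ * (Real.log (⨆ p, w (algebraMap K L (u' p))) - Real.log (⨆ a, w (x a))) := by
    intro w
    have h4 : Real.log (w τ) ≤ δ * Real.log (⨆ a, w (x a)) := by
      rw [← Real.log_pow]
      exact Real.log_le_log (FinitePlace.pos_iff.2 hTx) (fin_form_le w T hT hint x)
    have h5 : Real.log (⨆ a, w (x a)) ≤ Real.log (⨆ p, w (algebraMap K L (u' p))) :=
      Real.log_le_log (hXpos w) (hXU w)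
    have h6 : (δ : ℝ) * Real.log (⨆ a, w (x a)) ≤
        δ * Real.log (⨆ p, w (algebraMap K L (u' p))) :=
      mul_le_mul_of_nonneg_left h5 (Nat.cast_nonneg δ)
    rw [abs_of_nonpos (by linarith)]
    ring
  have hsupX : ∀ w, w ∉ T₀ → (⨆ a, w (x a)) = 1 := fun w hw =>
    Run7.h128.AU.sup_one w x (h2 w hw) a₀ ha₀
  have hsupU : ∀ w : FinitePlace L, w ∉ T₀ → (⨆ p, w (algebraMap K L (u' p))) = 1 := fun w hw =>
    Run7.h128.AU.sup_one w (fun p => algebraMap K L (u' p)) (fun p hp => h3 w hw p (by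
      intro h
      exact hp (by rw [h, map_zero]))) p₀ ((map_ne_zero _).2 hp₀)
  -- the finite sums
  have hprox : (finrank k L : ℝ) * prox k S δ T x =
      ∑ w : InfinitePlace L, (w.mult : ℝ) * (δ * Real.log (⨆ a, w (x a)) - Real.log (w τ)) +
      ∑ w ∈ T₀, if below K w ∈ S then δ * Real.log (⨆ a, w (x a)) - Real.log (w τ) else 0 := by
    unfold prox
    rw [mul_div_cancel₀ _ hkL.ne']
    congr 1
    refine finsum_eq_sum_of_support_subset _ fun w hw => ?_
    by_contra h
    apply hw
    show (if below K w ∈ S then δ * Real.log (⨆ a, w (x a)) - Real.log (w τ) else 0) = 0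
    rw [hsupX w h, h1 w h, Real.log_one, mul_zero, sub_zero, ite_self]
  have hcont : (finrank k L : ℝ) * cont k S u' x =
      ∑ w ∈ T₀, if below K w ∈ S then 0 else
        Real.log (⨆ p, w (algebraMap K L (u' p))) - Real.log (⨆ a, w (x a)) := by
    unfold cont
    rw [mul_div_cancel₀ _ hkL.ne']
    refine finsum_eq_sum_of_support_subset _ fun w hw => ?_
    by_contra h
    apply hw
    show (if below K w ∈ S then 0 else
        Real.log (⨆ p, w (algebraMap K L (u' p))) - Real.log (⨆ a, w (x a))) = 0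
    rw [hsupX w h, hsupU w h, Real.log_one, sub_zero, ite_self]
  have hht : (finrank k L : ℝ) * ht k x =
      ∑ w : InfinitePlace L, (w.mult : ℝ) * Real.log (⨆ a, w (x a)) +
      ∑ w ∈ T₀, Real.log (⨆ a, w (x a)) := by
    unfold ht
    rw [mul_div_cancel₀ _ hkL.ne', logHeight_fin x hx T₀ h2]
  have hpf := log_product τ hTx T₀ h1
  refine (valDist_le S δ u' ⟨p₀, hp₀⟩ τ hTx T₀ h3 h1).trans (le_of_eq ?_)
  have e1 : ∑ w ∈ T₀, (if below K w ∈ S then 0 else
      |Real.log (w τ) - δ * Real.log (⨆ p, w (algebraMap K L (u' p)))|) =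
      (∑ w ∈ T₀, (δ * Real.log (⨆ a, w (x a)) - Real.log (w τ)) -
        ∑ w ∈ T₀, if below K w ∈ S then δ * Real.log (⨆ a, w (x a)) - Real.log (w τ) else 0) +
      δ * ∑ w ∈ T₀, if below K w ∈ S then 0 else
        Real.log (⨆ p, w (algebraMap K L (u' p))) - Real.log (⨆ a, w (x a)) := by
    rw [← Finset.sum_sub_distrib, Finset.mul_sum, ← Finset.sum_add_distrib]
    refine Finset.sum_congr rfl fun w _ => ?_
    by_cases hw : below K w ∈ S
    · rw [if_pos hw, if_pos hw, if_pos hw]
      ring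
    · rw [if_neg hw, if_neg hw, if_neg hw, hloc w]
      ring
  rw [e1, ← hcont]
  have e2 : ∑ w ∈ T₀, (δ * Real.log (⨆ a, w (x a)) - Real.log (w τ)) =
      δ * ∑ w ∈ T₀, Real.log (⨆ a, w (x a)) - ∑ w ∈ T₀, Real.log (w τ) := by
    rw [Finset.mul_sum, ← Finset.sum_sub_distrib]
  have e3 : ∑ w : InfinitePlace L, (w.mult : ℝ) *
      (δ * Real.log (⨆ a, w (x a)) - Real.log (w τ)) =
      δ * ∑ w : InfinitePlace L, (w.mult : ℝ) * Real.log (⨆ a, w (x a)) -
        ∑ w : InfinitePlace L, (w.mult : ℝ) * Real.log (w τ) := by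
    rw [Finset.mul_sum, ← Finset.sum_sub_distrib]
    exact Finset.sum_congr rfl fun w _ => by ring
  rw [e2]
  rw [e3] at hprox
  linear_combination (-(δ : ℝ)) * hht + hprox - hpf

end Run7.h128.BD
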